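import Mathlib

/-!
T7: the Lorentz inequality.
-/

namespace Pool.Agent.Lib.MP_ed661f_ag.R

theorem lorentz (a b : ℝ) (c : Fin 5 → ℝ) (r : Fin 4 → ℝ) (ha : 0 ≤ a) (hb : 0 ≤ b)
    (hab : a + b = ∑ j, c j) (hq : ∑ i, r i ^ 2 ≤ 2 * (a * b - ∑ j, c j ^ 2))
    (e1 e2 : ℝ) (μ : Fin 5 → ℝ) (ν : Fin 4 → ℝ) (he1 : 0 ≤ e1) (he2 : 0 ≤ e2)
    (hk : 1 ≤ e1 + e2 - ∑ j, μ j)
    (hZ : 2 * ∑ j, μ j ^ 2 + ∑ i, ν i ^ 2 + 2 * (e1 + e2) ≤ 2 * e1 * e2 + 2 * ∑ j, μ j + 4) :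
    2 * ∑ j, c j * μ j + ∑ i, r i * ν i ≤ a * e2 + b * e1 := by
  obtain ⟨k, hkd⟩ : ∃ k, k = e1 + e2 - ∑ j, μ j := ⟨_, rfl⟩
  rw [← hkd] at hk
  -- the shifted vector
  set W1 := e1 + 2 * k with hW1
  set W2 := e2 + 2 * k with hW2
  have hW1n : 0 ≤ W1 := by linarith
  have hW2n : 0 ≤ W2 := by linarith
  have hM2 : ∑ j, (μ j + k) ^ 2 = ∑ j, μ j ^ 2 + 2 * k * ∑ j, μ j + 5 * k ^ 2 := by
    simp only [Fin.sum_univ_five]
    ring
  have hcM : ∑ j, c j * (μ j + k) = ∑ j, c j * μ j + k * ∑ j, c j := by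
    simp only [Fin.sum_univ_five]
    ring
  have hqW : 2 * ∑ j, (μ j + k) ^ 2 + ∑ i, ν i ^ 2 ≤ 2 * W1 * W2 := by
    rw [hM2, hW1, hW2]
    have h1 : ∑ j, μ j = e1 + e2 - k := by linarith
    rw [h1] at hZ ⊢
    nlinarith
  -- Cauchy-Schwarz
  have hCS1 : (∑ j, c j * (μ j + k)) ^ 2 ≤ (∑ j, c j ^ 2) * ∑ j, (μ j + k) ^ 2 :=
    Finset.sum_mul_sq_le_sq_mul_sq _ _ _
  have hCS2 : (∑ i, r i * ν i) ^ 2 ≤ (∑ i, r i ^ 2) * ∑ i, ν i ^ 2 :=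
    Finset.sum_mul_sq_le_sq_mul_sq _ _ _
  have hC : 0 ≤ ∑ j, c j ^ 2 := Finset.sum_nonneg fun _ _ => sq_nonneg _
  have hM : 0 ≤ ∑ j, (μ j + k) ^ 2 := Finset.sum_nonneg fun _ _ => sq_nonneg _
  have hR : 0 ≤ ∑ i, r i ^ 2 := Finset.sum_nonneg fun _ _ => sq_nonneg _
  have hN : 0 ≤ ∑ i, ν i ^ 2 := Finset.sum_nonneg fun _ _ => sq_nonneg _
  have hfin : 2 * ∑ j, c j * (μ j + k) + ∑ i, r i * ν i ≤ a * W2 + b * W1 := by
    generalize (∑ j, c j * (μ j + k)) = x at *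
    generalize (∑ i, r i * ν i) = y at *
    generalize (∑ j, c j ^ 2) = C at *
    generalize (∑ j, (μ j + k) ^ 2) = M at *
    generalize (∑ i, r i ^ 2) = R at *
    generalize (∑ i, ν i ^ 2) = N at *
    have h0 : 0 ≤ a * W2 + b * W1 := by positivity
    refine le_trans (le_abs_self _) (abs_le_of_sq_le_sq ?_ h0)
    have h1 : (2 * x + y) ^ 2 ≤ (2 * C + R) * (2 * M + N) := by
      have h2 : 4 * x * y ≤ 2 * (C * N + R * M) := by
        have h3 : (x * y) ^ 2 ≤ (C * M) * (R * N) := by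
          rw [mul_pow]
          exact mul_le_mul hCS1 hCS2 (sq_nonneg _) (by positivity)
        have h4 : (2 * (x * y)) ^ 2 ≤ (C * N + R * M) ^ 2 := by
          nlinarith [sq_nonneg (C * N - R * M)]
        have h5 : 2 * (x * y) ≤ C * N + R * M := by
          have := abs_le_of_sq_le_sq h4 (by positivity)
          exact le_trans (le_abs_self _) this
        linarith
      nlinarith
    have h2 : (2 * C + R) * (2 * M + N) ≤ (2 * (a * b)) * (2 * (W1 * W2)) := by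
      apply mul_le_mul
      · linarith
      · linarith
      · positivity
      · positivity
    nlinarith [sq_nonneg (a * W2 - b * W1)]
  rw [hcM, hW1, hW2, ← hab] at hfin
  nlinarith

end Pool.Agent.Lib.MP_ed661f_ag.R
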