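import Pool.Agent.Lib.MP_ed661f_ag.R.Defs

/-!
T2: the involution on polynomials.
-/

open MvPolynomial

namespace Pool.Agent.Lib.MP_ed661f_ag.R

open Pool.Agent.Lib.MP_ed661f_ag.E

/-! ### exponents -/

private theorem ext2 {e f : Fin 2 →₀ ℕ} (h0 : e 0 = f 0) (h1 : e 1 = f 1) : e = f := by
  ext i
  fin_cases i
  · exact h0
  · exact h1

@[simp] theorem rexp_zero (A B : ℕ) (e : Fin 2 →₀ ℕ) : rexp A B e 0 = A - e 0 := by simp [rexp]

@[simp] theorem rexp_one (A B : ℕ) (e : Fin 2 →₀ ℕ) : rexp A B e 1 = B - e 1 := by simp [rexp]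

theorem rexp_rexp {A B : ℕ} {e : Fin 2 →₀ ℕ} (h0 : e 0 ≤ A) (h1 : e 1 ≤ B) :
    rexp A B (rexp A B e) = e := by
  refine ext2 ?_ ?_
  · rw [rexp_zero, rexp_zero]
    omega
  · rw [rexp_one, rexp_one]
    omega

private theorem monomial_eq_two (e : Fin 2 →₀ ℕ) (c : ℂ) :
    monomial e c = C c * (X 0 ^ e 0 * X 1 ^ e 1) := by
  rw [monomial_eq, Finsupp.prod_fintype _ _ (fun _ => pow_zero _), Fin.prod_univ_two]

/-! ### bidegree -/

theorem mem_Box_support {A B : ℕ} {u : Pol} :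
    u ∈ Box A B ↔ ∀ e ∈ u.support, e 0 ≤ A ∧ e 1 ≤ B := by
  unfold Box
  rw [mem_restrictSupport_iff]
  constructor
  · intro h e he
    exact h he
  · intro h e he
    exact h e he

private theorem monomial_mem_Box {A B : ℕ} {e : Fin 2 →₀ ℕ} (h0 : e 0 ≤ A) (h1 : e 1 ≤ B) (c : ℂ) :
    (monomial e c : Pol) ∈ Box A B := by
  rw [mem_Box_support]
  intro f hf
  have := support_monomial_subset hf
  rw [Finset.mem_singleton] at this
  subst this
  exact ⟨h0, h1⟩

theorem Box_mono {A B A' B' : ℕ} (hA : A ≤ A') (hB : B ≤ B') : Box A B ≤ Box A' B' := by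
  intro u hu
  rw [mem_Box_support] at hu ⊢
  intro e he
  exact ⟨(hu e he).1.trans hA, (hu e he).2.trans hB⟩

theorem inv_inv' (p : Pt) : inv (inv p) = p := by
  funext i
  fin_cases i
  · simp [inv]
  · simp [inv]

theorem Tor.inv {p : Pt} (hp : Tor p) : Tor (inv p) := by
  constructor
  · simpa [R.inv] using hp.1
  · simpa [R.inv] using hp.2

theorem rev_eq_sum (A B : ℕ) (G : Pol) :
    rev A B G = ∑ e ∈ G.support, monomial (rexp A B e) (coeff e G) := by
  conv_lhs => rw [as_sum G, map_sum]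
  exact Finset.sum_congr rfl fun e _ => rev_monomial _ _ _ _

theorem rev_mem {A B : ℕ} (F : Pol) : rev A B F ∈ Box A B := by
  rw [rev_eq_sum]
  refine Submodule.sum_mem _ fun e _ => monomial_mem_Box ?_ ?_ _
  · simp
  · simp

theorem rev_rev {A B : ℕ} {F : Pol} (hF : F ∈ Box A B) : rev A B (rev A B F) = F := by
  rw [rev_eq_sum A B F, map_sum]
  conv_rhs => rw [as_sum F]
  refine Finset.sum_congr rfl fun e he => ?_
  obtain ⟨h0, h1⟩ := mem_Box_support.mp hF e he
  rw [rev_monomial, rexp_rexp h0 h1]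

theorem mul_mem_Box {A B C D : ℕ} {F G : Pol} (hF : F ∈ Box A B) (hG : G ∈ Box C D) :
    F * G ∈ Box (A + C) (B + D) := by
  rw [mem_Box] at *
  constructor
  · exact (degreeOf_mul_le 0 F G).trans (by omega)
  · exact (degreeOf_mul_le 1 F G).trans (by omega)

theorem rev_mul {A B C D : ℕ} {F G : Pol} (hF : F ∈ Box A B) (hG : G ∈ Box C D) :
    rev (A + C) (B + D) (F * G) = rev A B F * rev C D G := by
  conv_lhs => rw [as_sum F, as_sum G, Finset.sum_mul_sum, map_sum]
  rw [rev_eq_sum A B F, rev_eq_sum C D G, Finset.sum_mul_sum]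
  refine Finset.sum_congr rfl fun e he => ?_
  rw [map_sum]
  refine Finset.sum_congr rfl fun f hf => ?_
  obtain ⟨h0, h1⟩ := mem_Box_support.mp hF e he
  obtain ⟨h2, h3⟩ := mem_Box_support.mp hG f hf
  have h4 : rexp (A + C) (B + D) (e + f) = rexp A B e + rexp C D f := by
    refine ext2 ?_ ?_
    · simp only [rexp_zero, Finsupp.add_apply]
      omega
    · simp only [rexp_one, Finsupp.add_apply]
      omega
  rw [monomial_mul, rev_monomial, monomial_mul, h4]

theorem rev_ne_zero {A B : ℕ} {F : Pol} (hF : F ∈ Box A B) (h : F ≠ 0) : rev A B F ≠ 0 := by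
  intro h1
  apply h
  rw [← rev_rev hF, h1, map_zero]

theorem coeff_rev {A B : ℕ} {G : Pol} (hG : G ∈ Box A B) {e : Fin 2 →₀ ℕ}
    (h0 : e 0 ≤ A) (h1 : e 1 ≤ B) : coeff e (rev A B G) = coeff (rexp A B e) G := by
  rw [rev_eq_sum, coeff_sum]
  have h2 : ∀ f ∈ G.support, coeff e (monomial (rexp A B f) (coeff f G)) =
      if f = rexp A B e then coeff f G else 0 := by
    intro f hf
    obtain ⟨h3, h4⟩ := mem_Box_support.mp hG f hf
    rw [coeff_monomial]
    by_cases h5 : f = rexp A B e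
    · rw [if_pos h5, if_pos]
      rw [h5, rexp_rexp h0 h1]
    · rw [if_neg h5, if_neg]
      intro h6
      apply h5
      rw [← h6, rexp_rexp h3 h4]
  rw [Finset.sum_congr rfl h2, Finset.sum_ite_eq']
  split_ifs with h3
  · rfl
  · rw [notMem_support_iff] at h3
    exact h3.symm

theorem eval_rev {A B : ℕ} {F : Pol} (hF : F ∈ Box A B) {p : Pt} (hp : Tor p) :
    eval p (rev A B F) = p 0 ^ A * p 1 ^ B * eval (inv p) F := by
  rw [rev_eq_sum, map_sum]
  conv_rhs => rw [as_sum F, map_sum, Finset.mul_sum]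
  refine Finset.sum_congr rfl fun e he => ?_
  obtain ⟨h0, h1⟩ := mem_Box_support.mp hF e he
  rw [monomial_eq_two, monomial_eq_two]
  simp only [rexp_zero, rexp_one, map_mul, eval_C, map_pow, eval_X]
  rw [pow_sub₀ _ hp.1 h0, pow_sub₀ _ hp.2 h1]
  simp only [R.inv, Matrix.cons_val_zero, Matrix.cons_val_one, inv_pow]
  ring

/-! ### Taylor expansions -/

private theorem C_mem_Box (c : ℂ) : (C c : Pol) ∈ Box 0 0 :=
  monomial_mem_Box (e := 0) (by simp) (by simp) c

private theorem pow_mem_Box {A B : ℕ} {u : Pol} (hu : u ∈ Box A B) (n : ℕ) :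
    u ^ n ∈ Box (n * A) (n * B) := by
  induction n with
  | zero =>
    rw [pow_zero, zero_mul, zero_mul]
    exact C_mem_Box 1
  | succ n ih =>
    rw [pow_succ, add_mul, add_mul, one_mul, one_mul]
    exact mul_mem_Box ih hu

private theorem X0_add_mem_Box (c : ℂ) : (X 0 + C c : Pol) ∈ Box 1 0 := by
  refine Submodule.add_mem _ ?_ (Box_mono (by omega) le_rfl (C_mem_Box c))
  exact monomial_mem_Box (e := Finsupp.single 0 1) (by simp) (by simp) 1

private theorem X1_add_mem_Box (c : ℂ) : (X 1 + C c : Pol) ∈ Box 0 1 := by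
  refine Submodule.add_mem _ ?_ (Box_mono le_rfl (by omega) (C_mem_Box c))
  exact monomial_mem_Box (e := Finsupp.single 1 1) (by simp) (by simp) 1

private theorem pw_mem_Box (c d : ℂ) (a b : ℕ) :
    ((X 0 + C c) ^ a * (X 1 + C d) ^ b : Pol) ∈ Box a b := by
  have h0 := pow_mem_Box (X0_add_mem_Box c) a
  have h1 := pow_mem_Box (X1_add_mem_Box d) b
  have h2 := mul_mem_Box h0 h1
  simpa using h2

private theorem tay_monomial (p : Pt) (e : Fin 2 →₀ ℕ) (c : ℂ) :
    tay p (monomial e c) = C c * ((X 0 + C (p 0)) ^ e 0 * (X 1 + C (p 1)) ^ e 1) := by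
  rw [monomial_eq_two]
  unfold tay
  simp only [map_mul, map_pow, aeval_X, algHom_C, algebraMap_eq]

private theorem tay_sum {ι : Type*} (p : Pt) (s : Finset ι) (f : ι → Pol) :
    tay p (∑ i ∈ s, f i) = ∑ i ∈ s, tay p (f i) := map_sum _ _ _

private theorem C_mul_mem_Box {A B : ℕ} {u : Pol} (c : ℂ) (hu : u ∈ Box A B) :
    C c * u ∈ Box A B := by
  rw [C_mul']
  exact Submodule.smul_mem _ c hu

theorem tay_mem_Box {A B : ℕ} {u : Pol} (p : Pt) (hu : u ∈ Box A B) :
    tay p u ∈ Box A B := by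
  rw [as_sum u, tay_sum]
  refine Submodule.sum_mem _ fun e he => ?_
  rw [tay_monomial]
  obtain ⟨h0, h1⟩ := mem_Box_support.mp hu e he
  exact C_mul_mem_Box _ (Box_mono h0 h1 (pw_mem_Box _ _ _ _))

private theorem tay_expand (q : Pt) (u : Pol) :
    u = ∑ e ∈ (tay q u).support, C (coeff e (tay q u)) *
      ((X 0 + C (-q 0)) ^ e 0 * (X 1 + C (-q 1)) ^ e 1) := by
  have h1 := Bz.tay_neg_tay (-q) u
  rw [neg_neg] at h1
  conv_lhs => rw [← h1, as_sum (tay q u), tay_sum]
  refine Finset.sum_congr rfl fun e _ => ?_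
  rw [tay_monomial]
  rfl

private theorem rev_C (c : ℂ) : rev 0 0 (C c) = C c := by
  have h : rexp 0 0 (0 : Fin 2 →₀ ℕ) = 0 := ext2 (by simp) (by simp)
  rw [← monomial_zero', rev_monomial, h]

private theorem rev_pow {A B : ℕ} {G : Pol} (hG : G ∈ Box A B) (n : ℕ) :
    rev (n * A) (n * B) (G ^ n) = rev A B G ^ n := by
  induction n with
  | zero =>
    rw [pow_zero, pow_zero, zero_mul, zero_mul]
    exact rev_C 1
  | succ n ih =>
    rw [pow_succ, pow_succ, add_mul, add_mul, one_mul, one_mul, rev_mul (pow_mem_Box hG n) hG, ih]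

private theorem rev_X0_add (c : ℂ) : rev 1 0 (X 0 + C c) = 1 + C c * X 0 := by
  have h1 : (X 0 + C c : Pol) = monomial (Finsupp.single 0 1) 1 + monomial 0 c := rfl
  rw [h1, map_add, rev_monomial, rev_monomial, monomial_eq_two, monomial_eq_two]
  simp

private theorem rev_X1_add (c : ℂ) : rev 0 1 (X 1 + C c) = 1 + C c * X 1 := by
  have h1 : (X 1 + C c : Pol) = monomial (Finsupp.single 1 1) 1 + monomial 0 c := rfl
  rw [h1, map_add, rev_monomial, rev_monomial, monomial_eq_two, monomial_eq_two]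
  simp

private theorem rev_pw (c d : ℂ) (a b : ℕ) :
    rev a b ((X 0 + C c) ^ a * (X 1 + C d) ^ b) = (1 + C c * X 0) ^ a * (1 + C d * X 1) ^ b := by
  have h0 := pow_mem_Box (X0_add_mem_Box c) a
  have h1 := pow_mem_Box (X1_add_mem_Box d) b
  have h2 := rev_mul h0 h1
  rw [rev_pow (X0_add_mem_Box c), rev_pow (X1_add_mem_Box d), rev_X0_add, rev_X1_add] at h2
  simpa using h2

private theorem rev_of_le {A B a b : ℕ} (hA : a ≤ A) (hB : b ≤ B) {G : Pol}
    (hG : G ∈ Box a b) : rev A B G = X 0 ^ (A - a) * X 1 ^ (B - b) * rev a b G := by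
  have h1 := rev_mul (Box_mono (Nat.zero_le (A - a)) (Nat.zero_le (B - b)) (C_mem_Box 1)) hG
  rw [C_1, one_mul, Nat.sub_add_cancel hA, Nat.sub_add_cancel hB] at h1
  rw [h1]
  congr 1
  have h2 : (1 : Pol) = monomial 0 1 := rfl
  rw [h2, rev_monomial, monomial_eq_two]
  simp

private theorem tay_rev {A B : ℕ} {G : Pol} (hG : G ∈ Box A B) {p : Pt} (hp : Tor p) :
    tay (inv p) (rev A B G) = ∑ e ∈ (tay p G).support,
      (C (coeff e (tay p G) * (-p 0) ^ e 0 * (-p 1) ^ e 1) *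
        ((X 0 + C (p 0)⁻¹) ^ (A - e 0) * (X 1 + C (p 1)⁻¹) ^ (B - e 1))) * monomial e 1 := by
  conv_lhs => rw [tay_expand p G, map_sum, tay_sum]
  refine Finset.sum_congr rfl fun e he => ?_
  obtain ⟨h0, h1⟩ := mem_Box_support.mp (tay_mem_Box p hG) e he
  rw [← smul_eq_C_mul, map_smul, rev_of_le h0 h1 (pw_mem_Box _ _ _ _), rev_pw, smul_eq_C_mul,
    monomial_eq_two]
  unfold tay
  simp only [map_mul, map_pow, map_add, map_neg, map_one, aeval_X, algHom_C, algebraMap_eq,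
    R.inv, Matrix.cons_val_zero, Matrix.cons_val_one]
  have e0 : (1 + -C (p 0) * (X 0 + C (p 0)⁻¹) : Pol) = -C (p 0) * X 0 := by
    have h2 : (C (p 0) * C (p 0)⁻¹ : Pol) = 1 := by
      rw [← C_mul, mul_inv_cancel₀ hp.1, C_1]
    linear_combination -h2
  have e1 : (1 + -C (p 1) * (X 1 + C (p 1)⁻¹) : Pol) = -C (p 1) * X 1 := by
    have h2 : (C (p 1) * C (p 1)⁻¹ : Pol) = 1 := by
      rw [← C_mul, mul_inv_cancel₀ hp.2, C_1]
    linear_combination -h2
  rw [e0, e1, mul_pow, mul_pow]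
  ring

/-- the order of vanishing is transported by the involution -/
theorem ord_rev {A B : ℕ} {G : Pol} (hG : G ∈ Box A B) {p : Pt} (hp : Tor p) {k : ℕ}
    (h : Bz.Ord k (tay p G)) : Bz.Ord k (tay (inv p) (rev A B G)) := by
  rw [tay_rev hG hp]
  intro e he
  rw [coeff_sum]
  refine Finset.sum_eq_zero fun f hf => ?_
  have h1 : k ≤ f.degree := by
    by_contra h2
    exact (mem_support_iff.mp hf) (h f (by omega))
  rw [coeff_mul_monomial', if_neg]
  intro h2
  have h3 : f.degree ≤ e.degree := by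
    rw [Bz.degree_two', Bz.degree_two']
    exact add_le_add (h2 0) (h2 1)
  omega

theorem ord_rev_iff {A B : ℕ} {G : Pol} (hG : G ∈ Box A B) {p : Pt} (hp : Tor p) {k : ℕ} :
    Bz.Ord k (tay (inv p) (rev A B G)) ↔ Bz.Ord k (tay p G) := by
  refine ⟨fun h => ?_, ord_rev hG hp⟩
  have h1 := ord_rev (rev_mem G) hp.inv h
  rwa [rev_rev hG, inv_inv'] at h1

/-- the leading form at a point is transported by the involution:
expand `F` in powers of `X i - p i` -/
theorem lead_rev {A B l : ℕ} {F : Pol} (hF : F ∈ Box A B) {p : Pt} (hp : Tor p)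
    (h : Bz.Ord l (tay p F)) :
    Bz.Ord l (tay (inv p) (rev A B F)) ∧ ∀ e : Fin 2 →₀ ℕ, e.degree = l →
      coeff e (tay (inv p) (rev A B F)) * (p 0 ^ A * p 1 ^ B) =
        (-1) ^ l * (p 0 ^ (2 * e 0) * p 1 ^ (2 * e 1)) * coeff e (tay p F) := by
  refine ⟨ord_rev hF hp h, fun e he => ?_⟩
  have hzero : ∀ f ∈ (tay p F).support, f ≠ e →
      coeff e ((C (coeff f (tay p F) * (-p 0) ^ f 0 * (-p 1) ^ f 1) *
        ((X 0 + C (p 0)⁻¹) ^ (A - f 0) * (X 1 + C (p 1)⁻¹) ^ (B - f 1))) * monomial f 1 : Pol)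
        = 0 := by
    intro f hf hfe
    have h2 : l ≤ f.degree := by
      by_contra h2
      exact (mem_support_iff.mp hf) (h f (by omega))
    rw [coeff_mul_monomial', if_neg]
    intro h3
    apply hfe
    rw [Bz.degree_two'] at h2 he
    have h4 := h3 0
    have h5 := h3 1
    exact ext2 (by omega) (by omega)
  rw [tay_rev hF hp, coeff_sum]
  by_cases h1 : e ∈ (tay p F).support
  · rw [Finset.sum_eq_single_of_mem e h1 hzero]
    obtain ⟨h2, h3⟩ := mem_Box_support.mp (tay_mem_Box p hF) e h1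
    rw [coeff_mul_monomial', if_pos le_rfl, tsub_self, mul_one, coeff_C_mul]
    have h4 : coeff 0 ((X 0 + C (p 0)⁻¹) ^ (A - e 0) * (X 1 + C (p 1)⁻¹) ^ (B - e 1) : Pol) =
        (p 0)⁻¹ ^ (A - e 0) * (p 1)⁻¹ ^ (B - e 1) := by
      rw [← constantCoeff_eq]
      simp
    have h5 : (p 0)⁻¹ ^ (A - e 0) * p 0 ^ A = p 0 ^ e 0 := by
      conv_lhs => rw [← Nat.sub_add_cancel h2, Nat.add_sub_cancel, pow_add, ← mul_assoc,
        ← mul_pow, inv_mul_cancel₀ hp.1, one_pow, one_mul]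
    have h6 : (p 1)⁻¹ ^ (B - e 1) * p 1 ^ B = p 1 ^ e 1 := by
      conv_lhs => rw [← Nat.sub_add_cancel h3, Nat.add_sub_cancel, pow_add, ← mul_assoc,
        ← mul_pow, inv_mul_cancel₀ hp.2, one_pow, one_mul]
    rw [h4, ← he, Bz.degree_two', neg_pow (p 0), neg_pow (p 1), pow_add]
    have h7 : coeff e (tay p F) * ((-1) ^ e 0 * p 0 ^ e 0) * ((-1) ^ e 1 * p 1 ^ e 1) *
        ((p 0)⁻¹ ^ (A - e 0) * (p 1)⁻¹ ^ (B - e 1)) * (p 0 ^ A * p 1 ^ B) =
        coeff e (tay p F) * ((-1) ^ e 0 * p 0 ^ e 0) * ((-1) ^ e 1 * p 1 ^ e 1) *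
        (((p 0)⁻¹ ^ (A - e 0) * p 0 ^ A) * ((p 1)⁻¹ ^ (B - e 1) * p 1 ^ B)) := by ring
    rw [h7, h5, h6]
    ring
  · have h2 : coeff e (tay p F) = 0 := by
      rwa [notMem_support_iff] at h1
    rw [h2, mul_zero, Finset.sum_eq_zero, zero_mul]
    intro f hf
    exact hzero f hf (fun h3 => h1 (h3 ▸ hf))

theorem mlt_rev {A B : ℕ} {F : Pol} (hF : F ∈ Box A B) (h0 : F ≠ 0) {p : Pt} (hp : Tor p) :
    mlt (inv p) (rev A B F) = mlt p F := by
  have h1 : ∀ m, m ≤ mlt (inv p) (rev A B F) ↔ m ≤ mlt p F := by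
    intro m
    rw [le_mlt_iff (rev_ne_zero hF h0), le_mlt_iff h0]
    exact ord_rev_iff hF hp
  exact le_antisymm ((h1 _).mp le_rfl) ((h1 _).mpr le_rfl)

/-! ### parity -/

theorem Y0_sq (i : Fin 4) (j : Fin 2) : Y0 i j ^ 2 = 1 := by
  fin_cases i <;> fin_cases j <;> simp [Y0]

theorem Y0_ne (i : Fin 4) (j : Fin 2) : Y0 i j ≠ 0 := by
  intro h
  have := Y0_sq i j
  rw [h] at this
  norm_num at this

theorem tor_Y0 (i : Fin 4) : Tor (Y0 i) := ⟨Y0_ne i 0, Y0_ne i 1⟩

theorem inv_Y0 (i : Fin 4) : inv (Y0 i) = Y0 i := by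
  fin_cases i <;> (funext j; fin_cases j <;> simp [Y0, R.inv])

/-- parity: a semi-invariant which vanishes to order `l` at a fixed point, `l` of the wrong
parity, vanishes to order `l + 1` -/
theorem parity {A B l : ℕ} {s : ℂ} {F : Pol} (hF : F ∈ S A B s) (i : Fin 4)
    (h : Bz.Ord l (tay (Y0 i) F)) (hl : s * (Y0 i 0 ^ A * Y0 i 1 ^ B) ≠ (-1) ^ l) :
    Bz.Ord (l + 1) (tay (Y0 i) F) := by
  obtain ⟨hB, hs⟩ := mem_S.mp hF
  intro e he
  rcases Nat.lt_succ_iff_lt_or_eq.mp he with h1 | h1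
  · exact h e h1
  · have h2 := (lead_rev hB (tor_Y0 i) h).2 e h1
    have h3 : coeff e (tay (Y0 i) (s • F)) = s * coeff e (tay (Y0 i) F) := by
      unfold tay
      rw [map_smul, coeff_smul, smul_eq_mul]
    rw [inv_Y0, hs, h3, pow_mul, pow_mul, Y0_sq, Y0_sq, one_pow, one_pow, mul_one, mul_one] at h2
    have h4 : (s * (Y0 i 0 ^ A * Y0 i 1 ^ B) - (-1) ^ l) * coeff e (tay (Y0 i) F) = 0 := by
      linear_combination h2
    rcases mul_eq_zero.mp h4 with h5 | h5
    · exact absurd (sub_eq_zero.mp h5) hl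
    · exact h5

/-- the multiplicity at a fixed point has the right parity -/
theorem parity_mlt {A B : ℕ} {s : ℂ} {F : Pol} (hF : F ∈ S A B s) (h0 : F ≠ 0) (i : Fin 4) :
    s * (Y0 i 0 ^ A * Y0 i 1 ^ B) = (-1) ^ mlt (Y0 i) F := by
  by_contra h
  have h1 := parity hF i ((le_mlt_iff h0 _).mp (le_refl (mlt (Y0 i) F))) h
  have h2 := (le_mlt_iff h0 _).mpr h1
  omega

/-! ### exact bidegrees -/

theorem X_dvd_iff_coeff (i : Fin 2) (F : Pol) :
    X i ∣ F ↔ ∀ e : Fin 2 →₀ ℕ, e i = 0 → coeff e F = 0 := by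
  constructor
  · rintro ⟨G, rfl⟩ e he
    rw [coeff_X_mul', if_neg]
    rw [Finsupp.mem_support_iff, not_not]
    exact he
  · intro h
    rw [as_sum F]
    refine Finset.dvd_sum fun e he => ?_
    rw [X_dvd_monomial]
    right
    intro h1
    exact (mem_support_iff.mp he) (h e h1)

private theorem exists_degreeOf {F : Pol} (h0 : F ≠ 0) (i : Fin 2) :
    ∃ e ∈ F.support, e i = F.degreeOf i := by
  have h1 : F.support.Nonempty := support_nonempty.mpr h0
  rw [degreeOf_eq_sup]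
  obtain ⟨e, he, h2⟩ := Finset.exists_mem_eq_sup _ h1 (fun m : Fin 2 →₀ ℕ => m i)
  exact ⟨e, he, h2.symm⟩

private theorem self_mem_Box (F : Pol) : F ∈ Box (F.degreeOf 0) (F.degreeOf 1) :=
  mem_Box.mpr ⟨le_rfl, le_rfl⟩

private theorem rexp_mem_support {F : Pol} {A B : ℕ} (hF : F ∈ Box A B) {e : Fin 2 →₀ ℕ}
    (he : e ∈ F.support) : rexp A B e ∈ (rev A B F).support := by
  obtain ⟨h0, h1⟩ := mem_Box_support.mp hF e he
  rw [mem_support_iff, coeff_rev hF (by simp) (by simp), rexp_rexp h0 h1]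
  exact mem_support_iff.mp he

/-- exact bidegrees are preserved -/
theorem degreeOf_rev {F : Pol} (hF : NoX F) (i : Fin 2) :
    (rev (F.degreeOf 0) (F.degreeOf 1) F).degreeOf i = F.degreeOf i := by
  have hm := mem_Box.mp (rev_mem (A := F.degreeOf 0) (B := F.degreeOf 1) F)
  have hx : ∀ j : Fin 2, ¬ X j ∣ F → ∃ e ∈ F.support, e j = 0 := by
    intro j hj
    rw [X_dvd_iff_coeff] at hj
    push Not at hj
    obtain ⟨e, he, h1⟩ := hj
    exact ⟨e, mem_support_iff.mpr h1, he⟩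
  fin_cases i
  · refine le_antisymm hm.1 ?_
    obtain ⟨e, he, h1⟩ := hx 0 hF.1
    have h2 := monomial_le_degreeOf 0 (rexp_mem_support (self_mem_Box F) he)
    rw [rexp_zero, h1, Nat.sub_zero] at h2
    exact h2
  · refine le_antisymm hm.2 ?_
    obtain ⟨e, he, h1⟩ := hx 1 hF.2
    have h2 := monomial_le_degreeOf 1 (rexp_mem_support (self_mem_Box F) he)
    rw [rexp_one, h1, Nat.sub_zero] at h2
    exact h2

theorem noX_rev {F : Pol} (h0 : F ≠ 0) :
    NoX (rev (F.degreeOf 0) (F.degreeOf 1) F) := by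
  constructor
  · intro h
    rw [X_dvd_iff_coeff] at h
    obtain ⟨e, he, h1⟩ := exists_degreeOf h0 0
    have h2 := rexp_mem_support (self_mem_Box F) he
    exact (mem_support_iff.mp h2) (h _ (by rw [rexp_zero, h1, Nat.sub_self]))
  · intro h
    rw [X_dvd_iff_coeff] at h
    obtain ⟨e, he, h1⟩ := exists_degreeOf h0 1
    have h2 := rexp_mem_support (self_mem_Box F) he
    exact (mem_support_iff.mp h2) (h _ (by rw [rexp_one, h1, Nat.sub_self]))

private theorem isUnit_of_degreeOf {F : Pol} (hF : F ≠ 0) (h0 : F.degreeOf 0 = 0)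
    (h1 : F.degreeOf 1 = 0) : IsUnit F := by
  have h2 : F = C (coeff 0 F) := by
    ext e
    rw [coeff_C]
    split_ifs with h3
    · rw [← h3]
    · by_contra h4
      apply h3
      have h5 := mem_support_iff.mpr h4
      have h6 := monomial_le_degreeOf 0 h5
      have h7 := monomial_le_degreeOf 1 h5
      exact (ext2 (by simp; omega) (by simp; omega)).symm
  rw [h2]
  have h3 : coeff 0 F ≠ 0 := by
    intro h3
    rw [h3, C_0] at h2
    exact hF h2
  exact (isUnit_iff_ne_zero.mpr h3).map C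

private theorem degreeOf_of_isUnit {F : Pol} (hF : IsUnit F) (i : Fin 2) : F.degreeOf i = 0 := by
  obtain ⟨G, hG⟩ := hF.exists_right_inv
  have hF0 : F ≠ 0 := hF.ne_zero
  have hG0 : G ≠ 0 := by
    rintro rfl
    rw [mul_zero] at hG
    exact zero_ne_one hG
  have h1 := degreeOf_mul_eq (n := i) hF0 hG0
  rw [hG] at h1
  have h2 : (1 : Pol).degreeOf i = 0 := by
    rw [← C_1, degreeOf_C]
  omega

theorem irreducible_rev {F : Pol} (hF : NoX F) (h : Irreducible F) :
    Irreducible (rev (F.degreeOf 0) (F.degreeOf 1) F) := by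
  set R := rev (F.degreeOf 0) (F.degreeOf 1) F with hR
  have hF0 : F ≠ 0 := h.ne_zero
  have hR0 : R ≠ 0 := rev_ne_zero (self_mem_Box F) hF0
  have hd : ∀ i, R.degreeOf i = F.degreeOf i := degreeOf_rev hF
  have hN : NoX R := noX_rev hF0
  -- a divisor whose reflection is a unit is a unit
  have key : ∀ G : Pol, G ≠ 0 → NoX G →
      IsUnit (rev (G.degreeOf 0) (G.degreeOf 1) G) → IsUnit G := by
    intro G hG0 hGX hu
    refine isUnit_of_degreeOf hG0 ?_ ?_
    · rw [← degreeOf_rev hGX 0]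
      exact degreeOf_of_isUnit hu 0
    · rw [← degreeOf_rev hGX 1]
      exact degreeOf_of_isUnit hu 1
  constructor
  · intro hu
    apply h.not_isUnit
    refine isUnit_of_degreeOf hF0 ?_ ?_
    · rw [← hd 0]
      exact degreeOf_of_isUnit hu 0
    · rw [← hd 1]
      exact degreeOf_of_isUnit hu 1
  · intro G H hGH
    have hG0 : G ≠ 0 := by
      rintro rfl
      rw [zero_mul] at hGH
      exact hR0 hGH
    have hH0 : H ≠ 0 := by
      rintro rfl
      rw [mul_zero] at hGH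
      exact hR0 hGH
    have hGX : NoX G := ⟨fun h1 => hN.1 (hGH ▸ h1.mul_right H), fun h1 => hN.2 (hGH ▸ h1.mul_right H)⟩
    have hHX : NoX H := ⟨fun h1 => hN.1 (hGH ▸ h1.mul_left G), fun h1 => hN.2 (hGH ▸ h1.mul_left G)⟩
    have e0 : F.degreeOf 0 = G.degreeOf 0 + H.degreeOf 0 := by
      rw [← hd 0, hGH, degreeOf_mul_eq hG0 hH0]
    have e1 : F.degreeOf 1 = G.degreeOf 1 + H.degreeOf 1 := by
      rw [← hd 1, hGH, degreeOf_mul_eq hG0 hH0]
    have h2 : F = rev (G.degreeOf 0) (G.degreeOf 1) G * rev (H.degreeOf 0) (H.degreeOf 1) H := by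
      rw [← rev_mul (self_mem_Box G) (self_mem_Box H), ← e0, ← e1, ← hGH, hR,
        rev_rev (self_mem_Box F)]
    rcases h.isUnit_or_isUnit h2 with h3 | h3
    · exact Or.inl (key G hG0 hGX h3)
    · exact Or.inr (key H hH0 hHX h3)

/-- an irreducible polynomial different from the variables is not divisible by them -/
theorem noX_of_irreducible {F : Pol} (h : Irreducible F) (h0 : ¬ Associated F (X 0))
    (h1 : ¬ Associated F (X 1)) : NoX F := by
  constructor
  · intro h2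
    exact h0 ((MvPolynomial.X_prime (i := (0 : Fin 2))).irreducible.associated_of_dvd h h2).symm
  · intro h2
    exact h1 ((MvPolynomial.X_prime (i := (1 : Fin 2))).irreducible.associated_of_dvd h h2).symm

end Pool.Agent.Lib.MP_ed661f_ag.R
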