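import Pool.Agent.Lib.MP_ed661f_ag.R.Bez
import Pool.Agent.Lib.MP_ed661f_ag.R.Rev

/-!
T6: the period. `g(t) = sum_e coeff_e(Z) (4t-1)^{e0} (2t-2)^{A-e0} (2t-1)^{e1} (t-2)^{B-e1}` has
degree `≤ A+B`, leading coefficient `2^A Z(2,2)`, `g(0) = (-2)^{A+B} Z(1/2,1/2) = (-1)^{A+B} s Z(2,2)`
and vanishes to order `mlt (P0 j) Z` at `T0 j = 3, .., 7`; if the orders add up to `A+B` then
`2^A * prod (T0 j)^{mlt} = s`, so all exponents vanish.
-/

open MvPolynomial

namespace Pool.Agent.Lib.MP_ed661f_ag.R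

open Pool.Agent.Lib.MP_ed661f_ag.E

theorem Q1_eq : Q1 = (2 * X 1 + 2) * X 0 + (-(7 * X 1) + 2) := by
  unfold Q1; ring

private theorem num_eq (n : ℕ) [n.AtLeastTwo] : (OfNat.ofNat n : Pol) = C (OfNat.ofNat n) :=
  (map_ofNat C n).symm

theorem irreducible_Q1 : Irreducible Q1 := by
  have h2 : (2 : Pol) = C 2 := num_eq 2
  have h7 : (7 : Pol) = C 7 := num_eq 7
  rw [Q1_eq]
  refine irreducible_mul_X_add _ _ 0 ?_ ?_ ?_ ?_
  · intro h
    have := congrArg (eval (fun _ => (0 : ℂ))) h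
    rw [h2, map_add, map_mul, eval_X, mul_zero, zero_add, eval_C, map_zero] at this
    norm_num at this
  · intro h
    have h1 := vars_add_subset _ _ h
    rw [Finset.mem_union] at h1
    rcases h1 with h1 | h1
    · have h3 := vars_mul _ _ h1
      rw [h2, vars_C, vars_X] at h3
      simp at h3
    · rw [h2, vars_C] at h1
      simp at h1
  · intro h
    have h1 := vars_add_subset _ _ h
    rw [Finset.mem_union] at h1
    rcases h1 with h1 | h1
    · rw [vars_neg] at h1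
      have h3 := vars_mul _ _ h1
      rw [h7, vars_C, vars_X] at h3
      simp at h3
    · rw [h2, vars_C] at h1
      simp at h1
  · apply IsCoprime.isRelPrime
    refine ⟨C (7 / 18), C (2 / 18), ?_⟩
    rw [h2, h7]
    have : (C (7 / 18) * (C 2 * X 1 + C 2) + C (2 / 18) * (-(C 7 * X 1) + C 2) : Pol) =
        C (7 / 18 * 2 - 2 / 18 * 7) * X 1 + C (7 / 18 * 2 + 2 / 18 * 2) := by
      simp only [C_mul, C_sub, C_add]; ring
    rw [this]
    norm_num

theorem Q1_mon : Q1 = monomial (Finsupp.single 0 1 + Finsupp.single 1 1) 2 +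
    monomial (Finsupp.single 0 1) 2 + monomial (Finsupp.single 1 1) (-7) + monomial 0 2 := by
  have h2 : (2 : Pol) = C 2 := num_eq 2
  have h7 : (7 : Pol) = C 7 := num_eq 7
  have e1 : (monomial (Finsupp.single 0 1 + Finsupp.single 1 1) 2 : Pol) = C 2 * X 0 * X 1 := by
    rw [X, X, C_apply, monomial_mul, monomial_mul]; simp
  have e2 : (monomial (Finsupp.single 0 1) 2 : Pol) = C 2 * X 0 := by
    rw [X, C_apply, monomial_mul]; simp
  have e3 : (monomial (Finsupp.single 1 1) (-7) : Pol) = - (C 7 * X 1) := by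
    rw [X, C_apply, monomial_mul, ← map_neg (monomial _)]; simp
  have e4 : (monomial 0 2 : Pol) = C 2 := rfl
  rw [e1, e2, e3, e4, Q1, h2, h7]
  ring

theorem rev_Q1 : rev 1 1 Q1 = Q2 := by
  have h2 : (2 : Pol) = C 2 := num_eq 2
  have h7 : (7 : Pol) = C 7 := num_eq 7
  have r1 : rexp 1 1 (Finsupp.single 0 1 + Finsupp.single 1 1) = 0 := by
    ext i; fin_cases i <;> simp [rexp]
  have r2 : rexp 1 1 (Finsupp.single 0 1) = Finsupp.single 1 1 := by
    ext i; fin_cases i <;> simp [rexp]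
  have r3 : rexp 1 1 (Finsupp.single 1 1) = Finsupp.single 0 1 := by
    ext i; fin_cases i <;> simp [rexp]
  have r4 : rexp 1 1 0 = Finsupp.single 0 1 + Finsupp.single 1 1 := by
    ext i; fin_cases i <;> simp [rexp]
  have e1 : (monomial (Finsupp.single 0 1 + Finsupp.single 1 1) 2 : Pol) = C 2 * X 0 * X 1 := by
    rw [X, X, C_apply, monomial_mul, monomial_mul]; simp
  have e2 : (monomial (Finsupp.single 1 1) 2 : Pol) = C 2 * X 1 := by
    rw [X, C_apply, monomial_mul]; simp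
  have e3 : (monomial (Finsupp.single 0 1) (-7) : Pol) = - (C 7 * X 0) := by
    rw [X, C_apply, monomial_mul, ← map_neg (monomial _)]; simp
  have e4 : (monomial 0 2 : Pol) = C 2 := rfl
  rw [Q1_mon, map_add, map_add, map_add, rev_monomial, rev_monomial, rev_monomial, rev_monomial,
    r1, r2, r3, r4, e1, e2, e3, e4, Q2, h2, h7]
  ring

theorem coeff_Q1 : coeff (Finsupp.single 0 1 + Finsupp.single 1 1) Q1 = 2 := by
  have h1 : (Finsupp.single 0 1 : Fin 2 →₀ ℕ) ≠ Finsupp.single 0 1 + Finsupp.single 1 1 := by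
    intro h; have := DFunLike.congr_fun h 1; simp at this
  have h2 : (Finsupp.single 1 1 : Fin 2 →₀ ℕ) ≠ Finsupp.single 0 1 + Finsupp.single 1 1 := by
    intro h; have := DFunLike.congr_fun h 0; simp at this
  have h3 : (0 : Fin 2 →₀ ℕ) ≠ Finsupp.single 0 1 + Finsupp.single 1 1 := by
    intro h; have := DFunLike.congr_fun h 0; simp at this
  rw [Q1_mon, coeff_add, coeff_add, coeff_add, coeff_monomial, coeff_monomial, coeff_monomial,
    coeff_monomial, if_pos rfl, if_neg h1, if_neg h2, if_neg h3]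
  simp

theorem Q1_ne_zero : Q1 ≠ 0 := irreducible_Q1.ne_zero

theorem Q1_mem : Q1 ∈ Box 1 1 := by
  have key : ∀ (e : Fin 2 →₀ ℕ) (c : ℂ), e 0 ≤ 1 → e 1 ≤ 1 → (monomial e c : Pol) ∈ Box 1 1 := by
    intro e c h0 h1
    unfold Box
    rw [mem_restrictSupport_iff]
    intro d hd
    have := support_monomial_subset hd
    rw [Finset.mem_singleton] at this
    rw [this]; exact ⟨h0, h1⟩
  rw [Q1_mon]
  refine add_mem (add_mem (add_mem ?_ ?_) ?_) ?_
  all_goals exact key _ _ (by simp) (by simp)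

theorem degreeOf_Q1 (i : Fin 2) : Q1.degreeOf i = 1 := by
  have h := mem_Box.1 Q1_mem
  have h2 : (Finsupp.single 0 1 + Finsupp.single 1 1 : Fin 2 →₀ ℕ) ∈ Q1.support := by
    rw [mem_support_iff, coeff_Q1]; norm_num
  have h3 := monomial_le_degreeOf i h2
  fin_cases i
  · simp at h3 ⊢; omega
  · simp at h3 ⊢; omega

theorem eval_Q1 (p : Pt) : eval p Q1 = 2 * p 0 * p 1 + 2 * p 0 - 7 * p 1 + 2 := by
  unfold Q1
  simp only [map_add, map_sub, map_mul, eval_X, map_ofNat]

theorem noX_Q1 : NoX Q1 := by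
  have key : ∀ i : Fin 2, ¬ (X i ∣ Q1) := by
    rintro i ⟨G, hG⟩
    have h := congrArg (eval (fun _ => (0 : ℂ))) hG
    rw [eval_Q1, map_mul, eval_X] at h
    norm_num at h
  exact ⟨key 0, key 1⟩

private theorem T_ne (j : Fin 5) (n : ℕ) (h : n < 3) : T0 j - (n : ℂ) ≠ 0 := by
  unfold T0
  have : ((j : ℕ) : ℂ) + 3 - (n : ℂ) = (((j : ℕ) + (3 - n) : ℕ) : ℂ) := by
    push_cast [Nat.cast_sub (show n ≤ 3 by omega)]; ring
  rw [this, Nat.cast_ne_zero]
  omega

private theorem T_ne0 (j : Fin 5) : T0 j ≠ 0 := by simpa using T_ne j 0 (by norm_num)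
private theorem T_ne1 (j : Fin 5) : 2 * T0 j - 2 ≠ 0 := by
  have := T_ne j 1 (by norm_num)
  intro h
  apply this
  push_cast
  linear_combination h / 2
private theorem T_ne1' (j : Fin 5) : T0 j - 1 ≠ 0 := by simpa using T_ne j 1 (by norm_num)
private theorem T_ne2 (j : Fin 5) : T0 j - 2 ≠ 0 := by simpa using T_ne j 2 (by norm_num)
private theorem T_ne3 (j : Fin 5) : 4 * T0 j - 1 ≠ 0 := by
  unfold T0
  have : 4 * (((j : ℕ) : ℂ) + 3) - 1 = ((4 * (j : ℕ) + 11 : ℕ) : ℂ) := by push_cast; ring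
  rw [this, Nat.cast_ne_zero]
  omega
private theorem T_ne4 (j : Fin 5) : 2 * T0 j - 1 ≠ 0 := by
  unfold T0
  have : 2 * (((j : ℕ) : ℂ) + 3) - 1 = ((2 * (j : ℕ) + 5 : ℕ) : ℂ) := by push_cast; ring
  rw [this, Nat.cast_ne_zero]
  omega

theorem P0_zero (j : Fin 5) : P0 j 0 = (4 * T0 j - 1) / (2 * T0 j - 2) := rfl
theorem P0_one (j : Fin 5) : P0 j 1 = (2 * T0 j - 1) / (T0 j - 2) := rfl

theorem eval_P0_Q1 (j : Fin 5) : eval (P0 j) Q1 = 0 := by
  have h1 := T_ne1' j
  have h2 := T_ne2 j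
  have h3 : 2 * T0 j - 2 = 2 * (T0 j - 1) := by ring
  rw [eval_Q1, P0_zero, P0_one, h3]
  field_simp
  ring

theorem eval_P1_Q1 (j : Fin 5) : eval (P1 j) Q1 ≠ 0 := by
  have h1 := T_ne1 j
  have h2 := T_ne2 j
  have h3 := T_ne3 j
  have h4 := T_ne4 j
  have h0 := T_ne0 j
  have e0 : P1 j 0 = ((4 * T0 j - 1) / (2 * T0 j - 2))⁻¹ := rfl
  have e1 : P1 j 1 = ((2 * T0 j - 1) / (T0 j - 2))⁻¹ := rfl
  rw [eval_Q1, e0, e1]
  intro h
  field_simp at h
  apply h0
  linear_combination h / 27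

/-- the configuration: `P0 j` in the torus, and the ten points `P0 j`, `P1 j` are distinct -/
theorem tor_P0 (j : Fin 5) : Tor (P0 j) := by
  constructor
  · rw [P0_zero]; exact div_ne_zero (T_ne3 j) (T_ne1 j)
  · rw [P0_one]; exact div_ne_zero (T_ne4 j) (T_ne2 j)

/-- the multiplicities of `Q1` at the points of the configuration -/
theorem mlt_Q1 : (∀ j, mlt (P0 j) Q1 = 1) ∧ (∀ j, mlt (P1 j) Q1 = 0) ∧
    ∀ i, mlt (Y0 i) Q1 = 0 := by
  have hz : ∀ p : Pt, eval p Q1 ≠ 0 → mlt p Q1 = 0 := by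
    intro p hp
    by_contra h
    exact hp ((mlt_pos_iff Q1_ne_zero).1 (by omega))
  refine ⟨fun j => ?_, fun j => hz _ (eval_P1_Q1 j), fun i => hz _ ?_⟩
  · have h1 : 1 ≤ mlt (P0 j) Q1 := (mlt_pos_iff Q1_ne_zero).2 (eval_P0_Q1 j)
    have h2 : pderiv 0 Q1 = 2 * X 1 + 2 := by
      have e2 : (2 : Pol) = C 2 := (map_ofNat C 2).symm
      have e7 : (7 : Pol) = C 7 := (map_ofNat C 7).symm
      have h10 : pderiv (0 : Fin 2) (X 1 : Pol) = 0 := pderiv_X_of_ne (by decide)
      rw [Q1_eq, e2, e7]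
      simp only [map_add, map_neg, Derivation.leibniz, pderiv_C, pderiv_X_self, h10, add_zero, neg_zero, smul_eq_mul, mul_one, mul_zero]
    have h3 : eval (P0 j) (2 * X 1 + 2 : Pol) ≠ 0 := by
      simp only [map_add, map_mul, eval_X, map_ofNat]
      rw [P0_one]
      have h2 := T_ne2 j
      have h4 := T_ne1' j
      intro h
      field_simp at h
      apply h4
      linear_combination h / 6
    have h4 : (2 * X 1 + 2 : Pol) ≠ 0 := by
      intro h; rw [h] at h3; simp at h3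
    have h5 := mlt_pderiv (p := P0 j) (f := Q1) 0 (by rw [h2]; exact h4)
    rw [h2] at h5
    have h6 : mlt (P0 j) (2 * X 1 + 2 : Pol) = 0 := by
      by_contra h
      exact h3 ((mlt_pos_iff h4).1 (by omega))
    omega
  · rw [eval_Q1]
    fin_cases i <;> simp [Y0] <;> norm_num

theorem P0_injective : Function.Injective P0 := by
  intro i j h
  have h0 := congrFun h 0
  rw [P0_zero, P0_zero, div_eq_div_iff (T_ne1 i) (T_ne1 j)] at h0
  have h1 : T0 i = T0 j := by linear_combination (-1 / 6) * h0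
  unfold T0 at h1
  have h2 : ((i : ℕ) : ℂ) = ((j : ℕ) : ℂ) := by linear_combination h1
  exact Fin.ext (by exact_mod_cast h2)

theorem inv_P0_ne (i j : Fin 5) : inv (P0 i) ≠ P0 j := by
  intro h
  apply eval_P1_Q1 i
  unfold P1
  rw [h, eval_P0_Q1]

/-! ### homogeneous substitution -/

/-- `∑ c_e x^{e 0} x'^{A - e 0} y^{e 1} y'^{B - e 1}` -/
noncomputable def hm (x x' y y' : Polynomial ℂ) (A B : ℕ) (F : Pol) : Polynomial ℂ :=
  ∑ e ∈ F.support, Polynomial.C (coeff e F) *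
    (x ^ e 0 * x' ^ (A - e 0) * (y ^ e 1 * y' ^ (B - e 1)))

private theorem tay_mem {A B : ℕ} {F : Pol} (hF : F ∈ Box A B) (p : Pt) : tay p F ∈ Box A B := by
  have h : tay p F = ∑ e ∈ F.support, tay p (monomial e (coeff e F)) := by
    conv_lhs => rw [F.as_sum]
    simp only [tay, map_sum]
  rw [h]
  refine sum_mem fun e he => ?_
  have h1 : tay p (monomial e (coeff e F)) =
      C (coeff e F) * ((X 0 + C (p 0)) ^ e 0 * (X 1 + C (p 1)) ^ e 1) := by
    simp only [tay]
    rw [aeval_monomial, Finsupp.prod_fintype _ _ (by simp), Fin.prod_univ_two]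
    rfl
  have h2 : ∀ (i j : Fin 2) (n : ℕ), ((X j + C (p j)) ^ n : Pol).degreeOf i ≤ if i = j then n else 0 := by
    intro i j n
    refine (degreeOf_pow_le i _ n).trans ?_
    have h3 : (X j + C (p j) : Pol).degreeOf i ≤ if i = j then 1 else 0 := by
      refine (degreeOf_add_le i _ _).trans ?_
      rw [degreeOf_X, degreeOf_C]
      split_ifs <;> simp
    refine (Nat.mul_le_mul_left n h3).trans ?_
    split_ifs <;> simp
  have hb := mem_Box.1 hF
  have m0 := monomial_le_degreeOf 0 he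
  have m1 := monomial_le_degreeOf 1 he
  rw [mem_Box, h1]
  constructor
  · refine (degreeOf_C_mul_le _ _ _).trans ((degreeOf_mul_le 0 _ _).trans ?_)
    have h4 := h2 0 0 (e 0)
    have h5 := h2 0 1 (e 1)
    rw [if_pos rfl] at h4
    rw [if_neg (by decide)] at h5
    omega
  · refine (degreeOf_C_mul_le _ _ _).trans ((degreeOf_mul_le 1 _ _).trans ?_)
    have h4 := h2 1 0 (e 0)
    have h5 := h2 1 1 (e 1)
    rw [if_neg (by decide)] at h4
    rw [if_pos rfl] at h5
    omega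

private theorem hm_aeval {x x' y y' : Polynomial ℂ} (hx : x' ≠ 0) (hy : y' ≠ 0) {A B : ℕ} {F : Pol}
    (hF : F ∈ Box A B) :
    algebraMap (Polynomial ℂ) (RatFunc ℂ) (hm x x' y y' A B F) =
      algebraMap (Polynomial ℂ) (RatFunc ℂ) (x' ^ A * y' ^ B) *
        aeval (![algebraMap _ _ x / algebraMap _ _ x', algebraMap _ _ y / algebraMap _ _ y'] :
          Fin 2 → RatFunc ℂ) F := by
  have hx1 : algebraMap (Polynomial ℂ) (RatFunc ℂ) x' ≠ 0 := by
    simpa using hx
  have hy1 : algebraMap (Polynomial ℂ) (RatFunc ℂ) y' ≠ 0 := by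
    simpa using hy
  rw [hm, map_sum, aeval_def, eval₂_eq', Finset.mul_sum]
  refine Finset.sum_congr rfl fun e he => ?_
  have hb := mem_Box.1 hF
  have m0 := (monomial_le_degreeOf 0 he).trans hb.1
  have m1 := (monomial_le_degreeOf 1 he).trans hb.2
  rw [Fin.prod_univ_two]
  simp only [map_mul, map_pow, Matrix.cons_val_zero, Matrix.cons_val_one]
  rw [IsScalarTower.algebraMap_apply ℂ (Polynomial ℂ) (RatFunc ℂ), Polynomial.algebraMap_apply,
    Algebra.algebraMap_self_apply]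
  obtain ⟨a, ha⟩ := Nat.exists_eq_add_of_le m0
  obtain ⟨b, hb'⟩ := Nat.exists_eq_add_of_le m1
  rw [ha, hb', Nat.add_sub_cancel_left, Nat.add_sub_cancel_left, div_pow, div_pow]
  field_simp
  ring

/-- the order of vanishing of the substitution -/
private theorem hm_dvd {x x' y y' : Polynomial ℂ} (hx : x' ≠ 0) (hy : y' ≠ 0) {A B : ℕ} {F : Pol}
    (hF : F ∈ Box A B) (hF0 : F ≠ 0) {t : ℂ} {p : Pt} (h0 : x.eval t = p 0 * x'.eval t)
    (h1 : y.eval t = p 1 * y'.eval t) :
    (Polynomial.X - Polynomial.C t) ^ mlt p F ∣ hm x x' y y' A B F := by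
  have hx1 : algebraMap (Polynomial ℂ) (RatFunc ℂ) x' ≠ 0 := by
    simpa using hx
  have hy1 : algebraMap (Polynomial ℂ) (RatFunc ℂ) y' ≠ 0 := by
    simpa using hy
  have key : hm x x' y y' A B F =
      hm (x - Polynomial.C (p 0) * x') x' (y - Polynomial.C (p 1) * y') y' A B (tay p F) := by
    apply RatFunc.algebraMap_injective ℂ
    rw [hm_aeval hx hy hF, hm_aeval hx hy (tay_mem hF p)]
    congr 1
    have hc : ((aeval (![algebraMap _ _ (x - Polynomial.C (p 0) * x') / algebraMap _ _ x',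
        algebraMap _ _ (y - Polynomial.C (p 1) * y') / algebraMap _ _ y'] :
          Fin 2 → RatFunc ℂ)).comp (aeval (fun i => X i + C (p i)) : Pol →ₐ[ℂ] Pol)) =
        aeval (![algebraMap _ _ x / algebraMap _ _ x', algebraMap _ _ y / algebraMap _ _ y'] :
          Fin 2 → RatFunc ℂ) := by
      ext i
      fin_cases i
      · simp only [Fin.zero_eta, AlgHom.comp_apply, aeval_X, map_add, aeval_C, Matrix.cons_val_zero,
          map_sub, map_mul]
        rw [IsScalarTower.algebraMap_apply ℂ (Polynomial ℂ) (RatFunc ℂ),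
          Polynomial.algebraMap_apply, Algebra.algebraMap_self_apply]
        field_simp
        ring
      · simp only [Fin.mk_one, AlgHom.comp_apply, aeval_X, map_add, aeval_C, Matrix.cons_val_one,
          Matrix.cons_val_fin_one, map_sub, map_mul]
        rw [IsScalarTower.algebraMap_apply ℂ (Polynomial ℂ) (RatFunc ℂ),
          Polynomial.algebraMap_apply, Algebra.algebraMap_self_apply]
        field_simp
        ring
    exact (congrArg (fun φ => φ F) hc).symm
  rw [key, hm]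
  refine Finset.dvd_sum fun e he => Dvd.dvd.mul_left ?_ _
  have h3 : mlt p F ≤ e 0 + e 1 := by
    have hd : e.degree = e 0 + e 1 := by rw [Finsupp.degree_eq_sum, Fin.sum_univ_two]
    rw [← hd]
    by_contra h
    push Not at h
    exact (mem_support_iff.1 he) ((le_mlt_iff (p := p) hF0 (mlt p F)).1 le_rfl e h)
  refine (pow_dvd_pow _ h3).trans ?_
  have d0 : (Polynomial.X - Polynomial.C t) ∣ x - Polynomial.C (p 0) * x' := by
    rw [Polynomial.dvd_iff_isRoot, Polynomial.IsRoot.def]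
    simp [h0]
  have d1 : (Polynomial.X - Polynomial.C t) ∣ y - Polynomial.C (p 1) * y' := by
    rw [Polynomial.dvd_iff_isRoot, Polynomial.IsRoot.def]
    simp [h1]
  rw [pow_add]
  refine mul_dvd_mul ?_ ?_
  · exact Dvd.dvd.mul_right (pow_dvd_pow_of_dvd d0 _) _
  · exact Dvd.dvd.mul_right (pow_dvd_pow_of_dvd d1 _) _

private theorem hm_eval {x x' y y' : Polynomial ℂ} {A B : ℕ} {F : Pol} (hF : F ∈ Box A B)
    {t : ℂ} {p : Pt} (h0 : x.eval t = p 0 * x'.eval t) (h1 : y.eval t = p 1 * y'.eval t) :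
    (hm x x' y y' A B F).eval t = x'.eval t ^ A * y'.eval t ^ B * eval p F := by
  rw [hm, Polynomial.eval_finsetSum, eval_eq', Finset.mul_sum]
  refine Finset.sum_congr rfl fun e he => ?_
  have hb := mem_Box.1 hF
  have m0 := (monomial_le_degreeOf 0 he).trans hb.1
  have m1 := (monomial_le_degreeOf 1 he).trans hb.2
  rw [Fin.prod_univ_two]
  simp only [Polynomial.eval_mul, Polynomial.eval_C, Polynomial.eval_pow, h0, h1]
  obtain ⟨a, ha⟩ := Nat.exists_eq_add_of_le m0
  obtain ⟨b, hb'⟩ := Nat.exists_eq_add_of_le m1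
  rw [ha, hb', Nat.add_sub_cancel_left, Nat.add_sub_cancel_left]
  ring

/-- the coefficient of `t^{A+B}` when `x, x', y, y'` are linear with leading coefficients
`p 0 α, α, p 1 β, β` -/
private theorem hm_coeff {x x' y y' : Polynomial ℂ} {A B : ℕ} {F : Pol} (hF : F ∈ Box A B)
    (hx : x.natDegree ≤ 1) (hx' : x'.natDegree ≤ 1) (hy : y.natDegree ≤ 1) (hy' : y'.natDegree ≤ 1)
    {p : Pt} (h0 : x.coeff 1 = p 0 * x'.coeff 1) (h1 : y.coeff 1 = p 1 * y'.coeff 1) :
    (hm x x' y y' A B F).natDegree ≤ A + B ∧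
      (hm x x' y y' A B F).coeff (A + B) = x'.coeff 1 ^ A * y'.coeff 1 ^ B * eval p F := by
  have hb := mem_Box.1 hF
  have key : ∀ e ∈ F.support,
      (x ^ e 0 * x' ^ (A - e 0) * (y ^ e 1 * y' ^ (B - e 1))).natDegree ≤ A + B ∧
      (x ^ e 0 * x' ^ (A - e 0) * (y ^ e 1 * y' ^ (B - e 1))).coeff (A + B) =
        x'.coeff 1 ^ A * y'.coeff 1 ^ B * (p 0 ^ e 0 * p 1 ^ e 1) := by
    intro e he
    have m0 := (monomial_le_degreeOf 0 he).trans hb.1
    have m1 := (monomial_le_degreeOf 1 he).trans hb.2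
    obtain ⟨a, rfl⟩ := Nat.exists_eq_add_of_le m0
    obtain ⟨b, rfl⟩ := Nat.exists_eq_add_of_le m1
    rw [Nat.add_sub_cancel_left, Nat.add_sub_cancel_left]
    have n1 : ∀ (z : Polynomial ℂ) (n : ℕ), z.natDegree ≤ 1 → (z ^ n).natDegree ≤ n := by
      intro z n hz
      refine (Polynomial.natDegree_pow_le).trans ?_
      calc n * z.natDegree ≤ n * 1 := Nat.mul_le_mul_left n hz
        _ = n := mul_one n
    have c1 : ∀ (z : Polynomial ℂ) (n : ℕ), z.natDegree ≤ 1 → (z ^ n).coeff n = z.coeff 1 ^ n := by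
      intro z n hz
      have := Polynomial.coeff_pow_of_natDegree_le (m := n) hz
      rwa [mul_one] at this
    have u1 := n1 x (e 0) hx
    have u2 := n1 x' a hx'
    have u3 := n1 y (e 1) hy
    have u4 := n1 y' b hy'
    have v1 : (x ^ e 0 * x' ^ a).natDegree ≤ e 0 + a :=
      (Polynomial.natDegree_mul_le).trans (add_le_add u1 u2)
    have v2 : (y ^ e 1 * y' ^ b).natDegree ≤ e 1 + b :=
      (Polynomial.natDegree_mul_le).trans (add_le_add u3 u4)
    refine ⟨(Polynomial.natDegree_mul_le).trans (add_le_add v1 v2), ?_⟩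
    rw [Polynomial.coeff_mul_add_eq_of_natDegree_le v1 v2, Polynomial.coeff_mul_add_eq_of_natDegree_le u1 u2,
      Polynomial.coeff_mul_add_eq_of_natDegree_le u3 u4, c1 x _ hx, c1 x' _ hx', c1 y _ hy, c1 y' _ hy',
      h0, h1]
    ring
  constructor
  · rw [hm]
    refine Polynomial.natDegree_sum_le_of_forall_le _ _ fun e he => ?_
    exact (Polynomial.natDegree_C_mul_le _ _).trans (key e he).1
  · rw [hm, Polynomial.finsetSum_coeff, eval_eq', Finset.mul_sum]
    refine Finset.sum_congr rfl fun e he => ?_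
    rw [Polynomial.coeff_C_mul, (key e he).2, Fin.prod_univ_two]
    ring

/-! ### the period -/

private noncomputable def gx : Polynomial ℂ := 4 * Polynomial.X - 1
private noncomputable def gx' : Polynomial ℂ := 2 * Polynomial.X - 2
private noncomputable def gy : Polynomial ℂ := 2 * Polynomial.X - 1
private noncomputable def gy' : Polynomial ℂ := Polynomial.X - 2

private theorem gx_eq : gx = Polynomial.C 4 * Polynomial.X + Polynomial.C (-1) := by
  have : (4 : Polynomial ℂ) = Polynomial.C 4 := (map_ofNat Polynomial.C 4).symm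
  rw [gx, this]; simp [sub_eq_add_neg]
private theorem gx'_eq : gx' = Polynomial.C 2 * Polynomial.X + Polynomial.C (-2) := by
  have : (2 : Polynomial ℂ) = Polynomial.C 2 := (map_ofNat Polynomial.C 2).symm
  rw [gx', this]; simp [sub_eq_add_neg]
private theorem gy_eq : gy = Polynomial.C 2 * Polynomial.X + Polynomial.C (-1) := by
  have : (2 : Polynomial ℂ) = Polynomial.C 2 := (map_ofNat Polynomial.C 2).symm
  rw [gy, this]; simp [sub_eq_add_neg]
private theorem gy'_eq : gy' = Polynomial.C 1 * Polynomial.X + Polynomial.C (-2) := by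
  have : (2 : Polynomial ℂ) = Polynomial.C 2 := (map_ofNat Polynomial.C 2).symm
  rw [gy', this]; simp [sub_eq_add_neg]

private theorem lin_nd (a b : ℂ) : (Polynomial.C a * Polynomial.X + Polynomial.C b).natDegree ≤ 1 :=
  Polynomial.natDegree_linear_le
private theorem lin_c (a b : ℂ) : (Polynomial.C a * Polynomial.X + Polynomial.C b).coeff 1 = a := by
  simp [Polynomial.coeff_C]
private theorem lin_e (a b t : ℂ) :
    (Polynomial.C a * Polynomial.X + Polynomial.C b).eval t = a * t + b := by simp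
private theorem lin_ne (a b : ℂ) (ha : a ≠ 0) : Polynomial.C a * Polynomial.X + Polynomial.C b ≠ 0 := by
  intro h
  have := lin_c a b
  rw [h, Polynomial.coeff_zero] at this
  exact ha this.symm

theorem period_le {Z : Pol} {A B : ℕ} (h0 : Z ≠ 0) (hZ : Z ∈ Box A B) (hrel : IsRelPrime Z Q1) :
    ∑ j, mlt (P0 j) Z ≤ A + B := by
  classical
  have h1 := bezout h0 Q1_ne_zero hrel (Finset.univ.image P0)
  rw [Finset.sum_image (fun i _ j _ h => P0_injective h), degreeOf_Q1, degreeOf_Q1] at h1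
  have hb := mem_Box.1 hZ
  have h2 : ∑ j, mlt (P0 j) Z * mlt (P0 j) Q1 = ∑ j, mlt (P0 j) Z := by
    refine Finset.sum_congr rfl fun j _ => ?_
    rw [mlt_Q1.1 j, mul_one]
  omega

/-- the parametrised curve is not contained in `Z = 0` -/
private theorem hm_ne {Z : Pol} {A B : ℕ} (h0 : Z ≠ 0) (hZ : Z ∈ Box A B)
    (hrel : IsRelPrime Z Q1) : hm gx gx' gy gy' A B Z ≠ 0 := by
  classical
  intro hg
  set f : ℕ → Pt := fun n => ![(4 * ((n : ℂ) + 3) - 1) / (2 * ((n : ℂ) + 3) - 2),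
    (2 * ((n : ℂ) + 3) - 1) / (((n : ℂ) + 3) - 2)] with hf
  have n2 : ∀ n : ℕ, (n : ℂ) + 2 ≠ 0 := by
    intro n; have : (n : ℂ) + 2 = ((n + 2 : ℕ) : ℂ) := by push_cast; ring
    rw [this, Nat.cast_ne_zero]; omega
  have n1 : ∀ n : ℕ, (n : ℂ) + 1 ≠ 0 := by
    intro n; have : (n : ℂ) + 1 = ((n + 1 : ℕ) : ℂ) := by push_cast; ring
    rw [this, Nat.cast_ne_zero]; omega
  have f0 : ∀ n, f n 0 = (4 * (n : ℂ) + 11) / (2 * ((n : ℂ) + 2)) := by
    intro n
    show (4 * ((n : ℂ) + 3) - 1) / (2 * ((n : ℂ) + 3) - 2) = _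
    congr 1 <;> ring
  have f1 : ∀ n, f n 1 = (2 * (n : ℂ) + 5) / ((n : ℂ) + 1) := by
    intro n
    show (2 * ((n : ℂ) + 3) - 1) / (((n : ℂ) + 3) - 2) = _
    congr 1 <;> ring
  have finj : Function.Injective f := by
    intro m n h
    have h2 := congrFun h 0
    rw [f0, f0, div_eq_div_iff (mul_ne_zero two_ne_zero (n2 m)) (mul_ne_zero two_ne_zero (n2 n))] at h2
    have h3 : (m : ℂ) = n := by linear_combination (-1 / 6) * h2
    exact_mod_cast h3
  have hQ : ∀ n, 1 ≤ mlt (f n) Q1 := by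
    intro n
    rw [mlt_pos_iff Q1_ne_zero, eval_Q1, f0, f1]
    have := n1 n
    have := n2 n
    field_simp
    ring
  have hZ' : ∀ n, 1 ≤ mlt (f n) Z := by
    intro n
    rw [mlt_pos_iff h0]
    have e1 := n1 n
    have e2 := n2 n
    have := hm_eval (x := gx) (x' := gx') (y := gy) (y' := gy') hZ (t := (n : ℂ) + 3) (p := f n) ?_ ?_
    · rw [hg, Polynomial.eval_zero, gx'_eq, gy'_eq, lin_e, lin_e] at this
      have e3 : 2 * ((n : ℂ) + 3) + -2 ≠ 0 := by
        have : 2 * ((n : ℂ) + 3) + -2 = 2 * ((n : ℂ) + 2) := by ring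
        rw [this]; exact mul_ne_zero two_ne_zero e2
      have e4 : 1 * ((n : ℂ) + 3) + -2 ≠ 0 := by
        have : 1 * ((n : ℂ) + 3) + -2 = (n : ℂ) + 1 := by ring
        rw [this]; exact e1
      have e5 := mul_ne_zero (pow_ne_zero A e3) (pow_ne_zero B e4)
      rcases mul_eq_zero.1 this.symm with h | h
      · exact absurd h e5
      · exact h
    · rw [gx_eq, gx'_eq, lin_e, lin_e, f0]
      field_simp
      ring
    · rw [gy_eq, gy'_eq, lin_e, lin_e, f1]
      field_simp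
      ring
  have h1 := bezout h0 Q1_ne_zero hrel ((Finset.range (A + B + 1)).image f)
  rw [Finset.sum_image (fun i _ j _ h => finj h), degreeOf_Q1, degreeOf_Q1] at h1
  have hb := mem_Box.1 hZ
  have h2 : ∑ n ∈ Finset.range (A + B + 1), 1 ≤
      ∑ n ∈ Finset.range (A + B + 1), mlt (f n) Z * mlt (f n) Q1 := by
    refine Finset.sum_le_sum fun n _ => ?_
    exact Nat.mul_pos (hZ' n) (hQ n)
  rw [Finset.sum_const, Finset.card_range, smul_eq_mul, mul_one] at h2
  omega

theorem period {Z : Pol} {A B : ℕ} {s : ℂ} (hs : s = 1 ∨ s = -1) (h0 : Z ≠ 0)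
    (hZ : Z ∈ S A B s) (hrel : IsRelPrime Z Q1) :
    ∑ j, mlt (P0 j) Z ≤ A + B ∧ (∑ j, mlt (P0 j) Z = A + B → A = 0 ∧ B = 0) := by
  classical
  obtain ⟨hB, hrev⟩ := mem_S.1 hZ
  refine ⟨period_le h0 hB hrel, fun hsum => ?_⟩
  set g := hm gx gx' gy gy' A B Z with hg
  have hg0 : g ≠ 0 := hm_ne h0 hB hrel
  -- degree and leading coefficient
  obtain ⟨hdeg, hlead⟩ := hm_coeff (x := gx) (x' := gx') (y := gy) (y' := gy') hB
    (p := ![2, 2]) (by rw [gx_eq]; exact lin_nd _ _) (by rw [gx'_eq]; exact lin_nd _ _)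
    (by rw [gy_eq]; exact lin_nd _ _) (by rw [gy'_eq]; exact lin_nd _ _)
    (by rw [gx_eq, gx'_eq, lin_c, lin_c]; norm_num) (by rw [gy_eq, gy'_eq, lin_c, lin_c]; norm_num)
  rw [gx'_eq, gy'_eq, lin_c, lin_c, one_pow, mul_one, ← gx'_eq, ← gy'_eq, ← hg] at hlead
  rw [← hg] at hdeg
  -- value at 0
  have hval := hm_eval (x := gx) (x' := gx') (y := gy) (y' := gy') hB (t := 0)
    (p := ![1 / 2, 1 / 2]) (by rw [gx_eq, gx'_eq, lin_e, lin_e]; norm_num)
    (by rw [gy_eq, gy'_eq, lin_e, lin_e]; norm_num)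
  rw [gx'_eq, gy'_eq, lin_e, lin_e, ← gx'_eq, ← gy'_eq, ← hg] at hval
  -- semi-invariance
  have hsemi := eval_rev hB (p := ![2, 2]) ⟨by norm_num, by norm_num⟩
  have hinv : inv ![2, 2] = ![1 / 2, 1 / 2] := by
    unfold inv; norm_num
  rw [hrev, hinv, smul_eval] at hsemi
  -- divisibility
  have hdvd : ∏ j : Fin 5, (Polynomial.X - Polynomial.C (T0 j)) ^ mlt (P0 j) Z ∣ g := by
    refine Finset.prod_dvd_of_coprime ?_ ?_
    · intro i _ j _ hij
      refine IsCoprime.pow ?_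
      refine Polynomial.isCoprime_X_sub_C_of_isUnit_sub ?_
      rw [isUnit_iff_ne_zero]
      intro h
      apply hij
      unfold T0 at h
      have h2 : ((i : ℕ) : ℂ) = ((j : ℕ) : ℂ) := by linear_combination h
      exact Fin.ext (by exact_mod_cast h2)
    · intro j _
      refine hm_dvd (by rw [gx'_eq]; exact lin_ne _ _ (by norm_num))
        (by rw [gy'_eq]; exact lin_ne _ _ (by norm_num)) hB h0 ?_ ?_
      · have h1 := T_ne1' j
        have h3 : 2 * T0 j - 2 = 2 * (T0 j - 1) := by ring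
        rw [gx_eq, gx'_eq, lin_e, lin_e, P0_zero, h3]
        field_simp
        ring
      · have h1 := T_ne2 j
        rw [gy_eq, gy'_eq, lin_e, lin_e, P0_one]
        field_simp
        ring
  obtain ⟨k, hk⟩ := hdvd
  set h := ∏ j : Fin 5, (Polynomial.X - Polynomial.C (T0 j)) ^ mlt (P0 j) Z with hh
  have hmon : h.Monic := Polynomial.monic_prod_of_monic _ _ fun j _ =>
    (Polynomial.monic_X_sub_C _).pow _
  have hnd : h.natDegree = A + B := by
    rw [hh, Polynomial.natDegree_prod_of_monic _ _ fun j _ => (Polynomial.monic_X_sub_C _).pow _]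
    rw [← hsum]
    refine Finset.sum_congr rfl fun j _ => ?_
    rw [Polynomial.natDegree_pow, Polynomial.natDegree_X_sub_C, mul_one]
  have hk0 : k ≠ 0 := by rintro rfl; rw [mul_zero] at hk; exact hg0 hk
  have hkd : k.natDegree = 0 := by
    have := hmon.natDegree_mul' hk0
    rw [← hk, hnd] at this
    omega
  obtain ⟨κ, hκ⟩ := Polynomial.natDegree_eq_zero.1 hkd
  have hκ0 : κ ≠ 0 := by rintro rfl; rw [map_zero] at hκ; exact hk0 hκ.symm
  -- compare
  have c1 : g.coeff (A + B) = κ := by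
    rw [hk, ← hκ, Polynomial.coeff_mul_C, ← hnd, hmon.coeff_natDegree, one_mul]
  have c2 : g.eval 0 = (-1) ^ (A + B) * (∏ j : Fin 5, T0 j ^ mlt (P0 j) Z) * κ := by
    rw [hk, ← hκ, Polynomial.eval_mul, Polynomial.eval_C, hh, Polynomial.eval_prod, ← hsum,
      ← Finset.prod_pow_eq_pow_sum, ← Finset.prod_mul_distrib]
    congr 1
    refine Finset.prod_congr rfl fun j _ => ?_
    rw [Polynomial.eval_pow, Polynomial.eval_sub, Polynomial.eval_X, Polynomial.eval_C, ← mul_pow]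
    congr 1
    ring
  have hz : eval (![2, 2] : Pt) Z ≠ 0 := by
    intro h
    rw [h, mul_zero] at hlead
    exact hκ0 (c1.symm.trans hlead)
  have hfin : (2 : ℂ) ^ A * (∏ j : Fin 5, T0 j ^ mlt (P0 j) Z) = s := by
    have e0 : (![2, 2] : Pt) 0 = 2 := rfl
    have e1 : (![2, 2] : Pt) 1 = 2 := rfl
    rw [e0, e1] at hsemi
    rw [c1] at hlead
    rw [c2, hlead] at hval
    have h1 : (2 * 0 + -2 : ℂ) ^ A * (1 * 0 + -2) ^ B = (-1) ^ (A + B) * (2 ^ A * 2 ^ B) := by
      have e2 : (2 * 0 + -2 : ℂ) = -1 * 2 := by norm_num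
      have e3 : (1 * 0 + -2 : ℂ) = -1 * 2 := by norm_num
      rw [e2, e3, mul_pow, mul_pow, pow_add]
      ring
    rw [h1] at hval
    have h2 : ((-1 : ℂ)) ^ (A + B) ≠ 0 := pow_ne_zero _ (by norm_num)
    have h3 : (∏ j : Fin 5, T0 j ^ mlt (P0 j) Z) * (2 ^ A * eval (![2, 2] : Pt) Z) =
        2 ^ A * 2 ^ B * eval (![1 / 2, 1 / 2] : Pt) Z := by
      apply mul_left_cancel₀ h2
      linear_combination hval
    rw [← hsemi] at h3
    apply mul_right_cancel₀ hz
    linear_combination h3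
  have hnat : 2 ^ A * (∏ j : Fin 5, ((j : ℕ) + 3) ^ mlt (P0 j) Z) = 1 := by
    have h1 : (((2 ^ A * (∏ j : Fin 5, ((j : ℕ) + 3) ^ mlt (P0 j) Z)) ^ 2 : ℕ) : ℂ) = 1 := by
      have h2 : ((2 ^ A * (∏ j : Fin 5, ((j : ℕ) + 3) ^ mlt (P0 j) Z) : ℕ) : ℂ) = s := by
        rw [← hfin]
        push_cast
        rfl
      rw [Nat.cast_pow, h2]
      rcases hs with rfl | rfl <;> norm_num
    have h3 : (2 ^ A * (∏ j : Fin 5, ((j : ℕ) + 3) ^ mlt (P0 j) Z)) ^ 2 = 1 := by
      exact_mod_cast h1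
    simpa using h3
  have hA : A = 0 := by
    have := Nat.eq_one_of_mul_eq_one_right hnat
    by_contra h
    have h2 := Nat.one_lt_two_pow h
    omega
  have hprod : ∏ j : Fin 5, ((j : ℕ) + 3) ^ mlt (P0 j) Z = 1 := Nat.eq_one_of_mul_eq_one_left hnat
  have hm0 : ∀ j : Fin 5, mlt (P0 j) Z = 0 := by
    intro j
    have h1 : ((j : ℕ) + 3) ^ mlt (P0 j) Z ∣ 1 := by
      rw [← hprod]
      exact Finset.dvd_prod_of_mem (fun j : Fin 5 => ((j : ℕ) + 3) ^ mlt (P0 j) Z)
        (Finset.mem_univ j)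
    have h2 := Nat.dvd_one.1 h1
    by_contra h
    have h3 : 1 < ((j : ℕ) + 3) ^ mlt (P0 j) Z := Nat.one_lt_pow h (by omega)
    omega
  refine ⟨hA, ?_⟩
  rw [Finset.sum_eq_zero (fun j _ => hm0 j)] at hsum
  omega

end Pool.Agent.Lib.MP_ed661f_ag.R
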