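import Pool.Agent.Lib.MP_ed661f_ag.R.Adj
import Pool.Agent.Lib.MP_ed661f_ag.R.Per
import Pool.Agent.Lib.MP_ed661f_ag.R.Lor

/-!
T8: the round cone of nef classes at the special configuration.
-/

open MvPolynomial

namespace Pool.Agent.Lib.MP_ed661f_ag.R

open Pool.Agent.Lib.MP_ed661f_ag.E

/-- the nef inequality for one polynomial -/
def Ineq (a b : ℝ) (c : Fin 5 → ℝ) (r : Fin 4 → ℝ) (F : Pol) : Prop :=
  ∑ j, c j * (mlt (P0 j) F + mlt (P1 j) F) + ∑ i, r i * mlt (Y0 i) F ≤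
    a * F.degreeOf 1 + b * F.degreeOf 0

theorem ineq_mul {a b : ℝ} {c : Fin 5 → ℝ} {r : Fin 4 → ℝ} {F G : Pol} (hF : F ≠ 0) (hG : G ≠ 0)
    (h1 : Ineq a b c r F) (h2 : Ineq a b c r G) : Ineq a b c r (F * G) := by
  unfold Ineq at *
  have e1 : ∑ j, c j * (((mlt (P0 j) (F * G) : ℕ) : ℝ) + mlt (P1 j) (F * G)) =
      ∑ j, c j * ((mlt (P0 j) F : ℝ) + mlt (P1 j) F) +
      ∑ j, c j * ((mlt (P0 j) G : ℝ) + mlt (P1 j) G) := by
    rw [← Finset.sum_add_distrib]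
    refine Finset.sum_congr rfl fun j _ => ?_
    rw [mlt_mul hF hG, mlt_mul hF hG]
    push_cast
    ring
  have e2 : ∑ i, r i * ((mlt (Y0 i) (F * G) : ℕ) : ℝ) = ∑ i, r i * (mlt (Y0 i) F : ℝ) +
      ∑ i, r i * (mlt (Y0 i) G : ℝ) := by
    rw [← Finset.sum_add_distrib]
    refine Finset.sum_congr rfl fun j _ => ?_
    rw [mlt_mul hF hG]
    push_cast
    ring
  rw [e1, e2, degreeOf_mul_eq hF hG, degreeOf_mul_eq hF hG]
  push_cast
  linarith

theorem ineq_unit {a b : ℝ} {c : Fin 5 → ℝ} {r : Fin 4 → ℝ} {F : Pol} (hF : IsUnit F)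
    (ha : 0 ≤ a) (hb : 0 ≤ b) : Ineq a b c r F := by
  unfold Ineq
  have h1 : ∀ p, mlt p F = 0 := fun p => mlt_unit hF
  simp only [h1]
  have : 0 ≤ a * (F.degreeOf 1 : ℝ) + b * F.degreeOf 0 := by positivity
  simpa using this

theorem ineq_assoc {a b : ℝ} {c : Fin 5 → ℝ} {r : Fin 4 → ℝ} {F G : Pol} (hG : G ≠ 0)
    (h : Associated F G) (ha : 0 ≤ a) (hb : 0 ≤ b) (h2 : Ineq a b c r G) : Ineq a b c r F := by
  obtain ⟨u, hu⟩ := h.symm
  rw [← hu]
  exact ineq_mul hG u.ne_zero h2 (ineq_unit u.isUnit ha hb)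

theorem tor_P1 (j : Fin 5) : Tor (P1 j) := (tor_P0 j).inv

theorem ineq_X {a b : ℝ} {c : Fin 5 → ℝ} {r : Fin 4 → ℝ} (ha : 0 ≤ a) (hb : 0 ≤ b) (i : Fin 2) :
    Ineq a b c r (X i) := by
  have h0 : ∀ p : Pt, Tor p → mlt p (X i) = 0 := by
    intro p hp
    by_contra h
    have h1 := (mlt_pos_iff (p := p) (X_ne_zero i)).1 (by omega)
    rw [eval_X] at h1
    fin_cases i
    · exact hp.1 h1
    · exact hp.2 h1
  unfold Ineq
  simp only [h0 _ (tor_P0 _), h0 _ (tor_P1 _), h0 _ (tor_Y0 _)]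
  have : 0 ≤ a * ((X i : Pol).degreeOf 1 : ℝ) + b * (X i : Pol).degreeOf 0 := by positivity
  simpa using this

/-- the multiplicities of a semi-invariant -/
theorem mlt_semi {A B : ℕ} {s : ℂ} {Z : Pol} (hZ : Z ∈ S A B s) (h0 : Z ≠ 0) (hs : s ≠ 0) {p : Pt}
    (hp : Tor p) : mlt (inv p) Z = mlt p Z := by
  obtain ⟨h1, h2⟩ := mem_S.1 hZ
  have h3 := mlt_rev h1 h0 hp
  rw [h2, smul_eq_C_mul, mlt_mul (by simpa using hs) h0,
    mlt_unit ((isUnit_iff_ne_zero.2 hs).map C), zero_add] at h3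
  exact h3

theorem self_mem_Box (F : Pol) : F ∈ Box (F.degreeOf 0) (F.degreeOf 1) :=
  mem_Box.2 ⟨le_rfl, le_rfl⟩

/-- the inequality for irreducible invariant curves -/
theorem ineq_orb {a b : ℝ} {c : Fin 5 → ℝ} {r : Fin 4 → ℝ} (ha : 0 ≤ a) (hb : 0 ≤ b)
    (hab : a + b = ∑ j, c j) (hq : ∑ i, r i ^ 2 ≤ 2 * (a * b - ∑ j, c j ^ 2))
    {Z F : Pol} {s : ℤ} (hs : s = 1 ∨ s = -1) (hZF : Orb Z F)
    (hZ : Z ∈ S (Z.degreeOf 0) (Z.degreeOf 1) (s : ℂ)) (h0 : Z ≠ 0) (hrel : IsRelPrime Z Q1)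
    (hnc : ¬ (Z.degreeOf 0 = 0 ∧ Z.degreeOf 1 = 0)) :
    2 * ∑ j, c j * (mlt (P0 j) Z : ℝ) + ∑ i, r i * (mlt (Y0 i) Z : ℝ) ≤
      a * Z.degreeOf 1 + b * Z.degreeOf 0 := by
  classical
  have hadj := adj hs hZF hZ (Finset.univ.image P0) (by
    intro p hp
    obtain ⟨j, -, rfl⟩ := Finset.mem_image.1 hp
    exact tor_P0 j) (by
    intro p hp q hq
    obtain ⟨i, -, rfl⟩ := Finset.mem_image.1 hp
    obtain ⟨j, -, rfl⟩ := Finset.mem_image.1 hq
    exact inv_P0_ne i j)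
  rw [Finset.sum_image (fun i _ j _ h => P0_injective h),
    Finset.sum_image (fun i _ j _ h => P0_injective h)] at hadj
  have hs' : (s : ℂ) = 1 ∨ (s : ℂ) = -1 := by
    rcases hs with rfl | rfl <;> simp
  obtain ⟨hp1, hp2⟩ := period hs' h0 hZ hrel
  have hk : ∑ j, mlt (P0 j) Z + 1 ≤ Z.degreeOf 0 + Z.degreeOf 1 := by
    rcases Nat.lt_or_ge (∑ j, mlt (P0 j) Z) (Z.degreeOf 0 + Z.degreeOf 1) with h | h
    · omega
    · exact absurd (hp2 (le_antisymm hp1 h)) hnc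
  refine lorentz a b c r ha hb hab hq (Z.degreeOf 0) (Z.degreeOf 1) (fun j => mlt (P0 j) Z)
    (fun i => mlt (Y0 i) Z) (by positivity) (by positivity) ?_ ?_
  · have : ((∑ j, mlt (P0 j) Z : ℕ) : ℝ) + 1 ≤ Z.degreeOf 0 + Z.degreeOf 1 := by exact_mod_cast hk
    push_cast at this
    linarith
  · have : (((2 * ∑ j, (mlt (P0 j) Z : ℤ) ^ 2 + ∑ i, (mlt (Y0 i) Z : ℤ) ^ 2 +
        2 * ((Z.degreeOf 0 : ℤ) + Z.degreeOf 1) : ℤ)) : ℝ) ≤
        ((2 * (Z.degreeOf 0 : ℤ) * Z.degreeOf 1 + 2 * ∑ j, (mlt (P0 j) Z : ℤ) + 4 : ℤ) : ℝ) := by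
      exact_mod_cast hadj
    push_cast at this
    linarith

theorem rev_C_mul (A B : ℕ) (u : ℂ) (F : Pol) : rev A B (C u * F) = C u * rev A B F := by
  rw [← smul_eq_C_mul, map_smul, smul_eq_C_mul]

theorem not_const_of_irreducible {F : Pol} (hF : Irreducible F) :
    ¬ (F.degreeOf 0 = 0 ∧ F.degreeOf 1 = 0) := by
  rintro ⟨h0, h1⟩
  have h2 : F = C (coeff 0 F) := by
    ext e
    rw [coeff_C]
    by_cases he : e ∈ F.support
    · have e0 := monomial_le_degreeOf 0 he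
      have e1 := monomial_le_degreeOf 1 he
      have : e = 0 := by
        ext i
        fin_cases i
        · simpa using (by omega : e 0 = 0)
        · simpa using (by omega : e 1 = 0)
      rw [this, if_pos rfl]
    · rw [notMem_support_iff.1 he]
      split_ifs with h
      · rw [h]
        exact (notMem_support_iff.1 he).symm
      · rfl
  apply hF.not_isUnit
  rw [h2]
  apply IsUnit.map
  rw [isUnit_iff_ne_zero]
  intro h
  rw [h, C_0] at h2
  exact hF.ne_zero h2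

theorem ineq_irreducible {a b : ℝ} {c : Fin 5 → ℝ} {r : Fin 4 → ℝ} (ha : 0 ≤ a) (hb : 0 ≤ b)
    (hab : a + b = ∑ j, c j) (hq : ∑ i, r i ^ 2 ≤ 2 * (a * b - ∑ j, c j ^ 2))
    {F : Pol} (hF : Irreducible F) : Ineq a b c r F := by
  classical
  have hF0 := hF.ne_zero
  by_cases hX0 : Associated F (X 0)
  · exact ineq_assoc (X_ne_zero _) hX0 ha hb (ineq_X ha hb 0)
  by_cases hX1 : Associated F (X 1)
  · exact ineq_assoc (X_ne_zero _) hX1 ha hb (ineq_X ha hb 1)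
  have hnX := noX_of_irreducible hF hX0 hX1
  have hQ0 : Q1 ≠ 0 := irreducible_Q1.ne_zero
  have hQbox : Q1 ∈ Box 1 1 := mem_Box.2 ⟨(degreeOf_Q1 0).le, (degreeOf_Q1 1).le⟩
  have hQ2box : Q2 ∈ Box 1 1 := by
    rw [← rev_Q1]
    exact rev_mem _
  have hrQ2 : rev 1 1 Q2 = Q1 := by
    rw [← rev_Q1]
    exact rev_rev hQbox
  have hQ20 : Q2 ≠ 0 := by
    rw [← rev_Q1]
    exact rev_ne_zero hQbox hQ0
  obtain ⟨hm1, hm2, hm3⟩ := mlt_Q1
  -- the curves `Q1` and `Q2`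
  have hdQ2 : ∀ i, Q2.degreeOf i = 1 := by
    intro i
    have := degreeOf_rev noX_Q1 i
    rwa [degreeOf_Q1, degreeOf_Q1, rev_Q1, degreeOf_Q1] at this
  have hmQ2 : ∀ p, Tor p → mlt (inv p) Q2 = mlt p Q1 := by
    intro p hp
    rw [← rev_Q1]
    exact mlt_rev hQbox hQ0 hp
  have hIQ1 : Ineq a b c r Q1 := by
    unfold Ineq
    simp only [hm1, hm2, hm3, degreeOf_Q1]
    push_cast
    simp only [add_zero, mul_one, mul_zero, Finset.sum_const_zero]
    linarith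
  have hIQ2 : Ineq a b c r Q2 := by
    have g1 : ∀ j, mlt (P0 j) Q2 = 0 := by
      intro j
      have := hmQ2 (P1 j) (tor_P1 j)
      rwa [P1, inv_inv', ← P1, hm2] at this
    have g2 : ∀ j, mlt (P1 j) Q2 = 1 := by
      intro j
      have := hmQ2 (P0 j) (tor_P0 j)
      rwa [hm1] at this
    have g3 : ∀ i, mlt (Y0 i) Q2 = 0 := by
      intro i
      have := hmQ2 (Y0 i) (tor_Y0 i)
      rwa [inv_Y0, hm3] at this
    unfold Ineq
    simp only [g1, g2, g3, hdQ2]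
    push_cast
    simp only [zero_add, mul_one, mul_zero, Finset.sum_const_zero, add_zero]
    linarith
  by_cases hQ : Associated F Q1
  · exact ineq_assoc hQ0 hQ ha hb hIQ1
  by_cases hQ' : Associated F Q2
  · exact ineq_assoc hQ20 hQ' ha hb hIQ2
  -- the general case
  set e0 := F.degreeOf 0 with he0
  set e1 := F.degreeOf 1 with he1
  set F' := rev e0 e1 F with hF'
  have hbox : F ∈ Box e0 e1 := self_mem_Box F
  have hF'irr : Irreducible F' := irreducible_rev hnX hF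
  have hF'0 := hF'irr.ne_zero
  have hF'deg : ∀ i, F'.degreeOf i = F.degreeOf i := fun i => degreeOf_rev hnX i
  have hrr : rev e0 e1 F' = F := rev_rev hbox
  have hnotQ1 : ¬ Associated Q1 F := fun h => hQ h.symm
  have hnotQ1' : ¬ Associated Q1 F' := by
    rintro ⟨u, hu⟩
    -- the degrees of `F` are `(1,1)`
    have hd : ∀ i, F.degreeOf i = 1 := by
      intro i
      rw [← hF'deg i, ← hu, degreeOf_mul_eq hQ0 u.ne_zero, degreeOf_Q1]
      obtain ⟨v, hv, hv'⟩ := MvPolynomial.isUnit_iff_eq_C_of_isReduced.1 u.isUnit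
      rw [hv']
      simp
    obtain ⟨v, hv, hv'⟩ := MvPolynomial.isUnit_iff_eq_C_of_isReduced.1 u.isUnit
    apply hQ'
    have h1 : F = C v * Q2 := by
      rw [← hrr, ← hu, hv', he0, he1, hd, hd, mul_comm, rev_C_mul, rev_Q1]
    rw [h1]
    exact (associated_isUnit_mul_left_iff (hv.map C)).2 (Associated.refl _)
  have hd1 : ¬ Q1 ∣ F := fun h => hnotQ1 (irreducible_Q1.associated_of_dvd hF h)
  have hd2 : ¬ Q1 ∣ F' := fun h => hnotQ1' (irreducible_Q1.associated_of_dvd hF'irr h)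
  by_cases hFF : Associated F F'
  · -- `F` is semi-invariant
    obtain ⟨u, hu⟩ := hFF
    obtain ⟨v, hv, hv'⟩ := MvPolynomial.isUnit_iff_eq_C_of_isReduced.1 u.isUnit
    have h1 : rev e0 e1 F = C v * F := by
      rw [← hF', ← hu, hv', mul_comm]
    have h2 : C (v * v) * F = F := by
      conv_rhs => rw [← hrr, hF', h1, rev_C_mul, h1, ← mul_assoc, ← C_mul]
    have h3 : v * v = 1 := by
      have : C (v * v) * F = C 1 * F := by rw [h2, C_1, one_mul]
      exact C_injective _ _ (mul_right_cancel₀ hF0 this)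
    have h4 : v = 1 ∨ v = -1 := by
      have : (v - 1) * (v + 1) = 0 := by linear_combination h3
      rcases mul_eq_zero.1 this with h | h
      · left; linear_combination h
      · right; linear_combination h
    obtain ⟨s, hs, hsv⟩ : ∃ s : ℤ, (s = 1 ∨ s = -1) ∧ (s : ℂ) = v := by
      rcases h4 with h | h
      · exact ⟨1, Or.inl rfl, by rw [h]; simp⟩
      · exact ⟨-1, Or.inr rfl, by rw [h]; simp⟩
    have hmem : F ∈ S (F.degreeOf 0) (F.degreeOf 1) (s : ℂ) := by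
      rw [mem_S]
      refine ⟨hbox, ?_⟩
      rw [hsv, smul_eq_C_mul]
      exact h1
    have hs0 : (s : ℂ) ≠ 0 := by
      rcases hs with rfl | rfl <;> simp
    have h5 := ineq_orb ha hb hab hq hs (⟨hF, hnX, Or.inl rfl⟩ : Orb F F) hmem hF0
      ((hF.isRelPrime_iff_not_dvd).2 (fun h =>
        hnotQ1 ((hF.associated_of_dvd irreducible_Q1 h).symm)))
      (not_const_of_irreducible hF)
    unfold Ineq
    have h6 : ∀ j, mlt (P1 j) F = mlt (P0 j) F := fun j => mlt_semi hmem hF0 hs0 (tor_P0 j)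
    simp only [h6]
    have h7 : ∑ j, c j * ((mlt (P0 j) F : ℝ) + mlt (P0 j) F) = 2 * ∑ j, c j * (mlt (P0 j) F : ℝ) := by
      rw [Finset.mul_sum]
      refine Finset.sum_congr rfl fun j _ => ?_
      ring
    rw [h7]
    exact h5
  · -- `Z = F F'`
    set Z := F * F' with hZ
    have hZ0 : Z ≠ 0 := mul_ne_zero hF0 hF'0
    have hZd : ∀ i, Z.degreeOf i = F.degreeOf i + F.degreeOf i := by
      intro i
      rw [hZ, degreeOf_mul_eq hF0 hF'0, hF'deg]
    have hbox' : F' ∈ Box e0 e1 := rev_mem _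
    have hmem : Z ∈ S (Z.degreeOf 0) (Z.degreeOf 1) ((1 : ℤ) : ℂ) := by
      rw [mem_S]
      refine ⟨self_mem_Box Z, ?_⟩
      rw [hZd, hZd, hZ, ← he0, ← he1, rev_mul hbox hbox', hrr, ← hF', Int.cast_one, one_smul,
        mul_comm]
    have hrel : IsRelPrime Z Q1 := by
      rw [isRelPrime_comm, irreducible_Q1.isRelPrime_iff_not_dvd]
      intro h
      rcases irreducible_Q1.prime.dvd_or_dvd h with h | h
      · exact hd1 h
      · exact hd2 h
    have h5 := ineq_orb ha hb hab hq (Or.inl rfl) (⟨hF, hnX, Or.inr ⟨rfl, hFF⟩⟩ : Orb Z F) hmem hZ0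
      hrel (by
        rw [hZd, hZd]
        have := not_const_of_irreducible hF
        omega)
    have hm : ∀ p, Tor p → mlt p Z = mlt p F + mlt (inv p) F := by
      intro p hp
      rw [hZ, mlt_mul hF0 hF'0]
      congr 1
      have := mlt_rev hbox hF0 hp.inv
      rwa [inv_inv'] at this
    unfold Ineq
    rw [hZd, hZd] at h5
    have h6 : ∑ j, c j * ((mlt (P0 j) Z : ℕ) : ℝ) = ∑ j, c j * ((mlt (P0 j) F : ℝ) + mlt (P1 j) F) := by
      refine Finset.sum_congr rfl fun j _ => ?_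
      rw [hm _ (tor_P0 j)]
      push_cast
      rfl
    have h7 : ∑ i, r i * ((mlt (Y0 i) Z : ℕ) : ℝ) = 2 * ∑ i, r i * (mlt (Y0 i) F : ℝ) := by
      rw [Finset.mul_sum]
      refine Finset.sum_congr rfl fun i _ => ?_
      rw [hm _ (tor_Y0 i), inv_Y0]
      push_cast
      ring
    rw [h6, h7] at h5
    push_cast at h5
    linarith

theorem nef_special (a b : ℝ) (c : Fin 5 → ℝ) (r : Fin 4 → ℝ) (ha : 0 ≤ a) (hb : 0 ≤ b)
    (hab : a + b = ∑ j, c j) (hq : ∑ i, r i ^ 2 ≤ 2 * (a * b - ∑ j, c j ^ 2))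
    {F : Pol} (hF : F ≠ 0) :
    ∑ j, c j * (mlt (P0 j) F + mlt (P1 j) F) + ∑ i, r i * mlt (Y0 i) F ≤
      a * F.degreeOf 1 + b * F.degreeOf 0 := by
  have key : Ineq a b c r F := by
    induction F using UniqueFactorizationMonoid.induction_on_prime with
    | h₁ => exact absurd rfl hF
    | h₂ x hx => exact ineq_unit hx ha hb
    | h₃ x p hx hp ih =>
      exact ineq_mul hp.ne_zero hx (ineq_irreducible ha hb hab hq hp.irreducible) (ih hx)
  exact key

end Pool.Agent.Lib.MP_ed661f_ag.R
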