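import Pool.Agent.Lib.MP_ed661f_ag.R.Rev

/-!
T3: dimensions of the spaces of semi-invariants. (Exponents of `Box A B` in the order
`e 0 + (A+1) e 1` are numbered `0, .., (A+1)(B+1)-1` and `rexp` reverses this order: a
semi-invariant is determined by its first coefficients; `rev - 1` maps `Box` into `S (-1)` with
kernel `S 1`.)
-/

open MvPolynomial

namespace Pool.Agent.Lib.MP_ed661f_ag.R

open Pool.Agent.Lib.MP_ed661f_ag.E

/-- the trace of `s * rev` on `Box A B` -/
def tau (A B : ℕ) (s : ℤ) : ℤ := if Even A ∧ Even B then s else 0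

private theorem ext2' {e f : Fin 2 →₀ ℕ} (h0 : e 0 = f 0) (h1 : e 1 = f 1) : e = f := by
  ext i
  fin_cases i
  · exact h0
  · exact h1

/-- the exponents of `Box A B` -/
private noncomputable def bx (A B : ℕ) : Finset (Fin 2 →₀ ℕ) :=
  (Finset.range (A + 1) ×ˢ Finset.range (B + 1)).image
    (fun x => Finsupp.single 0 x.1 + Finsupp.single 1 x.2)

private theorem mem_bx {A B : ℕ} {e : Fin 2 →₀ ℕ} : e ∈ bx A B ↔ e 0 ≤ A ∧ e 1 ≤ B := by
  unfold bx
  simp only [Finset.mem_image, Finset.mem_product, Finset.mem_range]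
  constructor
  · rintro ⟨⟨a, b⟩, ⟨h1, h2⟩, rfl⟩
    simp
    omega
  · rintro ⟨h1, h2⟩
    exact ⟨(e 0, e 1), ⟨by omega, by omega⟩, ext2' (by simp) (by simp)⟩

private theorem card_bx (A B : ℕ) : (bx A B).card = (A + 1) * (B + 1) := by
  unfold bx
  rw [Finset.card_image_of_injective, Finset.card_product, Finset.card_range, Finset.card_range]
  rintro ⟨a, b⟩ ⟨c, d⟩ h
  have h0 := DFunLike.congr_fun h 0
  have h1 := DFunLike.congr_fun h 1
  simp at h0 h1
  rw [h0, h1]

private theorem Box_eq (A B : ℕ) :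
    Box A B = restrictSupport ℂ ((bx A B : Finset (Fin 2 →₀ ℕ)) : Set (Fin 2 →₀ ℕ)) := by
  unfold Box
  congr 1
  ext e
  simp [mem_bx]

instance finite_Box (A B : ℕ) : FiniteDimensional ℂ (Box A B) := by
  rw [Box_eq]
  exact Module.Finite.of_basis (basisRestrictSupport ℂ ((bx A B : Finset (Fin 2 →₀ ℕ)) : Set (Fin 2 →₀ ℕ)))

private theorem finrank_Box' (A B : ℕ) : Module.finrank ℂ (Box A B) = (A + 1) * (B + 1) := by
  rw [Box_eq, Module.finrank_eq_card_basis
    (basisRestrictSupport ℂ ((bx A B : Finset (Fin 2 →₀ ℕ)) : Set (Fin 2 →₀ ℕ)))]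
  simp [card_bx]

instance finite_S (A B : ℕ) (s : ℂ) : FiniteDimensional ℂ (S A B s) :=
  Submodule.finiteDimensional_of_le (inf_le_left : S A B s ≤ Box A B)

/-- the exponent with number `k` -/
private noncomputable def nex (A k : ℕ) : Fin 2 →₀ ℕ :=
  Finsupp.single 0 (k % (A + 1)) + Finsupp.single 1 (k / (A + 1))

private theorem nex_num (A : ℕ) {e : Fin 2 →₀ ℕ} (h : e 0 ≤ A) : nex A (e 0 + (A + 1) * e 1) = e := by
  unfold nex
  refine ext2' ?_ ?_
  · simp only [Finsupp.add_apply, Finsupp.single_apply]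
    simp
    omega
  · simp only [Finsupp.add_apply, Finsupp.single_apply]
    simp
    rw [Nat.add_mul_div_left _ _ (by omega), Nat.div_eq_of_lt (by omega), zero_add]

/-- a semi-invariant is determined by its first coefficients -/
private theorem finrank_S_le_aux (A B : ℕ) {s : ℤ} (hs : s = 1 ∨ s = -1) (K : ℕ)
    (hK : (A + 1) * (B + 1) ≤ 2 * K ∨ ((A + 1) * (B + 1) ≤ 2 * K + 1 ∧ s = -1)) :
    Module.finrank ℂ (S A B (s : ℂ)) ≤ K := by
  let Φ : S A B (s : ℂ) →ₗ[ℂ] (Fin K → ℂ) :=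
    (LinearMap.pi fun k : Fin K => lcoeff ℂ (nex A k)).comp (S A B (s : ℂ)).subtype
  have hΦ : ∀ (G : S A B (s : ℂ)) (k : Fin K), Φ G k = coeff (nex A k) (G : Pol) := fun _ _ => rfl
  have hinj : Function.Injective Φ := by
    rw [← LinearMap.ker_eq_bot, LinearMap.ker_eq_bot']
    rintro ⟨G, hG⟩ h
    obtain ⟨hB, hrev⟩ := mem_S.mp hG
    have h1 : ∀ e : Fin 2 →₀ ℕ, e 0 ≤ A → e 0 + (A + 1) * e 1 < K → coeff e G = 0 := by
      intro e he hk
      have h2 := congrFun h ⟨e 0 + (A + 1) * e 1, hk⟩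
      rw [hΦ] at h2
      simpa [nex_num A he] using h2
    have h3 : ∀ e : Fin 2 →₀ ℕ, e 0 ≤ A → e 1 ≤ B →
        coeff (rexp A B e) G = (s : ℂ) * coeff e G := by
      intro e h4 h5
      rw [← coeff_rev hB h4 h5, hrev, coeff_smul, smul_eq_mul]
    have hs0 : (s : ℂ) ≠ 0 := by
      rcases hs with rfl | rfl <;> norm_num
    apply Subtype.ext
    show G = 0
    ext e
    rw [coeff_zero]
    by_cases h4 : e 0 ≤ A ∧ e 1 ≤ B
    · obtain ⟨h4, h5⟩ := h4
      by_cases h6 : e 0 + (A + 1) * e 1 < K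
      · exact h1 e h4 h6
      · have h7 : (rexp A B e) 0 + (A + 1) * (rexp A B e) 1 + (e 0 + (A + 1) * e 1) + 1 =
            (A + 1) * (B + 1) := by
          rw [rexp_zero, rexp_one]
          obtain ⟨c, hc⟩ : ∃ c, A = e 0 + c := ⟨A - e 0, by omega⟩
          obtain ⟨d, hd⟩ : ∃ d, B = e 1 + d := ⟨B - e 1, by omega⟩
          rw [hd, hc, Nat.add_sub_cancel_left, Nat.add_sub_cancel_left]
          ring
        by_cases h8 : (rexp A B e) 0 + (A + 1) * (rexp A B e) 1 < K
        · have h9 := h1 (rexp A B e) (by rw [rexp_zero]; omega) h8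
          rw [h3 e h4 h5] at h9
          rcases mul_eq_zero.mp h9 with h10 | h10
          · exact absurd h10 hs0
          · exact h10
        · rcases hK with hK | ⟨hK, hs1⟩
          · omega
          · have h10 : (rexp A B e) 0 + (A + 1) * (rexp A B e) 1 = e 0 + (A + 1) * e 1 := by omega
            have h11 : rexp A B e = e := by
              have h13 := nex_num A (e := rexp A B e) (by rw [rexp_zero]; omega)
              rw [h10, nex_num A h4] at h13
              exact h13.symm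
            have h12 := h3 e h4 h5
            rw [h11, hs1] at h12
            push_cast at h12
            linear_combination h12 / 2
    · by_contra h5
      exact h4 (mem_Box_support.mp hB e (mem_support_iff.mpr h5))
  calc Module.finrank ℂ (S A B (s : ℂ)) ≤ Module.finrank ℂ (Fin K → ℂ) :=
        LinearMap.finrank_le_finrank_of_injective hinj
    _ = K := by simp

private theorem even_box (A B : ℕ) : Even ((A + 1) * (B + 1)) ↔ ¬ (Even A ∧ Even B) := by
  rw [Nat.even_mul, Nat.even_add_one, Nat.even_add_one]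
  tauto

theorem finrank_S_le (A B : ℕ) {s : ℤ} (hs : s = 1 ∨ s = -1) :
    2 * (Module.finrank ℂ (S A B (s : ℂ)) : ℤ) ≤ (A + 1) * (B + 1) + tau A B s := by
  have hM : ((A : ℤ) + 1) * (B + 1) = (((A + 1) * (B + 1) : ℕ) : ℤ) := by push_cast; ring
  unfold tau
  rw [hM]
  by_cases h : Even A ∧ Even B
  · rw [if_pos h]
    have h1 : ¬ Even ((A + 1) * (B + 1)) := by
      rw [even_box]
      tauto
    rw [Nat.not_even_iff_odd] at h1
    obtain ⟨m, hm⟩ := h1
    rcases hs with rfl | rfl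
    · have := finrank_S_le_aux A B (s := 1) (Or.inl rfl) (m + 1) (Or.inl (by omega))
      omega
    · have := finrank_S_le_aux A B (s := -1) (Or.inr rfl) m (Or.inr ⟨by omega, rfl⟩)
      omega
  · rw [if_neg h]
    obtain ⟨m, hm⟩ := (even_box A B).mpr h
    have := finrank_S_le_aux A B hs m (Or.inl (by omega))
    omega

private theorem Box_le_sup (A B : ℕ) : Box A B ≤ S A B ((1 : ℤ) : ℂ) ⊔ S A B ((-1 : ℤ) : ℂ) := by
  intro G hG
  rw [Submodule.mem_sup]
  refine ⟨(1 / 2 : ℂ) • (G + rev A B G), mem_S.mpr ⟨?_, ?_⟩, (1 / 2 : ℂ) • (G - rev A B G),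
    mem_S.mpr ⟨?_, ?_⟩, ?_⟩
  · exact Submodule.smul_mem _ _ (Submodule.add_mem _ hG (rev_mem G))
  · rw [map_smul, map_add, rev_rev hG]
    push_cast
    rw [one_smul, add_comm]
  · exact Submodule.smul_mem _ _ (Submodule.sub_mem _ hG (rev_mem G))
  · rw [map_smul, map_sub, rev_rev hG]
    push_cast
    rw [neg_smul, one_smul, ← smul_neg, neg_sub]
  · rw [← smul_add, add_add_sub_cancel, ← two_smul ℂ G, smul_smul]
    norm_num

theorem finrank_S_ge (A B : ℕ) {s : ℤ} (hs : s = 1 ∨ s = -1) :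
    ((A : ℤ) + 1) * (B + 1) + tau A B s ≤ 2 * (Module.finrank ℂ (S A B (s : ℂ)) : ℤ) := by
  have h1 : Module.finrank ℂ (Box A B) ≤ Module.finrank ℂ (S A B ((1 : ℤ) : ℂ)) +
      Module.finrank ℂ (S A B ((-1 : ℤ) : ℂ)) :=
    (Submodule.finrank_mono (Box_le_sup A B)).trans (Submodule.finrank_add_le_finrank_add_finrank _ _)
  rw [finrank_Box'] at h1
  have h2 := finrank_S_le A B (s := 1) (Or.inl rfl)
  have h3 := finrank_S_le A B (s := -1) (Or.inr rfl)
  have h4 : tau A B (-1) = - tau A B 1 := by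
    unfold tau
    split_ifs <;> simp
  zify at h1
  rcases hs with rfl | rfl
  · linarith
  · linarith

end Pool.Agent.Lib.MP_ed661f_ag.R
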