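import Pool.Agent.Lib.MP_ed661f_ag.R.Rev
import Pool.Agent.Lib.MP_ed661f_ag.R.Sym

/-!
Conditions at the points: `fix_conditions`, `pt_conditions`, `sum_fix`.
-/

set_option autoImplicit false

open MvPolynomial

namespace Pool.Agent.Lib.MP_ed661f_ag.R

open Pool.Agent.Lib.MP_ed661f_ag.E

/-- exponents `(a, l - a)` with `l < n` and `q l` -/
private def cdSet (n : ℕ) (q : ℕ → Prop) [DecidablePred q] : Finset (ℕ × ℕ) :=
  ((Finset.range n).filter q).biUnion fun l => Finset.HasAntidiagonal.antidiagonal l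

private theorem mem_cdSet {n : ℕ} {q : ℕ → Prop} [DecidablePred q] {x : ℕ × ℕ} :
    x ∈ cdSet n q ↔ x.1 + x.2 < n ∧ q (x.1 + x.2) := by
  unfold cdSet
  simp only [Finset.mem_biUnion, Finset.mem_filter, Finset.mem_range, Finset.HasAntidiagonal.mem_antidiagonal]
  constructor
  · rintro ⟨l, ⟨h1, h2⟩, h3⟩
    rw [h3]
    exact ⟨h1, h2⟩
  · rintro ⟨h1, h2⟩
    exact ⟨_, ⟨h1, h2⟩, rfl⟩

private theorem card_cdSet (n : ℕ) (q : ℕ → Prop) [DecidablePred q] :
    (cdSet n q).card = ∑ l ∈ (Finset.range n).filter q, (l + 1) := by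
  unfold cdSet
  rw [Finset.card_biUnion]
  · simp [Finset.Nat.card_antidiagonal]
  · intro i _ j _ hij
    rw [Function.onFun, Finset.disjoint_left]
    intro x hx1 hx2
    rw [Finset.HasAntidiagonal.mem_antidiagonal] at hx1 hx2
    exact hij (by omega)

/-- the linear map given by the Taylor coefficients with exponents in `T` -/
private theorem exists_cd (T : Finset (ℕ × ℕ)) {N : ℕ} (hT : T.card = N) (p : Pt) :
    ∃ φ : Pol →ₗ[ℂ] (Fin N → ℂ), ∀ G, φ G = 0 → ∀ e : Fin 2 →₀ ℕ, (e 0, e 1) ∈ T →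
      coeff e (tay p G) = 0 := by
  let σ : Fin N ≃ T := (Finset.equivFinOfCardEq hT).symm
  let φ : Pol →ₗ[ℂ] (Fin N → ℂ) :=
    { toFun := fun G j => coeff (Finsupp.single 0 (σ j).1.1 + Finsupp.single 1 (σ j).1.2) (tay p G)
      map_add' := fun G H => by
        funext j
        simp [tay]
      map_smul' := fun c G => by
        funext j
        simp [tay] }
  refine ⟨φ, fun G hG e he => ?_⟩
  have h1 := congrFun hG (σ.symm ⟨_, he⟩)
  have h2 : φ G (σ.symm ⟨_, he⟩) = coeff (Finsupp.single 0 (e 0) + Finsupp.single 1 (e 1))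
      (tay p G) := by
    change coeff (Finsupp.single 0 (σ (σ.symm ⟨_, he⟩)).1.1 +
      Finsupp.single 1 (σ (σ.symm ⟨_, he⟩)).1.2) (tay p G) = _
    rw [Equiv.apply_symm_apply]
  have h3 : Finsupp.single 0 (e 0) + Finsupp.single 1 (e 1) = e := by
    ext i
    fin_cases i <;> simp
  rw [h2, h3] at h1
  exact h1

private theorem sum_parity (ν : ℕ) :
    ∑ l ∈ (Finset.range ν).filter (fun l => l % 2 = ν % 2), (l + 1) = ν ^ 2 / 4 := by
  induction ν using Nat.strong_induction_on with
  | _ ν ih =>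
    match ν with
    | 0 => simp
    | 1 => simp
    | ν + 2 =>
      have h1 := ih ν (by omega)
      have h2 : (Finset.range (ν + 2)).filter (fun l => l % 2 = (ν + 2) % 2) =
          insert ν ((Finset.range ν).filter (fun l => l % 2 = ν % 2)) := by
        ext l
        simp only [Finset.mem_filter, Finset.mem_range, Finset.mem_insert]
        constructor
        · rintro ⟨h3, h4⟩
          by_cases h5 : l = ν
          · exact Or.inl h5
          · exact Or.inr ⟨by omega, by omega⟩
        · rintro (rfl | ⟨h3, h4⟩)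
          · exact ⟨by omega, by omega⟩
          · exact ⟨by omega, by omega⟩
      rw [h2, Finset.sum_insert (by simp), h1]
      have h3 : (ν + 2) ^ 2 = ν ^ 2 + 4 * (ν + 1) := by ring
      rw [h3, Nat.add_mul_div_left _ _ (by norm_num)]
      ring

/-- `⌊ν²/4⌋` conditions at a fixed point: a linear map with `⌊ν²/4⌋` coordinates whose kernel on
the semi-invariants consists of polynomials vanishing to order `ν` (`ν` of the right parity) -/
theorem fix_conditions {A B ν : ℕ} {s : ℂ} (i : Fin 4)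
    (hν : s * (Y0 i 0 ^ A * Y0 i 1 ^ B) = (-1) ^ ν) :
    ∃ φ : Pol →ₗ[ℂ] (Fin (ν ^ 2 / 4) → ℂ), ∀ G ∈ S A B s, φ G = 0 → Bz.Ord ν (tay (Y0 i) G) := by
  obtain ⟨φ, hφ⟩ := exists_cd (cdSet ν fun l => l % 2 = ν % 2)
    ((card_cdSet _ _).trans (sum_parity ν)) (Y0 i)
  refine ⟨φ, fun G hG h0 => ?_⟩
  have key : ∀ l, l ≤ ν → Bz.Ord l (tay (Y0 i) G) := by
    intro l
    induction l with
    | zero => intro _; exact Bz.ord_zero _
    | succ l ih =>
      intro hl
      have h1 := ih (by omega)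
      by_cases hp : l % 2 = ν % 2
      · intro e he
        rcases Nat.lt_succ_iff_lt_or_eq.1 he with h2 | h2
        · exact h1 e h2
        · refine hφ G h0 e (mem_cdSet.2 ?_)
          have h3 : e 0 + e 1 = l := by rw [← h2, Bz.degree_two']
          exact ⟨by simp only; omega, by simp only; rw [h3]; exact hp⟩
      · refine parity hG i h1 ?_
        rw [hν]
        intro h2
        rcases Nat.even_or_odd l with hl2 | hl2 <;> rcases Nat.even_or_odd ν with hν2 | hν2
        · exact hp (by rw [Nat.even_iff.1 hl2, Nat.even_iff.1 hν2])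
        · rw [hl2.neg_one_pow, hν2.neg_one_pow] at h2
          norm_num at h2
        · rw [hl2.neg_one_pow, hν2.neg_one_pow] at h2
          norm_num at h2
        · exact hp (by rw [Nat.odd_iff.1 hl2, Nat.odd_iff.1 hν2])
  exact key ν le_rfl

private theorem sum_all (m : ℕ) :
    ∑ l ∈ (Finset.range (m - 1)).filter (fun _ => True), (l + 1) = m * (m - 1) / 2 := by
  rw [Finset.filter_true]
  rcases m with _ | m
  · simp
  · rw [Nat.add_sub_cancel, Finset.sum_add_distrib, Finset.sum_range_id]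
    simp only [Finset.sum_const, Finset.card_range, smul_eq_mul, mul_one]
    have h1 : (m + 1) * m = m * (m - 1) + 2 * m := by
      rcases m with _ | m
      · simp
      · simp only [Nat.add_sub_cancel]; ring
    rw [h1, Nat.add_mul_div_left _ _ (by norm_num)]

/-- `m (m-1) / 2` conditions at an ordinary point -/
theorem pt_conditions (m : ℕ) (p : Pt) :
    ∃ φ : Pol →ₗ[ℂ] (Fin (m * (m - 1) / 2) → ℂ), ∀ G, φ G = 0 → Bz.Ord (m - 1) (tay p G) := by
  obtain ⟨φ, hφ⟩ := exists_cd (cdSet (m - 1) fun _ => True)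
    ((card_cdSet _ _).trans (sum_all m)) p
  refine ⟨φ, fun G h0 e he => hφ G h0 e (mem_cdSet.2 ⟨?_, trivial⟩)⟩
  rw [Bz.degree_two'] at he
  exact he

/-- number of fixed points of odd multiplicity -/
theorem sum_fix {A B : ℕ} {s : ℤ} (hs : s = 1 ∨ s = -1) (ν : Fin 4 → ℕ)
    (hν : ∀ i, (s : ℂ) * (Y0 i 0 ^ A * Y0 i 1 ^ B) = (-1) ^ ν i) :
    4 * ∑ i, ((ν i ^ 2 / 4 : ℕ) : ℤ) = ∑ i, (ν i : ℤ) ^ 2 - 2 + 2 * tau A B s := by
  have hq : ∀ m : ℕ, 4 * ((m ^ 2 / 4 : ℕ) : ℤ) = (m : ℤ) ^ 2 - if Even m then 0 else 1 := by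
    intro m
    rcases Nat.even_or_odd' m with ⟨k, rfl | rfl⟩
    · rw [if_pos (even_two_mul k)]
      have : (2 * k) ^ 2 / 4 = k ^ 2 := by
        rw [show (2 * k) ^ 2 = 4 * k ^ 2 by ring]
        exact Nat.mul_div_cancel_left _ (by norm_num)
      rw [this]
      push_cast
      ring
    · rw [if_neg (by rw [Nat.not_even_iff_odd]; exact odd_two_mul_add_one k)]
      have : (2 * k + 1) ^ 2 / 4 = k ^ 2 + k := by
        rw [show (2 * k + 1) ^ 2 = 1 + 4 * (k ^ 2 + k) by ring, Nat.add_mul_div_left _ _ (by norm_num)]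
        simp
      rw [this]
      push_cast
      ring
  have hcast : ∀ i, (s : ℂ) * (Y0 i 0 ^ A * Y0 i 1 ^ B) = if Even (ν i) then 1 else -1 := by
    intro i
    rw [hν i]
    split_ifs with h
    · exact h.neg_one_pow
    · exact (Nat.not_even_iff_odd.1 h).neg_one_pow
  have h0 := hcast 0
  have h1 := hcast 1
  have h2 := hcast 2
  have h3 := hcast 3
  simp only [Y0, Matrix.cons_val_zero, Matrix.cons_val_one, Matrix.cons_val, one_pow, mul_one,
    one_mul] at h0 h1 h2 h3
  rw [Finset.mul_sum]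
  simp only [Fin.sum_univ_four, hq]
  unfold tau
  rcases Nat.even_or_odd A with hA | hA <;> rcases Nat.even_or_odd B with hB | hB <;>
    rcases hs with rfl | rfl <;>
    simp only [hA.neg_one_pow, hB.neg_one_pow, Int.cast_one, Int.cast_neg, one_mul, mul_one,
      mul_neg, neg_neg, neg_mul] at h0 h1 h2 h3 <;>
    by_cases e0 : Even (ν 0) <;> by_cases e1 : Even (ν 1) <;> by_cases e2 : Even (ν 2) <;>
    by_cases e3 : Even (ν 3) <;>
    simp only [e0, e1, e2, e3, if_true, if_false] at h0 h1 h2 h3 ⊢ <;>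
    first
    | (exfalso; norm_num at h0; done)
    | (exfalso; norm_num at h1; done)
    | (exfalso; norm_num at h2; done)
    | (exfalso; norm_num at h3; done)
    | (simp [Nat.not_even_iff_odd.2, *]; ring)
    | (simp [Nat.not_even_iff_odd.2, *]; done)

end Pool.Agent.Lib.MP_ed661f_ag.R
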