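import Pool.Agent.Lib.MP_ed661f_ag.R.Defs

/-!
T4: many points on a curve, in the torus and in different orbits of the involution.
(`E.GenusOf` has a private proof that the zero set is infinite.)
-/

open MvPolynomial

namespace Pool.Agent.Lib.MP_ed661f_ag.R

open Pool.Agent.Lib.MP_ed661f_ag.E

private theorem pts_inv_inv (p : Pt) : inv (inv p) = p := by
  unfold inv
  funext i
  fin_cases i <;> simp

/-- an irreducible polynomial that contains the variable `i` does not divide `X j - C c` -/
private theorem pts_not_dvd {F : Pol} {i j : Fin 2} (hij : i ≠ j) (hi : 1 ≤ F.degreeOf i)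
    (c : ℂ) : ¬ F ∣ X j - C c := by
  rintro ⟨q, hq⟩
  have h0 : (X j - C c : Pol) ≠ 0 := by
    intro h
    have := congrArg (eval (fun _ => c + 1)) h
    simp at this
  have hF0 : F ≠ 0 := by
    rintro rfl
    rw [zero_mul] at hq
    exact h0 hq
  have hq0 : q ≠ 0 := by
    rintro rfl
    rw [mul_zero] at hq
    exact h0 hq
  have hdeg := degreeOf_mul_eq (n := i) hF0 hq0
  rw [← hq] at hdeg
  have h1 : (X j - C c : Pol).degreeOf i ≤ 0 := by
    refine (degreeOf_sub_le _ _ _).trans ?_
    simp [degreeOf_X, hij]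
  omega

/-- an irreducible polynomial contains a variable -/
private theorem pts_exists_var {F : Pol} (hF : Irreducible F) :
    ∃ i j : Fin 2, i ≠ j ∧ 1 ≤ F.degreeOf i := by
  by_contra hcon
  push Not at hcon
  have h0 := hcon 0 1 (by decide)
  have h1 := hcon 1 0 (by decide)
  have h2 : F = C (coeff 0 F) := by
    ext e
    rw [coeff_C]
    split_ifs with h
    · rw [← h]
    · by_contra hc
      apply h
      have hm : e ∈ F.support := mem_support_iff.mpr hc
      have a0 := monomial_le_degreeOf 0 hm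
      have a1 := monomial_le_degreeOf 1 hm
      ext i
      fin_cases i
      · simp
        omega
      · simp
        omega
  apply hF.not_isUnit
  rw [h2]
  refine IsUnit.map C (isUnit_iff_ne_zero.mpr fun h => ?_)
  rw [h, C_0] at h2
  exact hF.ne_zero h2

/-- an irreducible curve has infinitely many points in the torus -/
private theorem pts_infinite {F : Pol} (hF : Irreducible F) (hX : NoX F) :
    {p : Pt | eval p F = 0 ∧ Tor p}.Infinite := by
  intro hfin
  obtain ⟨i, j, hij, hi⟩ := pts_exists_var hF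
  have hrad : (X 0 * X 1 * ∏ t ∈ hfin.toFinset, (X j - C (t j)) : Pol) ∈
      (Ideal.span {F}).radical := by
    rw [← vanishingIdeal_zeroLocus_eq_radical (K := ℂ), mem_vanishingIdeal_iff]
    intro x hx
    rw [zeroLocus_span] at hx
    have hx' : eval x F = 0 := by
      have := hx F rfl
      rwa [← coe_aeval_eq_eval]
    rw [map_mul, map_mul, map_prod]
    by_cases h0 : x 0 = 0
    · simp [h0]
    by_cases h1 : x 1 = 0
    · simp [h1]
    apply mul_eq_zero_of_right
    apply Finset.prod_eq_zero (i := x)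
    · rw [Set.Finite.mem_toFinset]; exact ⟨hx', h0, h1⟩
    · simp
  obtain ⟨n, hn⟩ := hrad
  rw [Ideal.mem_span_singleton] at hn
  have hp : Prime F := hF.prime
  have h1 := hp.dvd_of_dvd_pow hn
  rcases hp.dvd_or_dvd h1 with h2 | h2
  · rcases hp.dvd_or_dvd h2 with h3 | h3
    · exact hX.1 ((hF.associated_of_dvd X_prime.irreducible h3).symm.dvd)
    · exact hX.2 ((hF.associated_of_dvd X_prime.irreducible h3).symm.dvd)
  · obtain ⟨t, -, ht⟩ := hp.exists_mem_finset_dvd h2
    exact pts_not_dvd hij hi _ ht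

/-- points of the torus fixed by the involution -/
private theorem pts_fixed {q : Pt} (hq : Tor q) (h : inv q = q) :
    q ∈ Finset.univ.image Y0 := by
  have h0 : (q 0)⁻¹ = q 0 := congrFun h 0
  have h1 : (q 1)⁻¹ = q 1 := congrFun h 1
  have a0 : q 0 = 1 ∨ q 0 = -1 := by
    rw [← mul_self_eq_one_iff]
    nth_rewrite 1 [← h0]
    exact inv_mul_cancel₀ hq.1
  have a1 : q 1 = 1 ∨ q 1 = -1 := by
    rw [← mul_self_eq_one_iff]
    nth_rewrite 1 [← h1]
    exact inv_mul_cancel₀ hq.2
  have hq2 : q = ![q 0, q 1] := by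
    funext i
    fin_cases i <;> rfl
  rw [hq2]
  rcases a0 with a0 | a0 <;> rcases a1 with a1 | a1 <;> rw [a0, a1]
  · exact Finset.mem_image.mpr ⟨0, Finset.mem_univ _, rfl⟩
  · exact Finset.mem_image.mpr ⟨1, Finset.mem_univ _, rfl⟩
  · exact Finset.mem_image.mpr ⟨2, Finset.mem_univ _, rfl⟩
  · exact Finset.mem_image.mpr ⟨3, Finset.mem_univ _, rfl⟩

theorem exists_points {F : Pol} (hF : Irreducible F) (hX : NoX F) (R : Finset Pt) (N : ℕ) :
    ∃ Q : Finset Pt, Q.card = N ∧ (∀ q ∈ Q, eval q F = 0 ∧ Tor q ∧ q ∉ R ∧ inv q ∉ R) ∧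
      ∀ q ∈ Q, ∀ q' ∈ Q, inv q ≠ q' := by
  classical
  induction N with
  | zero => exact ⟨∅, by simp, by simp, by simp⟩
  | succ N ih =>
    obtain ⟨Q, hQc, hQ1, hQ2⟩ := ih
    set B : Finset Pt := R ∪ R.image inv ∪ Q ∪ Q.image inv ∪ Finset.univ.image Y0 with hB
    obtain ⟨q, ⟨hqF, hqT⟩, hqB⟩ := ((pts_infinite hF hX).sdiff B.finite_toSet).nonempty
    rw [Finset.mem_coe, hB] at hqB
    simp only [Finset.mem_union, not_or] at hqB
    obtain ⟨⟨⟨⟨b1, b2⟩, b3⟩, b4⟩, b5⟩ := hqB
    have hfix : inv q ≠ q := fun h => b5 (pts_fixed hqT h)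
    refine ⟨insert q Q, by rw [Finset.card_insert_of_notMem b3, hQc], ?_, ?_⟩
    · intro x hx
      rcases Finset.mem_insert.mp hx with rfl | hx
      · refine ⟨hqF, hqT, b1, fun h => b2 ?_⟩
        exact Finset.mem_image.mpr ⟨_, h, pts_inv_inv _⟩
      · exact hQ1 x hx
    · intro x hx y hy h
      rcases Finset.mem_insert.mp hx with hx' | hx'
      · rcases Finset.mem_insert.mp hy with hy' | hy'
        · rw [hx', hy'] at h
          exact hfix h
        · apply b4
          refine Finset.mem_image.mpr ⟨y, hy', ?_⟩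
          rw [← h, pts_inv_inv, hx']
      · rcases Finset.mem_insert.mp hy with hy' | hy'
        · rw [hy'] at h
          exact b4 (Finset.mem_image.mpr ⟨x, hx', h⟩)
        · exact hQ2 x hx' y hy' h

end Pool.Agent.Lib.MP_ed661f_ag.R
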