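import Pool.Agent.Lib.MP_ed661f_ag.R.Bez
import Pool.Agent.Lib.MP_ed661f_ag.R.Rev
import Pool.Agent.Lib.MP_ed661f_ag.R.Sym
import Pool.Agent.Lib.MP_ed661f_ag.R.Pts
import Pool.Agent.Lib.MP_ed661f_ag.R.Cond

/-!
T5: the adjunction inequality on the quotient.
-/

open MvPolynomial

namespace Pool.Agent.Lib.MP_ed661f_ag.R

open Pool.Agent.Lib.MP_ed661f_ag.E

/-- `Z` is an irreducible invariant curve: `Z = F` or `Z = F * F^i` -/
def Orb (Z F : Pol) : Prop := Irreducible F ∧ NoX F ∧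
  (Z = F ∨ (Z = F * rev (F.degreeOf 0) (F.degreeOf 1) F ∧
    ¬ Associated F (rev (F.degreeOf 0) (F.degreeOf 1) F)))

private theorem adj_self_mem (F : Pol) : F ∈ Box (F.degreeOf 0) (F.degreeOf 1) :=
  mem_Box.mpr ⟨le_rfl, le_rfl⟩

/-- divisibility is preserved by the involution -/
private theorem adj_rev_dvd {F G : Pol} {A B : ℕ} (hG : G ∈ Box A B) (hG0 : G ≠ 0) (h : F ∣ G) :
    rev (F.degreeOf 0) (F.degreeOf 1) F ∣ rev A B G := by
  obtain ⟨H, rfl⟩ := h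
  have hF0 : F ≠ 0 := left_ne_zero_of_mul hG0
  have hH0 : H ≠ 0 := right_ne_zero_of_mul hG0
  have h0 := degreeOf_mul_eq (n := (0 : Fin 2)) hF0 hH0
  have h1 := degreeOf_mul_eq (n := (1 : Fin 2)) hF0 hH0
  obtain ⟨h2, h3⟩ := mem_Box.mp hG
  have hH : H ∈ Box (A - F.degreeOf 0) (B - F.degreeOf 1) :=
    mem_Box.mpr ⟨by omega, by omega⟩
  have h4 := rev_mul (adj_self_mem F) hH
  have hA : F.degreeOf 0 + (A - F.degreeOf 0) = A := by omega
  have hB : F.degreeOf 1 + (B - F.degreeOf 1) = B := by omega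
  rw [hA, hB] at h4
  rw [h4]
  exact Dvd.intro _ rfl

private theorem adj_dvd_smul {F G : Pol} {t : ℂ} (ht : t ≠ 0) (h : F ∣ t • G) : F ∣ G := by
  obtain ⟨H, hH⟩ := h
  refine ⟨t⁻¹ • H, ?_⟩
  rw [mul_smul_comm, ← hH, smul_smul, inv_mul_cancel₀ ht, one_smul]

/-- a semi-invariant with a common factor with `Z` is divisible by `Z` -/
theorem dvd_of_common {Z F G : Pol} {s t : ℂ} {A B : ℕ} (hZF : Orb Z F) (ht : t ≠ 0)
    (hZ : Z ∈ S (Z.degreeOf 0) (Z.degreeOf 1) s) (hs : s ≠ 0) (hG : G ∈ S A B t)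
    (h : ¬ IsRelPrime Z G) : Z ∣ G := by
  obtain ⟨hF, hX, h1⟩ := hZF
  obtain ⟨hGB, hGt⟩ := mem_S.mp hG
  rcases eq_or_ne G 0 with hG0 | hG0
  · rw [hG0]
    exact dvd_zero _
  rcases h1 with h1 | ⟨h1, h2⟩
  · rw [h1] at h ⊢
    by_contra h3
    exact h (hF.isRelPrime_iff_not_dvd.mpr h3)
  · have hR : Irreducible (rev (F.degreeOf 0) (F.degreeOf 1) F) := irreducible_rev hX hF
    have hFR : F ∣ G → rev (F.degreeOf 0) (F.degreeOf 1) F ∣ G := by
      intro h3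
      have h4 := adj_rev_dvd hGB hG0 h3
      rw [hGt] at h4
      exact adj_dvd_smul ht h4
    have hRF : rev (F.degreeOf 0) (F.degreeOf 1) F ∣ G → F ∣ G := by
      intro h3
      have h4 := adj_rev_dvd hGB hG0 h3
      rw [hGt, degreeOf_rev hX, degreeOf_rev hX, rev_rev (adj_self_mem F)] at h4
      exact adj_dvd_smul ht h4
    have hrel : IsRelPrime F (rev (F.degreeOf 0) (F.degreeOf 1) F) := by
      rw [hF.isRelPrime_iff_not_dvd]
      intro h3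
      exact h2 (hF.associated_of_dvd hR h3)
    have hor : F ∣ G ∨ rev (F.degreeOf 0) (F.degreeOf 1) F ∣ G := by
      by_contra h3
      push Not at h3
      apply h
      rw [h1]
      exact IsRelPrime.mul_left (hF.isRelPrime_iff_not_dvd.mpr h3.1)
        (hR.isRelPrime_iff_not_dvd.mpr h3.2)
    rw [h1]
    rcases hor with h3 | h3
    · exact hrel.mul_dvd h3 (hFR h3)
    · exact hrel.mul_dvd (hRF h3) h3

/-- the quotient of semi-invariants -/
theorem quot_mem {Z H : Pol} {s : ℂ} {A B : ℕ} (hs : s ≠ 0) (hZ0 : Z ≠ 0)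
    (hZ : Z ∈ S (Z.degreeOf 0) (Z.degreeOf 1) s)
    (hG : Z * H ∈ S (Z.degreeOf 0 + A) (Z.degreeOf 1 + B) s) : H ∈ S A B 1 := by
  rcases eq_or_ne H 0 with hH0 | hH0
  · rw [hH0]
    exact zero_mem _
  obtain ⟨hB, hr⟩ := mem_S.mp hG
  obtain ⟨hZB, hZr⟩ := mem_S.mp hZ
  have h0 := degreeOf_mul_eq (n := (0 : Fin 2)) hZ0 hH0
  have h1 := degreeOf_mul_eq (n := (1 : Fin 2)) hZ0 hH0
  obtain ⟨h2, h3⟩ := mem_Box.mp hB
  have hH : H ∈ Box A B := mem_Box.mpr ⟨by omega, by omega⟩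
  refine mem_S.mpr ⟨hH, ?_⟩
  rw [rev_mul hZB hH, hZr, smul_mul_assoc] at hr
  rw [one_smul]
  have h4 : Z * rev A B H = Z * H := by
    have h5 := congrArg (fun x => s⁻¹ • x) hr
    simpa [smul_smul, inv_mul_cancel₀ hs] using h5
  exact mul_left_cancel₀ hZ0 h4

/-- linear algebra: a solution outside a small subspace -/
private theorem adj_exists_kernel {U : Type*} [AddCommGroup U] [Module ℂ U]
    [FiniteDimensional ℂ U] (W M : Submodule ℂ Pol) [FiniteDimensional ℂ W]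
    [FiniteDimensional ℂ M] (φ : Pol →ₗ[ℂ] U)
    (h : Module.finrank ℂ M + Module.finrank ℂ U < Module.finrank ℂ W) :
    ∃ G ∈ W, φ G = 0 ∧ G ∉ M := by
  by_contra hcon
  push Not at hcon
  set κ : Submodule ℂ W := LinearMap.ker (φ.comp W.subtype) with hκ
  have hk : ∀ x : κ, (W.subtype.comp κ.subtype) x ∈ M := by
    intro x
    exact hcon _ x.1.2 (LinearMap.mem_ker.mp x.2)
  have h1 : Module.finrank ℂ κ ≤ Module.finrank ℂ M := by
    refine LinearMap.finrank_le_finrank_of_injective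
      (f := LinearMap.codRestrict M (W.subtype.comp κ.subtype) hk) ?_
    intro x y hxy
    have h2 := congrArg Subtype.val hxy
    exact Subtype.ext (Subtype.ext h2)
  have h2 := LinearMap.finrank_range_add_finrank_ker (φ.comp W.subtype)
  have h3 := Submodule.finrank_le (LinearMap.range (φ.comp W.subtype))
  rw [← hκ] at h2
  omega

private theorem adj_mlt_inv {F : Pol} {A B : ℕ} {s : ℂ} (hs : s ≠ 0) (hF : F ∈ S A B s)
    (h0 : F ≠ 0) {p : Pt} (hp : Tor p) : mlt (inv p) F = mlt p F := by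
  obtain ⟨hB, hr⟩ := mem_S.mp hF
  have h1 := mlt_rev hB h0 hp
  have hC : (C s : Pol) ≠ 0 := by
    rw [Ne, C_eq_zero]
    exact hs
  rw [hr, smul_eq_C_mul, mlt_mul hC h0, mlt_unit ((isUnit_iff_ne_zero.mpr hs).map C),
    zero_add] at h1
  exact h1

private theorem adj_Y0_injective : Function.Injective Y0 := by
  intro i j h
  have h0 := congrFun h 0
  have h1 := congrFun h 1
  have hn : (1 : ℂ) ≠ -1 := by norm_num
  have hn' : (-1 : ℂ) ≠ 1 := by norm_num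
  fin_cases i <;> fin_cases j <;> simp_all [Y0]

/-- the intersection numbers -/
private theorem adj_bezout {Z F G : Pol} {A B : ℕ} {s : ℂ} (hs : s ≠ 0) (hZF : Orb Z F)
    (hZ0 : Z ≠ 0) (hZ : Z ∈ S (Z.degreeOf 0) (Z.degreeOf 1) s)
    (P : Finset Pt) (hP : ∀ p ∈ P, Tor p) (hPP : ∀ p ∈ P, ∀ q ∈ P, inv p ≠ q)
    (Q : Finset Pt)
    (hQ : ∀ q ∈ Q, eval q F = 0 ∧ Tor q ∧ q ∉ P ∪ P.image inv ∪ Finset.univ.image Y0 ∧
      inv q ∉ P ∪ P.image inv ∪ Finset.univ.image Y0)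
    (hQQ : ∀ q ∈ Q, ∀ q' ∈ Q, inv q ≠ q')
    (hG : G ∈ S A B s) (hG0 : G ≠ 0) (hrel : IsRelPrime Z G)
    (hGP : ∀ p ∈ P, mlt p Z - 1 ≤ mlt p G) (hGY : ∀ i, mlt (Y0 i) Z ≤ mlt (Y0 i) G)
    (hGQ : ∀ q ∈ Q, eval q G = 0) :
    2 * ∑ p ∈ P, mlt p Z * (mlt p Z - 1) + ∑ i, mlt (Y0 i) Z * mlt (Y0 i) Z + 2 * Q.card ≤
      Z.degreeOf 0 * B + A * Z.degreeOf 1 := by
  classical
  have hinj : Function.Injective inv := fun x y h => by
    rw [← inv_inv' x, h, inv_inv']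
  have hGB := mem_Box.mp (mem_S.mp hG).1
  have D1 : Disjoint P (P.image inv) := by
    rw [Finset.disjoint_left]
    intro x hx hx'
    obtain ⟨p, hp, rfl⟩ := Finset.mem_image.mp hx'
    exact hPP p hp _ hx rfl
  have D2 : Disjoint (P ∪ P.image inv) (Finset.univ.image Y0) := by
    rw [Finset.disjoint_left]
    intro x hx hx'
    obtain ⟨i, -, rfl⟩ := Finset.mem_image.mp hx'
    rcases Finset.mem_union.mp hx with h | h
    · exact hPP _ h _ h (inv_Y0 i)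
    · obtain ⟨p, hp, h2⟩ := Finset.mem_image.mp h
      have h3 : p = Y0 i := by
        rw [← inv_inv' p, h2, inv_Y0]
      rw [h3] at hp
      exact hPP _ hp _ hp (inv_Y0 i)
  have D3 : Disjoint (P ∪ P.image inv ∪ Finset.univ.image Y0) Q := by
    rw [Finset.disjoint_right]
    intro x hx hx'
    exact (hQ x hx).2.2.1 hx'
  have D4 : Disjoint (P ∪ P.image inv ∪ Finset.univ.image Y0 ∪ Q) (Q.image inv) := by
    rw [Finset.disjoint_left]
    intro x hx hx'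
    obtain ⟨q, hq, rfl⟩ := Finset.mem_image.mp hx'
    rcases Finset.mem_union.mp hx with h | h
    · exact (hQ q hq).2.2.2 h
    · exact hQQ q hq _ h rfl
  have hb := bezout hZ0 hG0 hrel (P ∪ P.image inv ∪ Finset.univ.image Y0 ∪ Q ∪ Q.image inv)
  rw [Finset.sum_union D4, Finset.sum_union D3, Finset.sum_union D2, Finset.sum_union D1,
    Finset.sum_image (fun x _ y _ h => hinj h), Finset.sum_image (fun x _ y _ h => hinj h),
    Finset.sum_image (fun x _ y _ h => adj_Y0_injective h)] at hb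
  have e1 : ∑ p ∈ P, mlt p Z * (mlt p Z - 1) ≤ ∑ p ∈ P, mlt p Z * mlt p G :=
    Finset.sum_le_sum fun p hp => Nat.mul_le_mul_left _ (hGP p hp)
  have e2 : ∑ p ∈ P, mlt p Z * (mlt p Z - 1) ≤ ∑ p ∈ P, mlt (inv p) Z * mlt (inv p) G := by
    refine Finset.sum_le_sum fun p hp => ?_
    rw [adj_mlt_inv hs hZ hZ0 (hP p hp), adj_mlt_inv hs hG hG0 (hP p hp)]
    exact Nat.mul_le_mul_left _ (hGP p hp)
  have e3 : ∑ i, mlt (Y0 i) Z * mlt (Y0 i) Z ≤ ∑ i, mlt (Y0 i) Z * mlt (Y0 i) G :=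
    Finset.sum_le_sum fun i _ => Nat.mul_le_mul_left _ (hGY i)
  have hFZ : F ∣ Z := by
    rcases hZF.2.2 with h | ⟨h, -⟩
    · rw [h]
    · rw [h]
      exact Dvd.intro _ rfl
  have hq1 : ∀ q ∈ Q, 1 ≤ mlt q Z := by
    intro q hq
    rw [mlt_pos_iff hZ0]
    obtain ⟨H, hH⟩ := hFZ
    rw [hH, map_mul, (hQ q hq).1, zero_mul]
  have hq2 : ∀ q ∈ Q, 1 ≤ mlt q G := fun q hq => (mlt_pos_iff hG0).mpr (hGQ q hq)
  have e4 : Q.card ≤ ∑ q ∈ Q, mlt q Z * mlt q G := by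
    rw [Finset.card_eq_sum_ones]
    exact Finset.sum_le_sum fun q hq => Nat.mul_pos (hq1 q hq) (hq2 q hq)
  have e5 : Q.card ≤ ∑ q ∈ Q, mlt (inv q) Z * mlt (inv q) G := by
    rw [Finset.card_eq_sum_ones]
    refine Finset.sum_le_sum fun q hq => ?_
    rw [adj_mlt_inv hs hZ hZ0 (hQ q hq).2.1, adj_mlt_inv hs hG hG0 (hQ q hq).2.1]
    exact Nat.mul_pos (hq1 q hq) (hq2 q hq)
  have e6 : Z.degreeOf 0 * G.degreeOf 1 ≤ Z.degreeOf 0 * B := Nat.mul_le_mul_left _ hGB.2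
  have e7 : G.degreeOf 0 * Z.degreeOf 1 ≤ A * Z.degreeOf 1 := Nat.mul_le_mul_right _ hGB.1
  omega

/-- ADJUNCTION on the quotient -/
theorem adj {Z F : Pol} {s : ℤ} (hs : s = 1 ∨ s = -1) (hZF : Orb Z F)
    (hZ : Z ∈ S (Z.degreeOf 0) (Z.degreeOf 1) (s : ℂ))
    (P : Finset Pt) (hP : ∀ p ∈ P, Tor p) (hPP : ∀ p ∈ P, ∀ q ∈ P, inv p ≠ q) :
    2 * ∑ p ∈ P, (mlt p Z : ℤ) ^ 2 + ∑ i, (mlt (Y0 i) Z : ℤ) ^ 2 +
        2 * ((Z.degreeOf 0 : ℤ) + Z.degreeOf 1) ≤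
      2 * (Z.degreeOf 0 : ℤ) * Z.degreeOf 1 + 2 * ∑ p ∈ P, (mlt p Z : ℤ) + 4 := by
  classical
  have hs0 : (s : ℂ) ≠ 0 := by
    rcases hs with rfl | rfl <;> norm_num
  have hF0 : F ≠ 0 := hZF.1.ne_zero
  have hR0 : rev (F.degreeOf 0) (F.degreeOf 1) F ≠ 0 := rev_ne_zero (adj_self_mem F) hF0
  have hZ0 : Z ≠ 0 := by
    rcases hZF.2.2 with h | ⟨h, -⟩
    · rw [h]
      exact hF0
    · rw [h]
      exact mul_ne_zero hF0 hR0
  have hFZ : F ∣ Z := by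
    rcases hZF.2.2 with h | ⟨h, -⟩
    · rw [h]
    · rw [h]
      exact Dvd.intro _ rfl
  have hdeg : 1 ≤ Z.degreeOf 0 + Z.degreeOf 1 := by
    by_contra hlt
    have h0 : Z.degreeOf 0 = 0 := by omega
    have h1 : Z.degreeOf 1 = 0 := by omega
    obtain ⟨H, hH⟩ := hFZ
    have hH0 : H ≠ 0 := by
      rintro rfl
      rw [mul_zero] at hH
      exact hZ0 hH
    have h2 := degreeOf_mul_eq (n := (0 : Fin 2)) hF0 hH0
    have h3 := degreeOf_mul_eq (n := (1 : Fin 2)) hF0 hH0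
    rw [← hH] at h2 h3
    have h4 : F = C (coeff 0 F) := by
      ext e
      rw [coeff_C]
      split_ifs with h5
      · rw [← h5]
      · by_contra h6
        have h7 : e ∈ F.support := mem_support_iff.mpr h6
        have h8 : e 0 ≤ F.degreeOf 0 := monomial_le_degreeOf 0 h7
        have h9 : e 1 ≤ F.degreeOf 1 := monomial_le_degreeOf 1 h7
        apply h5
        ext i
        fin_cases i
        · show 0 = e 0
          omega
        · show 0 = e 1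
          omega
    apply hZF.1.not_isUnit
    rw [h4]
    refine (isUnit_iff_ne_zero.mpr ?_).map C
    intro h5
    rw [h5, C_0] at h4
    exact hF0 h4
  set a := Z.degreeOf 0 with ha
  set b := Z.degreeOf 1 with hb
  set c1 : ℕ := ∑ p ∈ P, mlt p Z * (mlt p Z - 1) / 2 with hc1
  set c2 : ℕ := ∑ i, mlt (Y0 i) Z ^ 2 / 4 with hc2
  set N : ℕ := c1 + c2 + 2 with hN
  have hpar : ∀ i, (s : ℂ) * (Y0 i 0 ^ (a + 2 * N) * Y0 i 1 ^ (b + 2 * N)) =
      (-1) ^ mlt (Y0 i) Z := by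
    intro i
    rw [← parity_mlt hZ hZ0 i, pow_add, pow_add, pow_mul (Y0 i 0), pow_mul (Y0 i 1), Y0_sq, Y0_sq,
      one_pow, mul_one, mul_one]
  have hfix := sum_fix hs (fun i => mlt (Y0 i) Z) hpar
  have hWge := finrank_S_ge (a + 2 * N) (b + 2 * N) hs
  have hMle := finrank_S_le (2 * N) (2 * N) (s := 1) (Or.inl rfl)
  have htau : tau (2 * N) (2 * N) 1 = 1 := by
    unfold tau
    rw [if_pos ⟨even_two_mul N, even_two_mul N⟩]
  rw [htau] at hMle
  set W := S (a + 2 * N) (b + 2 * N) (s : ℂ) with hW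
  set M : Submodule ℂ Pol := (S (2 * N) (2 * N) ((1 : ℤ) : ℂ)).map (LinearMap.mulLeft ℂ Z) with hM
  have hMfin : Module.finrank ℂ M ≤ Module.finrank ℂ (S (2 * N) (2 * N) ((1 : ℤ) : ℂ)) :=
    Submodule.finrank_map_le _ _
  set w : ℕ := Module.finrank ℂ W with hw
  set m : ℕ := Module.finrank ℂ (S (2 * N) (2 * N) ((1 : ℤ) : ℂ)) with hm
  -- the numerical facts
  have hτ : -1 ≤ tau (a + 2 * N) (b + 2 * N) s ∧ tau (a + 2 * N) (b + 2 * N) s ≤ 1 := by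
    unfold tau
    split_ifs
    · rcases hs with rfl | rfl <;> norm_num
    · norm_num
  have hprod : ((a + 2 * N : ℕ) + 1 : ℤ) * ((b + 2 * N : ℕ) + 1) =
      a * b + (2 * N + 1) * (a + b) + (2 * N + 1) * (2 * N + 1) := by
    push_cast
    ring
  have hab : (1 : ℤ) ≤ a + b := by exact_mod_cast hdeg
  have hab0 : (0 : ℤ) ≤ (a : ℤ) * b := by positivity
  have hbig : (2 * (N : ℤ) + 1) ≤ (2 * N + 1) * (a + b) := by
    have : (0 : ℤ) ≤ (2 * N + 1) * ((a + b) - 1) := mul_nonneg (by positivity) (by linarith)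
    linarith
  rw [hprod] at hWge
  push_cast at hMle
  have hlt : m + (c1 + (c2 + (w - m - c1 - c2 - 1))) < w := by
    have h1 : 2 * (m : ℤ) + 2 * c1 + 2 * c2 + 3 ≤ 2 * w := by
      have h2 : (N : ℤ) = c1 + c2 + 2 := by
        rw [hN]
        push_cast
        ring
      nlinarith [hWge, hMle, hτ.1, hab0, hbig, h2]
    omega
  have hTdef : (((w - m - c1 - c2 - 1 : ℕ)) : ℤ) = w - m - c1 - c2 - 1 := by
    have : m + c1 + c2 + 1 ≤ w := by omega
    omega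
  obtain ⟨Q, hQc, hQ1, hQ2⟩ := exists_points hZF.1 hZF.2.1
    (P ∪ P.image inv ∪ Finset.univ.image Y0) (w - m - c1 - c2 - 1)
  choose φ hφ using fun p : Pt => pt_conditions (mlt p Z) p
  choose ψ hψ using fun i : Fin 4 => fix_conditions (A := a + 2 * N) (B := b + 2 * N)
    (s := (s : ℂ)) i (hpar i)
  let Φ := (LinearMap.pi fun p : P => φ p.1).prod ((LinearMap.pi fun i : Fin 4 => ψ i).prod
    (LinearMap.pi fun q : Q => (aeval (R := ℂ) (S₁ := ℂ) q.1).toLinearMap))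
  have hU : Module.finrank ℂ ((∀ p : P, Fin (mlt p.1 Z * (mlt p.1 Z - 1) / 2) → ℂ) ×
      (∀ i : Fin 4, Fin (mlt (Y0 i) Z ^ 2 / 4) → ℂ) × (∀ _ : Q, ℂ)) =
      c1 + (c2 + (w - m - c1 - c2 - 1)) := by
    rw [Module.finrank_prod, Module.finrank_prod, Module.finrank_pi_fintype,
      Module.finrank_pi_fintype, Module.finrank_pi_fintype]
    simp only [Module.finrank_fin_fun, Module.finrank_self, Finset.sum_const, Finset.card_univ,
      Fintype.card_coe, hQc, smul_eq_mul, mul_one]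
    rw [Finset.sum_coe_sort P (fun p => mlt p Z * (mlt p Z - 1) / 2)]
  obtain ⟨G, hGW, hGΦ, hGM⟩ := adj_exists_kernel W M Φ (by
    rw [hU]
    omega)
  have hG0 : G ≠ 0 := by
    rintro rfl
    exact hGM (zero_mem _)
  have hΦ1 := congrArg Prod.fst hGΦ
  have hΦ2 := congrArg Prod.fst (congrArg Prod.snd hGΦ)
  have hΦ3 := congrArg Prod.snd (congrArg Prod.snd hGΦ)
  have hnd : ¬ Z ∣ G := by
    rintro ⟨H, hH⟩
    apply hGM
    rw [hM, Submodule.mem_map]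
    have h1 : H ∈ S (2 * N) (2 * N) 1 := by
      refine quot_mem hs0 hZ0 hZ ?_
      rw [← hH]
      exact hGW
    refine ⟨H, by simpa using h1, ?_⟩
    rw [LinearMap.mulLeft_apply, hH]
  have hrel : IsRelPrime Z G := by
    by_contra h
    exact hnd (dvd_of_common hZF hs0 hZ hs0 hGW h)
  have hfinal := adj_bezout hs0 hZF hZ0 hZ P hP hPP Q hQ1 hQ2 hGW hG0 hrel
    (fun p hp => (le_mlt_iff hG0 _).mpr (hφ p G (congrFun hΦ1 ⟨p, hp⟩)))
    (fun i => (le_mlt_iff hG0 _).mpr (hψ i G hGW (congrFun hΦ2 i)))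
    (fun q hq => by
      have h1 := congrFun hΦ3 ⟨q, hq⟩
      rw [← coe_aeval_eq_eval]
      exact h1)
  rw [hQc] at hfinal
  have hS1 : ((∑ p ∈ P, mlt p Z * (mlt p Z - 1) : ℕ) : ℤ) =
      ∑ p ∈ P, (mlt p Z : ℤ) ^ 2 - ∑ p ∈ P, (mlt p Z : ℤ) := by
    rw [← Finset.sum_sub_distrib]
    push_cast
    refine Finset.sum_congr rfl fun p _ => ?_
    rcases Nat.eq_zero_or_pos (mlt p Z) with h | h
    · simp [h]
    · rw [Nat.cast_sub (by omega)]
      push_cast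
      ring
  have hc1' : 2 * c1 = ∑ p ∈ P, mlt p Z * (mlt p Z - 1) := by
    rw [hc1, Finset.mul_sum]
    refine Finset.sum_congr rfl fun p _ => ?_
    exact Nat.mul_div_cancel' (Nat.even_mul_pred_self _).two_dvd
  have hS2 : ((∑ i, mlt (Y0 i) Z * mlt (Y0 i) Z : ℕ) : ℤ) = ∑ i, (mlt (Y0 i) Z : ℤ) ^ 2 := by
    push_cast
    exact Finset.sum_congr rfl fun i _ => by ring
  have hc2' : 4 * (c2 : ℤ) = ∑ i, (mlt (Y0 i) Z : ℤ) ^ 2 - 2 + 2 * tau (a + 2 * N) (b + 2 * N) s := by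
    rw [hc2]
    push_cast at hfix ⊢
    exact hfix
  have hfinal' : 2 * (∑ p ∈ P, (mlt p Z : ℤ) ^ 2 - ∑ p ∈ P, (mlt p Z : ℤ)) +
      ∑ i, (mlt (Y0 i) Z : ℤ) ^ 2 + 2 * ((w : ℤ) - m - c1 - c2 - 1) ≤
      a * (b + 2 * N) + (a + 2 * N) * b := by
    rw [← hS1, ← hS2, ← hTdef]
    exact_mod_cast hfinal
  have hc1'' : 2 * (c1 : ℤ) = ∑ p ∈ P, (mlt p Z : ℤ) ^ 2 - ∑ p ∈ P, (mlt p Z : ℤ) := by
    rw [← hS1]
    exact_mod_cast hc1'
  nlinarith [hfinal', hc1'', hc2', hWge, hMle]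

end Pool.Agent.Lib.MP_ed661f_ag.R
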