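import Pool.Agent.Lib.MP_ed661f_ag.R.Trans

/-!
Definitions for the statement: the surface `X` = blow-up of `ℙ¹ × ℙ¹` at ten points `x j`, `x' j`
of the chart `ℂ²`, the line bundle `L = O(a,b) - ∑ c_j (E_j + E'_j)`, its degree on the strict
transform of the closure of an affine curve `F = 0`, and the Seshadri constant of `L` at points
`y i` of the chart.
-/

open MvPolynomial

namespace Pool.Agent.Lib.MP_ed661f_ag.R

open Pool.Agent.Lib.MP_ed661f_ag.E

/-- `L · C` for the strict transform `C` of the curve `F = 0` -/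
noncomputable def degL (a b : ℕ) (c : Fin 5 → ℕ) (x x' : Fin 5 → Pt) (F : Pol) : ℝ :=
  a * F.degreeOf 1 + b * F.degreeOf 0 - ∑ j, c j * ((mlt (x j) F : ℝ) + mlt (x' j) F)

/-- the Seshadri constant of `L` at the points `y i`: the infimum of `L · C / ∑ mult_{y i} C` over
all irreducible curves `C` of the surface through at least one of the points `y i` -/
noncomputable def seshadri (a b : ℕ) (c : Fin 5 → ℕ) (x x' : Fin 5 → Pt) {n : ℕ}
    (y : Fin n → Pt) : ℝ :=
  sInf {r | ∃ F : Pol, Irreducible F ∧ (∃ i, eval (y i) F = 0) ∧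
    r = degL a b c x x' F / ∑ i, (mlt (y i) F : ℝ)}

end Pool.Agent.Lib.MP_ed661f_ag.R
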