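import Pool.Agent.Lib.MP_ed661f_ag.R.Gen
import Pool.Agent.Lib.MP_ed661f_ag.R.Surf

/-!
T14a: ampleness.
-/

open MvPolynomial

namespace Pool.Agent.Lib.MP_ed661f_ag.R

open Pool.Agent.Lib.MP_ed661f_ag.E

/-- the nef inequality for the class `(2,3;1^10;sqrt 2)` at eleven of the points -/
private theorem ample_aux {ι : Type} {z : ι → Pt} (hz : Generic z)
    (f : Fin 5 ⊕ (Fin 5 ⊕ Fin 1) → ι) (hf : Function.Injective f) {F : Pol} (hF : F ≠ 0) :
    ∑ j, ((mlt (z (f (Sum.inl j))) F : ℝ) + mlt (z (f (Sum.inr (Sum.inl j)))) F) +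
      Real.sqrt 2 * (mlt (z (f (Sum.inr (Sum.inr 0)))) F : ℝ) ≤
      2 * F.degreeOf 1 + 3 * F.degreeOf 0 := by
  have h1 : Generic (Sum.elim (fun j => z (f (Sum.inl j)))
      (Sum.elim (fun j => z (f (Sum.inr (Sum.inl j)))) (fun i => z (f (Sum.inr (Sum.inr i)))))) := by
    have h2 := hz.comp f hf
    have h3 : Sum.elim (fun j => z (f (Sum.inl j))) (Sum.elim (fun j => z (f (Sum.inr (Sum.inl j))))
        (fun i => z (f (Sum.inr (Sum.inr i))))) = z ∘ f := by
      funext i
      rcases i with i | i | i <;> rfl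
    rw [h3]
    exact h2
  have h4 := nef_generic h1 2 3 (fun _ => 1) (Real.sqrt 2) (by norm_num) (by norm_num)
    (fun _ => by norm_num) (Real.sqrt_nonneg _) (by norm_num) (by
      rw [Real.sq_sqrt (by norm_num)]
      norm_num) hF
  simpa using h4

/-- the class `(2,3;1^10)` is positive on every curve -/
theorem ample_one {n : ℕ} (hn : 1 ≤ n) {x x' : Fin 5 → Pt} {y : Fin n → Pt}
    (hz : Generic (Sum.elim x (Sum.elim x' y))) {F : Pol} (hF : Irreducible F) :
    0 < degL 2 3 (fun _ => 1) x x' F := by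
  classical
  have hF0 := hF.ne_zero
  set z : Fin 5 ⊕ (Fin 5 ⊕ Fin n) → Pt := Sum.elim x (Sum.elim x' y) with hzdef
  let o : Fin 5 ⊕ (Fin 5 ⊕ Fin n) := Sum.inr (Sum.inr ⟨0, hn⟩)
  let m : Fin 5 ⊕ (Fin 5 ⊕ Fin 1) → Fin 5 ⊕ (Fin 5 ⊕ Fin n) :=
    Sum.map id (Sum.map id fun _ => ⟨0, hn⟩)
  have hm : Function.Injective m := by
    refine Sum.map_injective.2 ⟨Function.injective_id, Sum.map_injective.2
      ⟨Function.injective_id, ?_⟩⟩
    intro i j _
    exact Subsingleton.elim i j
  have h2 : 1 < Real.sqrt 2 := by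
    rw [Real.lt_sqrt (by norm_num)]
    norm_num
  have hy0 : (0 : ℝ) ≤ mlt (y ⟨0, hn⟩) F := by positivity
  -- positivity if one of the ten points is on the curve
  have key1 : ∀ j, (Real.sqrt 2 - 1) * (mlt (x j) F : ℝ) ≤ degL 2 3 (fun _ => 1) x x' F := by
    intro j
    have h := ample_aux hz (Equiv.swap (Sum.inl j) o ∘ m)
      ((Equiv.swap (Sum.inl j) o).injective.comp hm) hF0
    have e1 : ∀ i, z ((Equiv.swap (Sum.inl j) o ∘ m) (Sum.inl i)) =
        if i = j then y ⟨0, hn⟩ else x i := by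
      intro i
      by_cases hij : i = j
      · subst hij
        simp [m, o, hzdef]
      · have : Equiv.swap (Sum.inl j) o (m (Sum.inl i)) = Sum.inl i := by
          apply Equiv.swap_apply_of_ne_of_ne
          · simpa [m] using hij
          · simp [m, o]
        simp [this, hij, hzdef]
    have e2 : ∀ i, z ((Equiv.swap (Sum.inl j) o ∘ m) (Sum.inr (Sum.inl i))) = x' i := by
      intro i
      have : Equiv.swap (Sum.inl j) o (m (Sum.inr (Sum.inl i))) = Sum.inr (Sum.inl i) := by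
        apply Equiv.swap_apply_of_ne_of_ne
        · simp [m]
        · simp [m, o]
      simp [this, hzdef]
    have e3 : z ((Equiv.swap (Sum.inl j) o ∘ m) (Sum.inr (Sum.inr 0))) = x j := by
      have : Equiv.swap (Sum.inl j) o (m (Sum.inr (Sum.inr 0))) = Sum.inl j := by
        have : m (Sum.inr (Sum.inr 0)) = o := rfl
        rw [this, Equiv.swap_apply_right]
      simp [this, hzdef]
    rw [e3] at h
    simp only [e1, e2] at h
    have e4 : ∑ i, ((mlt (if i = j then y ⟨0, hn⟩ else x i) F : ℝ) + mlt (x' i) F) =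
        ∑ i, ((mlt (x i) F : ℝ) + mlt (x' i) F) - mlt (x j) F + mlt (y ⟨0, hn⟩) F := by
      rw [← Finset.add_sum_erase Finset.univ _ (Finset.mem_univ j),
        ← Finset.add_sum_erase Finset.univ (fun i => ((mlt (x i) F : ℝ) + mlt (x' i) F))
          (Finset.mem_univ j)]
      have e5 : ∑ i ∈ Finset.univ.erase j,
          ((mlt (if i = j then y ⟨0, hn⟩ else x i) F : ℝ) + mlt (x' i) F) =
          ∑ i ∈ Finset.univ.erase j, ((mlt (x i) F : ℝ) + mlt (x' i) F) := by
        refine Finset.sum_congr rfl fun i hi => ?_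
        rw [if_neg (Finset.ne_of_mem_erase hi)]
      rw [e5, if_pos rfl]
      ring
    rw [e4] at h
    unfold degL
    push_cast
    simp only [one_mul]
    linarith
  have key2 : ∀ j, (Real.sqrt 2 - 1) * (mlt (x' j) F : ℝ) ≤ degL 2 3 (fun _ => 1) x x' F := by
    intro j
    have h := ample_aux hz (Equiv.swap (Sum.inr (Sum.inl j)) o ∘ m)
      ((Equiv.swap (Sum.inr (Sum.inl j)) o).injective.comp hm) hF0
    have e1 : ∀ i, z ((Equiv.swap (Sum.inr (Sum.inl j)) o ∘ m) (Sum.inl i)) = x i := by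
      intro i
      have : Equiv.swap (Sum.inr (Sum.inl j)) o (m (Sum.inl i)) = Sum.inl i := by
        apply Equiv.swap_apply_of_ne_of_ne
        · simp [m]
        · simp [m, o]
      simp [this, hzdef]
    have e2 : ∀ i, z ((Equiv.swap (Sum.inr (Sum.inl j)) o ∘ m) (Sum.inr (Sum.inl i))) =
        if i = j then y ⟨0, hn⟩ else x' i := by
      intro i
      by_cases hij : i = j
      · subst hij
        simp [m, o, hzdef]
      · have : Equiv.swap (Sum.inr (Sum.inl j)) o (m (Sum.inr (Sum.inl i))) =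
            Sum.inr (Sum.inl i) := by
          apply Equiv.swap_apply_of_ne_of_ne
          · simpa [m] using hij
          · simp [m, o]
        simp [this, hij, hzdef]
    have e3 : z ((Equiv.swap (Sum.inr (Sum.inl j)) o ∘ m) (Sum.inr (Sum.inr 0))) = x' j := by
      have : Equiv.swap (Sum.inr (Sum.inl j)) o (m (Sum.inr (Sum.inr 0))) =
          Sum.inr (Sum.inl j) := by
        have : m (Sum.inr (Sum.inr 0)) = o := rfl
        rw [this, Equiv.swap_apply_right]
      simp [this, hzdef]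
    rw [e3] at h
    simp only [e1, e2] at h
    have e4 : ∑ i, ((mlt (x i) F : ℝ) + mlt (if i = j then y ⟨0, hn⟩ else x' i) F) =
        ∑ i, ((mlt (x i) F : ℝ) + mlt (x' i) F) - mlt (x' j) F + mlt (y ⟨0, hn⟩) F := by
      rw [← Finset.add_sum_erase Finset.univ _ (Finset.mem_univ j),
        ← Finset.add_sum_erase Finset.univ (fun i => ((mlt (x i) F : ℝ) + mlt (x' i) F))
          (Finset.mem_univ j)]
      have e5 : ∑ i ∈ Finset.univ.erase j,
          ((mlt (x i) F : ℝ) + mlt (if i = j then y ⟨0, hn⟩ else x' i) F) =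
          ∑ i ∈ Finset.univ.erase j, ((mlt (x i) F : ℝ) + mlt (x' i) F) := by
        refine Finset.sum_congr rfl fun i hi => ?_
        rw [if_neg (Finset.ne_of_mem_erase hi)]
      rw [e5, if_pos rfl]
      ring
    rw [e4] at h
    unfold degL
    push_cast
    simp only [one_mul]
    linarith
  by_cases hx : ∃ j, mlt (x j) F ≠ 0
  · obtain ⟨j, hj⟩ := hx
    refine lt_of_lt_of_le ?_ (key1 j)
    have : (0 : ℝ) < mlt (x j) F := by exact_mod_cast Nat.pos_of_ne_zero hj
    exact mul_pos (by linarith) this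
  by_cases hx' : ∃ j, mlt (x' j) F ≠ 0
  · obtain ⟨j, hj⟩ := hx'
    refine lt_of_lt_of_le ?_ (key2 j)
    have : (0 : ℝ) < mlt (x' j) F := by exact_mod_cast Nat.pos_of_ne_zero hj
    exact mul_pos (by linarith) this
  push Not at hx hx'
  have hne := not_const_of_irreducible hF
  unfold degL
  simp only [hx, hx']
  have h3 : 1 ≤ F.degreeOf 0 + F.degreeOf 1 := by omega
  have h4 : (1 : ℝ) ≤ (F.degreeOf 0 : ℝ) + F.degreeOf 1 := by exact_mod_cast h3
  have h5 : (0 : ℝ) ≤ F.degreeOf 0 := by positivity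
  have h6 : (0 : ℝ) ≤ F.degreeOf 1 := by positivity
  push_cast
  simp only [add_zero, mul_zero, Finset.sum_const_zero, sub_zero]
  linarith

theorem ample {a b : ℕ} {c : Fin 5 → ℕ} (hab : a + b = ∑ j, c j) (hD : ∑ j, c j ^ 2 < a * b)
    {n : ℕ} (hn : 1 ≤ n) {x x' : Fin 5 → Pt} {y : Fin n → Pt}
    (hc : ∀ j, 1 ≤ c j) (hz : Generic (Sum.elim x (Sum.elim x' y))) {F : Pol}
    (hF : Irreducible F) : 0 < degL a b c x x' F := by
  have h1 := ample_one hn hz hF
  have hab0 : 0 < a * b := by omega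
  have ha : 1 ≤ a := Nat.pos_of_mul_pos_right hab0
  have hb : 1 ≤ b := Nat.pos_of_mul_pos_left hab0
  have haR : (1 : ℝ) ≤ a := by exact_mod_cast ha
  have hbR : (1 : ℝ) ≤ b := by exact_mod_cast hb
  set δ : ℝ := 1 / (3 * a) with hδ
  have hδ0 : 0 < δ := by positivity
  have hδ1 : δ * (3 * a) = 1 := by
    rw [hδ]
    field_simp
  have hδ2 : δ ≤ 1 / 3 := by
    have : δ * 3 ≤ δ * (3 * a) := mul_le_mul_of_nonneg_left (by linarith) hδ0.le
    linarith
  have habR : (a : ℝ) + b = ∑ j, (c j : ℝ) := by exact_mod_cast hab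
  have hDR : ∑ j, (c j : ℝ) ^ 2 + 1 ≤ a * b := by exact_mod_cast hD
  have h2 := nef_generic hz (a - 2 * δ) (b - 3 * δ) (fun j => c j - δ) 0 (by linarith)
    (by linarith) (fun j => by
      have : (1 : ℝ) ≤ c j := by exact_mod_cast hc j
      simp only [sub_nonneg]
      linarith) le_rfl (by
      rw [Finset.sum_sub_distrib, ← habR]
      simp only [Finset.sum_const, Finset.card_univ, Fintype.card_fin, nsmul_eq_mul]
      push_cast
      ring) (by
      have e1 : ∑ j, ((c j : ℝ) - δ) ^ 2 = ∑ j, (c j : ℝ) ^ 2 - 2 * δ * ∑ j, (c j : ℝ) +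
          5 * δ ^ 2 := by
        simp only [Fin.sum_univ_five]
        ring
      rw [e1, ← habR]
      nlinarith) hF.ne_zero
  have h3 : degL a b c x x' F = (((a : ℝ) - 2 * δ) * F.degreeOf 1 +
      (b - 3 * δ) * F.degreeOf 0 - ∑ j, ((c j : ℝ) - δ) * ((mlt (x j) F : ℝ) + mlt (x' j) F)) +
      δ * degL 2 3 (fun _ => 1) x x' F := by
    unfold degL
    simp only [Fin.sum_univ_five]
    push_cast
    ring
  rw [h3]
  have h4 : 0 < δ * degL 2 3 (fun _ => 1) x x' F := mul_pos hδ0 h1
  linarith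

end Pool.Agent.Lib.MP_ed661f_ag.R
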