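import Pool.Agent.Lib.MP_ed661f_ag.R.Defs
import Pool.Agent.Lib.MP_ed661f_ag.Y.Bez

/-!
T1 (box): Bezout's inequality for bidegrees; existence of polynomials by counting.
-/

open MvPolynomial

namespace Pool.Agent.Lib.MP_ed661f_ag.R

open Pool.Agent.Lib.MP_ed661f_ag.E

theorem box_eq (A B : ℕ) : Box A B = Y.Bq.V (A + 1) (B + 1) := by
  unfold Box Y.Bq.V
  congr 1
  ext e
  rw [Finset.mem_coe, Y.Bq.mem_S]
  simp only [Set.mem_ofPred_eq, Nat.lt_succ_iff]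

instance (A B : ℕ) : FiniteDimensional ℂ (Box A B) := by
  rw [box_eq]
  infer_instance

theorem finrank_Box (A B : ℕ) : Module.finrank ℂ (Box A B) = (A + 1) * (B + 1) := by
  rw [box_eq, Y.Bq.finrank_V]

/-- Bezout's inequality on `ℙ¹ × ℙ¹` (same proof as `E.Bz.main`, with `Box` in place of `V`) -/
theorem bezout {f g : Pol} (hf : f ≠ 0) (hg : g ≠ 0) (h : IsRelPrime f g) (P : Finset Pt) :
    ∑ p ∈ P, mlt p f * mlt p g ≤ f.degreeOf 0 * g.degreeOf 1 + g.degreeOf 0 * f.degreeOf 1 := by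
  have h1 := Y.bezout_le hf hg h P le_rfl le_rfl le_rfl le_rfl
  rw [mul_comm (g.degreeOf 0)]
  exact h1

/-- curves through given points, by counting -/
theorem exists_count {A B : ℕ} (P : Finset Pt) (k : Pt → ℕ)
    (hk : ∑ p ∈ P, k p * (k p + 1) < 2 * ((A + 1) * (B + 1))) :
    ∃ G : Pol, G ≠ 0 ∧ G.degreeOf 0 ≤ A ∧ G.degreeOf 1 ≤ B ∧ ∀ p ∈ P, k p ≤ mlt p G := by
  set L : Box A B →ₗ[ℂ] (Bz.Idx P k → ℂ) := (Bz.T P k).comp (Box A B).subtype with hL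
  have h1 := Bz.card_Idx P k
  have h2 : Module.finrank ℂ (Bz.Idx P k → ℂ) < Module.finrank ℂ (Box A B) := by
    rw [finrank_Box]
    have h3 : 2 * (Module.finrank ℂ (Bz.Idx P k → ℂ) : ℤ) < 2 * ((A + 1) * (B + 1)) := by
      rw [h1]
      exact_mod_cast hk
    have h4 : 2 * (Module.finrank ℂ (Bz.Idx P k → ℂ)) < 2 * ((A + 1) * (B + 1)) := by
      exact_mod_cast h3
    omega
  have h3 : LinearMap.ker L ≠ ⊥ := LinearMap.ker_ne_bot_of_finrank_lt h2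
  obtain ⟨⟨G, hG⟩, hGk, hG0⟩ := (Submodule.ne_bot_iff _).mp h3
  have hG1 : G ≠ 0 := fun h => hG0 (Subtype.ext h)
  have hG2 := mem_Box.mp hG
  refine ⟨G, hG1, hG2.1, hG2.2, fun p hp => ?_⟩
  rw [le_mlt_iff hG1]
  intro e he
  rw [LinearMap.mem_ker] at hGk
  have h5 : e ∈ Bz.S (k p) (k p) := by
    rw [Bz.mem_S]
    rw [Bz.degree_two'] at he
    exact ⟨he, by omega⟩
  exact congrFun hGk ⟨⟨p, hp⟩, ⟨e, h5⟩⟩

end Pool.Agent.Lib.MP_ed661f_ag.R
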