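import Pool.Agent.Lib.MP_ed661f_ag.E.Bezout

/-!
The round cone of nef classes on the blow-up of `ℙ¹ × ℙ¹` in fourteen points: definitions.
`ℂ[u,v] = MvPolynomial (Fin 2) ℂ`; `Box A B` = polynomials with `deg_u ≤ A`, `deg_v ≤ B`;
`rev A B F = u^A v^B F(1/u,1/v)`; `inv (u,v) = (1/u,1/v)`.
-/

open MvPolynomial

namespace Pool.Agent.Lib.MP_ed661f_ag.R

open Pool.Agent.Lib.MP_ed661f_ag.E

/-- polynomials in two variables -/
abbrev Pol := MvPolynomial (Fin 2) ℂ

/-- the points of the chart `ℂ²` of `ℙ¹ × ℙ¹` -/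
abbrev Pt := Fin 2 → ℂ

/-- polynomials of bidegree at most `(A, B)` -/
noncomputable def Box (A B : ℕ) : Submodule ℂ Pol :=
  restrictSupport ℂ {e : Fin 2 →₀ ℕ | e 0 ≤ A ∧ e 1 ≤ B}

/-- the exponent `(A - e 0, B - e 1)` -/
noncomputable def rexp (A B : ℕ) (e : Fin 2 →₀ ℕ) : Fin 2 →₀ ℕ :=
  Finsupp.single 0 (A - e 0) + Finsupp.single 1 (B - e 1)

/-- `u^A v^B F(1/u, 1/v)` for `F` in `Box A B` -/
noncomputable def rev (A B : ℕ) : Pol →ₗ[ℂ] Pol :=
  (basisMonomials (Fin 2) ℂ).constr ℂ (fun e => monomial (rexp A B e) 1)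

/-- the involution `(u, v) ↦ (1/u, 1/v)` -/
noncomputable def inv (p : Pt) : Pt := ![(p 0)⁻¹, (p 1)⁻¹]

/-- points of the torus -/
def Tor (p : Pt) : Prop := p 0 ≠ 0 ∧ p 1 ≠ 0

/-- `F` is not divisible by the variables -/
def NoX (F : Pol) : Prop := ¬ (X 0 ∣ F) ∧ ¬ (X 1 ∣ F)

/-- semi-invariants: `rev A B F = s F` -/
noncomputable def S (A B : ℕ) (s : ℂ) : Submodule ℂ Pol :=
  Box A B ⊓ LinearMap.ker (rev A B - s • LinearMap.id)

/-- the four fixed points of the involution -/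
def Y0 : Fin 4 → Pt := ![![1, 1], ![1, -1], ![-1, 1], ![-1, -1]]

/-- the parameters `3, 4, 5, 6, 7` of the five points on the curve `Q1 = 0` -/
def T0 (j : Fin 5) : ℂ := (j : ℕ) + 3

/-- five points on the curve `Q1 = 0` -/
noncomputable def P0 (j : Fin 5) : Pt :=
  ![(4 * T0 j - 1) / (2 * T0 j - 2), (2 * T0 j - 1) / (T0 j - 2)]

/-- the images of these points under the involution -/
noncomputable def P1 (j : Fin 5) : Pt := inv (P0 j)

/-- the curve of bidegree `(1,1)` through the five points -/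
noncomputable def Q1 : Pol := 2 * X 0 * X 1 + 2 * X 0 - 7 * X 1 + 2

/-- its image under the involution -/
noncomputable def Q2 : Pol := 2 * X 0 * X 1 - 7 * X 0 + 2 * X 1 + 2

theorem mem_Box {A B : ℕ} {F : Pol} : F ∈ Box A B ↔ F.degreeOf 0 ≤ A ∧ F.degreeOf 1 ≤ B := by
  unfold Box
  rw [mem_restrictSupport_iff, degreeOf_le_iff, degreeOf_le_iff]
  constructor
  · intro h
    exact ⟨fun e he => (h he).1, fun e he => (h he).2⟩
  · rintro ⟨h0, h1⟩ e he
    exact ⟨h0 e he, h1 e he⟩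

theorem rev_monomial (A B : ℕ) (e : Fin 2 →₀ ℕ) (c : ℂ) :
    rev A B (monomial e c) = monomial (rexp A B e) c := by
  have h : (monomial e c : Pol) = c • monomial e 1 := by
    rw [smul_monomial, smul_eq_mul, mul_one]
  have h2 := (basisMonomials (Fin 2) ℂ).constr_basis ℂ
    (fun e => (monomial (rexp A B e) 1 : Pol)) e
  rw [coe_basisMonomials] at h2
  rw [h, map_smul, rev, h2, smul_monomial, smul_eq_mul, mul_one]

theorem mem_S {A B : ℕ} {s : ℂ} {F : Pol} : F ∈ S A B s ↔ F ∈ Box A B ∧ rev A B F = s • F := by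
  unfold S
  rw [Submodule.mem_inf, LinearMap.mem_ker]
  simp [sub_eq_zero]

end Pool.Agent.Lib.MP_ed661f_ag.R
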