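import Pool.Agent.Lib.MP_ed661f_ag.R.Surface

/-!
A tuple with algebraically independent coordinates can be extended by a point.
-/

open MvPolynomial Cardinal

namespace Pool.Agent.Lib.MP_ed661f_ag.R

theorem exists_extend {ι : Type} [Finite ι] {z : ι → Fin 2 → ℂ} (hz : VeryGeneral z) :
    ∃ p : Fin 2 → ℂ, VeryGeneral (Sum.elim z (fun _ : Fin 1 => p)) := by
  classical
  set f : ι × Fin 2 → ℂ := fun q => z q.1 q.2 with hf
  have hz' : AlgebraicIndependent ℚ f := hz
  have hinj : Function.Injective f := hz'.injective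
  have hs : AlgebraicIndepOn ℚ id (Set.range f) := hz'.coe_range
  obtain ⟨t, hst, ht⟩ := exists_isTranscendenceBasis_superset hs
  have hfin : (Set.range f).Finite := Set.finite_range f
  have hinf : t.Infinite := by
    intro hft
    have h1 := IsAlgClosed.cardinal_eq_cardinal_transcendence_basis_of_aleph0_lt' _ ht
      (by rw [Cardinal.mk_le_aleph0_iff]; infer_instance)
      (by rw [Cardinal.mk_complex]; exact Cardinal.aleph0_lt_continuum)
    have h2 : #t < ℵ₀ := Cardinal.lt_aleph0_iff_set_finite.2 hft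
    rw [← h1, Cardinal.mk_complex] at h2
    exact absurd h2 (not_lt.2 Cardinal.aleph0_le_continuum)
  obtain ⟨w, hw1, hw2⟩ := (hinf.sdiff hfin).exists_subset_card_eq 2
  obtain ⟨p0, p1, hne, hw⟩ := Finset.card_eq_two.1 hw2
  have hp0 : p0 ∈ t \ Set.range f := hw1 (by rw [hw]; simp)
  have hp1 : p1 ∈ t \ Set.range f := hw1 (by rw [hw]; simp)
  refine ⟨![p0, p1], ?_⟩
  unfold VeryGeneral
  set g : (ι ⊕ Fin 1) × Fin 2 → ℂ := fun q => (Sum.elim z (fun _ : Fin 1 => ![p0, p1])) q.1 q.2
    with hg
  have hgt : ∀ q, g q ∈ t := by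
    rintro ⟨i | i, k⟩
    · exact hst ⟨(i, k), rfl⟩
    · fin_cases k
      · exact hp0.1
      · exact hp1.1
  have hginj : Function.Injective g := by
    rintro ⟨i | i, k⟩ ⟨j | j, l⟩ h
    · have := hinj (a₁ := (i, k)) (a₂ := (j, l)) h
      simp only [Prod.mk.injEq] at this
      rw [this.1, this.2]
    · exfalso
      fin_cases l
      · exact hp0.2 ⟨(i, k), h⟩
      · exact hp1.2 ⟨(i, k), h⟩
    · exfalso
      fin_cases k
      · exact hp0.2 ⟨(j, l), h.symm⟩
      · exact hp1.2 ⟨(j, l), h.symm⟩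
    · rw [Subsingleton.elim i j]
      fin_cases k <;> fin_cases l
      · rfl
      · exact absurd h hne
      · exact absurd h hne.symm
      · rfl
  have h3 := ht.1.comp (fun q => (⟨g q, hgt q⟩ : t)) (by
    intro a b h
    exact hginj (congrArg Subtype.val h))
  exact h3

end Pool.Agent.Lib.MP_ed661f_ag.R
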