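import Pool.Agent.Lib.MP_ed661f_ag.R.Spec
import Pool.Agent.Lib.MP_ed661f_ag.R.Nef

/-!
T12: the nef inequality for generic points.
-/

open MvPolynomial

namespace Pool.Agent.Lib.MP_ed661f_ag.R

open Pool.Agent.Lib.MP_ed661f_ag.E

theorem Generic.comp {ι κ : Type} {z : ι → Pt} (hz : Generic z) (f : κ → ι)
    (hf : Function.Injective f) : Generic (z ∘ f) := by
  unfold Generic at *
  exact AlgebraicIndependent.comp hz (fun q : κ × Fin 2 => (f q.1, q.2)) (by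
    rintro ⟨i, k⟩ ⟨j, l⟩ h
    simp only [Prod.mk.injEq] at h
    exact Prod.ext (hf h.1) h.2)

theorem exists_squares (n : ℕ) : ∃ k : Fin 4 → ℕ, ∑ i, k i ^ 2 = n := by
  obtain ⟨a, b, c, d, h⟩ := Nat.sum_four_squares n
  refine ⟨![a, b, c, d], ?_⟩
  rw [Fin.sum_univ_four]
  simpa using h

theorem nef_generic {n : ℕ} {x x' : Fin 5 → Pt} {y : Fin n → Pt}
    (hz : Generic (Sum.elim x (Sum.elim x' y)))
    (a b : ℝ) (c : Fin 5 → ℝ) (r : ℝ) (ha : 0 ≤ a) (hb : 0 ≤ b)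
    (hc : ∀ j, 0 ≤ c j) (hr : 0 ≤ r)
    (hab : a + b = ∑ j, c j) (hq : n * r ^ 2 ≤ 2 * (a * b - ∑ j, c j ^ 2))
    {F : Pol} (hF : F ≠ 0) :
    ∑ j, c j * (mlt (x j) F + mlt (x' j) F) + r * ∑ i, (mlt (y i) F : ℝ) ≤
      a * F.degreeOf 1 + b * F.degreeOf 0 := by
  classical
  obtain ⟨k, hk⟩ := exists_squares n
  have hcard : Fintype.card ((i : Fin 4) × (Fin (k i) × Fin (k i))) = Fintype.card (Fin n) := by
    rw [Fintype.card_sigma]
    simp only [Fintype.card_prod, Fintype.card_fin]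
    rw [← hk]
    exact Finset.sum_congr rfl fun i _ => by ring
  let e : ((i : Fin 4) × (Fin (k i) × Fin (k i))) ≃ Fin n := Fintype.equivOfCardEq hcard
  let f : Ind k → Fin 5 ⊕ (Fin 5 ⊕ Fin n) := Sum.map id (Sum.map id e)
  have hf : Function.Injective f :=
    Sum.map_injective.2 ⟨Function.injective_id, Sum.map_injective.2 ⟨Function.injective_id, e.injective⟩⟩
  obtain ⟨G, hG0, hGd, hG1, hG2, hG3⟩ := specialise k (hz.comp f hf) hF
  have h1 := nef_special a b c (fun i => k i * r) ha hb hab (by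
    have : ∑ i, ((k i : ℝ) * r) ^ 2 = n * r ^ 2 := by
      rw [← hk]
      push_cast
      rw [Finset.sum_mul]
      exact Finset.sum_congr rfl fun i _ => by ring
    rw [this]
    exact hq) hG0
  have hy : ∑ i, (mlt (y i) F : ℝ) = ∑ i, ∑ x : Fin (k i) × Fin (k i), (mlt (y (e ⟨i, x⟩)) F : ℝ) := by
    rw [← Equiv.sum_comp e, Fintype.sum_sigma]
  have h2 : r * ∑ i, (mlt (y i) F : ℝ) ≤ ∑ i, (k i : ℝ) * r * mlt (Y0 i) G := by
    rw [hy, Finset.mul_sum]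
    refine Finset.sum_le_sum fun i _ => ?_
    have h3 : (((∑ x : Fin (k i) × Fin (k i), mlt (y (e ⟨i, x⟩)) F : ℕ)) : ℝ) ≤
        ((k i * mlt (Y0 i) G : ℕ) : ℝ) := by
      exact_mod_cast hG3 i
    push_cast at h3
    calc r * ∑ x : Fin (k i) × Fin (k i), (mlt (y (e ⟨i, x⟩)) F : ℝ) ≤
        r * ((k i : ℝ) * mlt (Y0 i) G) := mul_le_mul_of_nonneg_left h3 hr
      _ = (k i : ℝ) * r * mlt (Y0 i) G := by ring
  have h4 : ∑ j, c j * ((mlt (x j) F : ℝ) + mlt (x' j) F) ≤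
      ∑ j, c j * ((mlt (P0 j) G : ℝ) + mlt (P1 j) G) := by
    refine Finset.sum_le_sum fun j _ => mul_le_mul_of_nonneg_left ?_ (hc j)
    have h5 : mlt (x j) F ≤ mlt (P0 j) G := hG1 j
    have h6 : mlt (x' j) F ≤ mlt (P1 j) G := hG2 j
    have h5' : ((mlt (x j) F : ℕ) : ℝ) ≤ mlt (P0 j) G := by exact_mod_cast h5
    have h6' : ((mlt (x' j) F : ℕ) : ℝ) ≤ mlt (P1 j) G := by exact_mod_cast h6
    linarith
  have h7 : a * (G.degreeOf 1 : ℝ) ≤ a * F.degreeOf 1 :=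
    mul_le_mul_of_nonneg_left (by exact_mod_cast hGd 1) ha
  have h8 : b * (G.degreeOf 0 : ℝ) ≤ b * F.degreeOf 0 :=
    mul_le_mul_of_nonneg_left (by exact_mod_cast hGd 0) hb
  linarith

end Pool.Agent.Lib.MP_ed661f_ag.R
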