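import Pool.Agent.Lib.MP_ed661f_ag.R.Gen

/-!
The nef inequality for generic points with different weights (helper74).

`nef_groups`: four groups of `k i ^ 2` points of weight `s i`.
`nef_genericW`: one further point `w` of weight `t`, and `n = k 0 ^ 2 + k 1 ^ 2 + k 2 ^ 2` points of
weight `r`.
-/

open MvPolynomial

namespace Pool.Agent.Lib.MP_ed661f_ag.R

open Pool.Agent.Lib.MP_ed661f_ag.E

/-- four groups of `k i ^ 2` generic points of weight `s i` -/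
theorem nef_groups {k : Fin 4 → ℕ} {x x' : Fin 5 → Pt}
    {y : ((i : Fin 4) × (Fin (k i) × Fin (k i))) → Pt}
    (hz : Generic (Sum.elim x (Sum.elim x' y)))
    (a b : ℝ) (c : Fin 5 → ℝ) (s : Fin 4 → ℝ) (ha : 0 ≤ a) (hb : 0 ≤ b)
    (hc : ∀ j, 0 ≤ c j) (hs : ∀ i, 0 ≤ s i)
    (hab : a + b = ∑ j, c j) (hq : ∑ i, (k i : ℝ) ^ 2 * s i ^ 2 ≤ 2 * (a * b - ∑ j, c j ^ 2))
    {F : Pol} (hF : F ≠ 0) :
    ∑ j, c j * (mlt (x j) F + mlt (x' j) F) +
      ∑ i, s i * ∑ p : Fin (k i) × Fin (k i), (mlt (y ⟨i, p⟩) F : ℝ) ≤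
      a * F.degreeOf 1 + b * F.degreeOf 0 := by
  classical
  obtain ⟨G, hG0, hGd, hG1, hG2, hG3⟩ := specialise k (z := Sum.elim x (Sum.elim x' y)) hz hF
  have h1 := nef_special a b c (fun i => k i * s i) ha hb hab (by
    have : ∑ i, ((k i : ℝ) * s i) ^ 2 = ∑ i, (k i : ℝ) ^ 2 * s i ^ 2 :=
      Finset.sum_congr rfl fun i _ => by ring
    rw [this]
    exact hq) hG0
  have h2 : ∑ i, s i * ∑ p : Fin (k i) × Fin (k i), (mlt (y ⟨i, p⟩) F : ℝ) ≤
      ∑ i, (k i : ℝ) * s i * mlt (Y0 i) G := by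
    refine Finset.sum_le_sum fun i _ => ?_
    have h3 : (((∑ p : Fin (k i) × Fin (k i), mlt (y ⟨i, p⟩) F : ℕ)) : ℝ) ≤
        ((k i * mlt (Y0 i) G : ℕ) : ℝ) := by
      exact_mod_cast hG3 i
    push_cast at h3
    calc s i * ∑ p : Fin (k i) × Fin (k i), (mlt (y ⟨i, p⟩) F : ℝ) ≤
        s i * ((k i : ℝ) * mlt (Y0 i) G) := mul_le_mul_of_nonneg_left h3 (hs i)
      _ = (k i : ℝ) * s i * mlt (Y0 i) G := by ring
  have h4 : ∑ j, c j * ((mlt (x j) F : ℝ) + mlt (x' j) F) ≤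
      ∑ j, c j * ((mlt (P0 j) G : ℝ) + mlt (P1 j) G) := by
    refine Finset.sum_le_sum fun j _ => mul_le_mul_of_nonneg_left ?_ (hc j)
    have h5 : mlt (x j) F ≤ mlt (P0 j) G := hG1 j
    have h6 : mlt (x' j) F ≤ mlt (P1 j) G := hG2 j
    have h5' : ((mlt (x j) F : ℕ) : ℝ) ≤ mlt (P0 j) G := by exact_mod_cast h5
    have h6' : ((mlt (x' j) F : ℕ) : ℝ) ≤ mlt (P1 j) G := by exact_mod_cast h6
    linarith
  have h7 : a * (G.degreeOf 1 : ℝ) ≤ a * F.degreeOf 1 :=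
    mul_le_mul_of_nonneg_left (by exact_mod_cast hGd 1) ha
  have h8 : b * (G.degreeOf 0 : ℝ) ≤ b * F.degreeOf 0 :=
    mul_le_mul_of_nonneg_left (by exact_mod_cast hGd 0) hb
  linarith

/-- the indices of the groups -/
private noncomputable def grp {n : ℕ} {k : Fin 3 → ℕ}
    (e : ((i : Fin 3) × (Fin (k i) × Fin (k i))) → Fin n) :
    ((i : Fin 4) × (Fin ((Fin.cons 1 k : Fin 4 → ℕ) i) × Fin ((Fin.cons 1 k : Fin 4 → ℕ) i))) →
      Fin 1 ⊕ Fin n := fun q =>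
  Fin.cases (motive := fun i => Fin ((Fin.cons 1 k : Fin 4 → ℕ) i) ×
    Fin ((Fin.cons 1 k : Fin 4 → ℕ) i) → Fin 1 ⊕ Fin n)
    (fun _ => Sum.inl 0) (fun i p => Sum.inr (e ⟨i, p⟩)) q.1 q.2

private theorem grp_injective {n : ℕ} {k : Fin 3 → ℕ}
    {e : ((i : Fin 3) × (Fin (k i) × Fin (k i))) → Fin n} (he : Function.Injective e) :
    Function.Injective (grp e) := by
  rintro ⟨i, p⟩ ⟨j, q⟩ h
  induction i using Fin.cases with
  | zero =>
    induction j using Fin.cases with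
    | zero =>
      have : p = q := Subsingleton.elim (α := Fin 1 × Fin 1) _ _
      rw [this]
    | succ j => exact absurd h (by simp [grp])
  | succ i =>
    induction j using Fin.cases with
    | zero => exact absurd h (by simp [grp])
    | succ j =>
      have h1 : (⟨i, p⟩ : (i : Fin 3) × (Fin (k i) × Fin (k i))) = ⟨j, q⟩ :=
        he (Sum.inr_injective h)
      cases h1
      rfl

/-- one further point `w` of weight `t`, and `n = k 0 ^ 2 + k 1 ^ 2 + k 2 ^ 2` points of weight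
`r` -/
theorem nef_genericW {n : ℕ} {k : Fin 3 → ℕ} (hk : ∑ i, k i ^ 2 = n) {x x' : Fin 5 → Pt} {w : Pt}
    {y : Fin n → Pt} (hz : Generic (Sum.elim x (Sum.elim x' (Sum.elim (fun _ : Fin 1 => w) y))))
    (a b : ℝ) (c : Fin 5 → ℝ) (t r : ℝ) (ha : 0 ≤ a) (hb : 0 ≤ b)
    (hc : ∀ j, 0 ≤ c j) (ht : 0 ≤ t) (hr : 0 ≤ r)
    (hab : a + b = ∑ j, c j) (hq : t ^ 2 + n * r ^ 2 ≤ 2 * (a * b - ∑ j, c j ^ 2))
    {F : Pol} (hF : F ≠ 0) :
    ∑ j, c j * (mlt (x j) F + mlt (x' j) F) + t * mlt w F + r * ∑ i, (mlt (y i) F : ℝ) ≤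
      a * F.degreeOf 1 + b * F.degreeOf 0 := by
  classical
  have hcard : Fintype.card ((i : Fin 3) × (Fin (k i) × Fin (k i))) = Fintype.card (Fin n) := by
    rw [Fintype.card_sigma]
    simp only [Fintype.card_prod, Fintype.card_fin]
    rw [← hk]
    exact Finset.sum_congr rfl fun i _ => by ring
  let e : ((i : Fin 3) × (Fin (k i) × Fin (k i))) ≃ Fin n := Fintype.equivOfCardEq hcard
  have hy : ∑ i, (mlt (y i) F : ℝ) =
      ∑ i, ∑ x : Fin (k i) × Fin (k i), (mlt (y (e ⟨i, x⟩)) F : ℝ) := by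
    rw [← Equiv.sum_comp e, Fintype.sum_sigma]
  let f : Fin 5 ⊕ (Fin 5 ⊕ ((i : Fin 4) × (Fin ((Fin.cons 1 k : Fin 4 → ℕ) i) ×
      Fin ((Fin.cons 1 k : Fin 4 → ℕ) i)))) → Fin 5 ⊕ (Fin 5 ⊕ (Fin 1 ⊕ Fin n)) :=
    Sum.map id (Sum.map id (grp e))
  have hf : Function.Injective f :=
    Sum.map_injective.2 ⟨Function.injective_id, Sum.map_injective.2
      ⟨Function.injective_id, grp_injective e.injective⟩⟩
  have hz1 := hz.comp f hf
  have e1 : Sum.elim x (Sum.elim x' (Sum.elim (fun _ : Fin 1 => w) y)) ∘ f =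
      Sum.elim x (Sum.elim x' (Sum.elim (fun _ : Fin 1 => w) y ∘ grp e)) := by
    funext i
    rcases i with i | i | i <;> rfl
  rw [e1] at hz1
  have h1 := nef_groups hz1 a b c (Fin.cons t fun _ => r) ha hb hc (by
    intro i
    refine Fin.cases ?_ (fun i => ?_) i
    · exact ht
    · exact hr) hab (by
    rw [Fin.sum_univ_succ]
    simp only [Fin.cons_zero, Fin.cons_succ]
    have : ∑ i, (k i : ℝ) ^ 2 * r ^ 2 = n * r ^ 2 := by
      rw [← Finset.sum_mul, ← hk]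
      push_cast
      rfl
    rw [this]
    simpa using hq) hF
  rw [Fin.sum_univ_succ (f := fun i => (Fin.cons t (fun _ => r) : Fin 4 → ℝ) i * _)] at h1
  simp only [Fin.cons_zero, Fin.cons_succ] at h1
  have h2 : ∑ p : Fin ((Fin.cons 1 k : Fin 4 → ℕ) 0) × Fin ((Fin.cons 1 k : Fin 4 → ℕ) 0),
      (mlt ((Sum.elim (fun _ : Fin 1 => w) y ∘ grp e) ⟨0, p⟩) F : ℝ) = mlt w F := by
    have h3 : ∀ p : Fin ((Fin.cons 1 k : Fin 4 → ℕ) 0) × Fin ((Fin.cons 1 k : Fin 4 → ℕ) 0),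
        (mlt ((Sum.elim (fun _ : Fin 1 => w) y ∘ grp e) ⟨0, p⟩) F : ℝ) = mlt w F := fun p => rfl
    rw [Finset.sum_congr rfl fun p _ => h3 p]
    simp [Finset.sum_const]
  have h4 : ∀ i : Fin 3, ∑ p : Fin ((Fin.cons 1 k : Fin 4 → ℕ) i.succ) ×
      Fin ((Fin.cons 1 k : Fin 4 → ℕ) i.succ),
      (mlt ((Sum.elim (fun _ : Fin 1 => w) y ∘ grp e) ⟨i.succ, p⟩) F : ℝ) =
      ∑ p : Fin (k i) × Fin (k i), (mlt (y (e ⟨i, p⟩)) F : ℝ) := fun i => rfl
  rw [h2, Finset.sum_congr rfl fun i _ => congrArg (r * ·) (h4 i), ← Finset.mul_sum, ← hy] at h1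
  linarith

end Pool.Agent.Lib.MP_ed661f_ag.R
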