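import Pool.Agent.Lib.MP_ed661f_ag.R.Gen

/-!
The nef inequality for generic points with one more weighted point.
-/

set_option autoImplicit false

open MvPolynomial

namespace Pool.Agent.Lib.MP_ed661f_ag.R

open Pool.Agent.Lib.MP_ed661f_ag.E

/-- the nef inequality at `n + 1` generic points, `n` a sum of three squares: the weight `β` at
`y 0` and the weight `r` at the other points -/
theorem nef_genericW3 {n : ℕ} {k0 k1 k2 : ℕ} (hn : k0 ^ 2 + k1 ^ 2 + k2 ^ 2 = n)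
    {x x' : Fin 5 → Pt} {y : Fin (n + 1) → Pt}
    (hz : Generic (Sum.elim x (Sum.elim x' y)))
    (a b : ℝ) (c : Fin 5 → ℝ) (r β : ℝ) (ha : 0 ≤ a) (hb : 0 ≤ b)
    (hr : 0 ≤ r) (hβ : 0 ≤ β) (hc : ∀ j, 0 ≤ c j)
    (hab : a + b = ∑ j, c j) (hq : n * r ^ 2 + β ^ 2 ≤ 2 * (a * b - ∑ j, c j ^ 2))
    {F : Pol} (hF : F ≠ 0) :
    ∑ j, c j * (mlt (x j) F + mlt (x' j) F) + β * (mlt (y 0) F : ℝ) +
      r * ∑ i : Fin n, (mlt (y i.succ) F : ℝ) ≤ a * F.degreeOf 1 + b * F.degreeOf 0 := by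
  classical
  set k : Fin 4 → ℕ := ![k0, k1, k2, 1] with hk
  have hk3 : k 3 = 1 := rfl
  have hcard : Fintype.card ((i : Fin 4) × (Fin (k i) × Fin (k i))) =
      Fintype.card (Fin (n + 1)) := by
    rw [Fintype.card_sigma]
    simp only [Fintype.card_prod, Fintype.card_fin]
    rw [← hn, Fin.sum_univ_four]
    simp [hk]
    ring
  let e4 : ((i : Fin 4) × (Fin (k i) × Fin (k i))) ≃ Fin (n + 1) :=
    Fintype.equivOfCardEq hcard
  let o : (i : Fin 4) × (Fin (k i) × Fin (k i)) := ⟨3, (⟨0, by rw [hk3]; exact one_pos⟩,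
    ⟨0, by rw [hk3]; exact one_pos⟩)⟩
  let e : ((i : Fin 4) × (Fin (k i) × Fin (k i))) ≃ Fin (n + 1) := e4.trans (Equiv.swap (e4 o) 0)
  have heo : e o = 0 := by
    change Equiv.swap (e4 o) 0 (e4 o) = 0
    exact Equiv.swap_apply_left _ _
  let f : Ind k → Fin 5 ⊕ (Fin 5 ⊕ Fin (n + 1)) := Sum.map id (Sum.map id e)
  have hf : Function.Injective f :=
    Sum.map_injective.2 ⟨Function.injective_id, Sum.map_injective.2
      ⟨Function.injective_id, e.injective⟩⟩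
  obtain ⟨G, hG0, hGd, hG1, hG2, hG3⟩ := specialise k (hz.comp f hf) hF
  set ρ : Fin 4 → ℝ := ![r, r, r, β] with hρ
  have hρ0 : ∀ i, 0 ≤ ρ i := by
    intro i
    fin_cases i
    · exact hr
    · exact hr
    · exact hr
    · exact hβ
  have h1 := nef_special a b c (fun i => ρ i * k i) ha hb hab (by
    have : ∑ i, (ρ i * (k i : ℝ)) ^ 2 = n * r ^ 2 + β ^ 2 := by
      rw [Fin.sum_univ_four, ← hn]
      simp [hρ, hk]
      ring
    rw [this]
    exact hq) hG0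
  set W : Fin (n + 1) → ℝ := Fin.cons β (fun _ => r) with hW
  have hWe : ∀ (i : Fin 4) (x : Fin (k i) × Fin (k i)), W (e ⟨i, x⟩) = ρ i := by
    intro i x
    by_cases hi : i = 3
    · subst hi
      have h2 : (⟨3, x⟩ : (i : Fin 4) × (Fin (k i) × Fin (k i))) = o := by
        have hs : Subsingleton (Fin (k 3)) := by
          rw [hk3]
          infer_instance
        have : x = (⟨0, by rw [hk3]; exact one_pos⟩, ⟨0, by rw [hk3]; exact one_pos⟩) :=
          Prod.ext (Subsingleton.elim _ _) (Subsingleton.elim _ _)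
        rw [this]
      rw [h2, heo]
      rfl
    · have h2 : e ⟨i, x⟩ ≠ 0 := by
        rw [← heo]
        intro h
        have h3 := e.injective h
        exact hi (congrArg Sigma.fst h3)
      obtain ⟨j, hj⟩ := Fin.exists_succ_eq.2 h2
      rw [← hj]
      have h4 : ρ i = r := by
        fin_cases i
        · rfl
        · rfl
        · rfl
        · exact absurd rfl hi
      rw [h4]
      rfl
  have hy : β * (mlt (y 0) F : ℝ) + r * ∑ i : Fin n, (mlt (y i.succ) F : ℝ) =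
      ∑ i, ρ i * ∑ x : Fin (k i) × Fin (k i), (mlt (y (e ⟨i, x⟩)) F : ℝ) := by
    have h2 : β * (mlt (y 0) F : ℝ) + r * ∑ i : Fin n, (mlt (y i.succ) F : ℝ) =
        ∑ j : Fin (n + 1), W j * (mlt (y j) F : ℝ) := by
      rw [Fin.sum_univ_succ, Finset.mul_sum]
      rfl
    rw [h2, ← Equiv.sum_comp e, Fintype.sum_sigma]
    refine Finset.sum_congr rfl fun i _ => ?_
    rw [Finset.mul_sum]
    exact Finset.sum_congr rfl fun x _ => by rw [hWe]
  have h2 : β * (mlt (y 0) F : ℝ) + r * ∑ i : Fin n, (mlt (y i.succ) F : ℝ) ≤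
      ∑ i, ρ i * (k i : ℝ) * mlt (Y0 i) G := by
    rw [hy]
    refine Finset.sum_le_sum fun i _ => ?_
    have h3 : (((∑ x : Fin (k i) × Fin (k i), mlt (y (e ⟨i, x⟩)) F : ℕ)) : ℝ) ≤
        ((k i * mlt (Y0 i) G : ℕ) : ℝ) := by
      exact_mod_cast hG3 i
    push_cast at h3
    calc ρ i * ∑ x : Fin (k i) × Fin (k i), (mlt (y (e ⟨i, x⟩)) F : ℝ) ≤
        ρ i * ((k i : ℝ) * mlt (Y0 i) G) := mul_le_mul_of_nonneg_left h3 (hρ0 i)
      _ = ρ i * (k i : ℝ) * mlt (Y0 i) G := by ring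
  have h4 : ∑ j, c j * ((mlt (x j) F : ℝ) + mlt (x' j) F) ≤
      ∑ j, c j * ((mlt (P0 j) G : ℝ) + mlt (P1 j) G) := by
    refine Finset.sum_le_sum fun j _ => mul_le_mul_of_nonneg_left ?_ (hc j)
    have h5 : mlt (x j) F ≤ mlt (P0 j) G := hG1 j
    have h6 : mlt (x' j) F ≤ mlt (P1 j) G := hG2 j
    have h5' : ((mlt (x j) F : ℕ) : ℝ) ≤ mlt (P0 j) G := by exact_mod_cast h5
    have h6' : ((mlt (x' j) F : ℕ) : ℝ) ≤ mlt (P1 j) G := by exact_mod_cast h6
    linarith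
  have h7 : a * (G.degreeOf 1 : ℝ) ≤ a * F.degreeOf 1 :=
    mul_le_mul_of_nonneg_left (by exact_mod_cast hGd 1) ha
  have h8 : b * (G.degreeOf 0 : ℝ) ≤ b * F.degreeOf 0 :=
    mul_le_mul_of_nonneg_left (by exact_mod_cast hGd 0) hb
  linarith

end Pool.Agent.Lib.MP_ed661f_ag.R
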