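import Pool.Agent.Lib.MP_ed661f_ag.R.Defs

/-!
T9: curves through the points of a square grid. (Induction on the degree: split off the
horizontal grid lines which divide `h`; if none does, restrict to the horizontal grid lines.)
-/

set_option autoImplicit false

open MvPolynomial

namespace Pool.Agent.Lib.MP_ed661f_ag.R

open Pool.Agent.Lib.MP_ed661f_ag.E

/-- a polynomial which vanishes on the line `y = b` is divisible by `y - b` -/
theorem dvd_of_line {g : Pol} {b : ℂ}
    (h : aeval (![Polynomial.X, Polynomial.C b] : Fin 2 → Polynomial ℂ) g = 0) :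
    (X 1 - C b : Pol) ∣ g := by
  have h1 : ∀ f : Pol,
      Ideal.Quotient.mk (Ideal.span {(X 1 - C b : Pol)}) f =
      Ideal.Quotient.mk (Ideal.span {(X 1 - C b : Pol)})
        (Polynomial.aeval (X 0 : Pol)
          (aeval (![Polynomial.X, Polynomial.C b] : Fin 2 → Polynomial ℂ) f)) := by
    intro f
    have h2 : (Ideal.Quotient.mkₐ ℂ (Ideal.span {(X 1 - C b : Pol)})) =
        ((Ideal.Quotient.mkₐ ℂ (Ideal.span {(X 1 - C b : Pol)})).comp
          (Polynomial.aeval (X 0 : Pol))).comp
          (aeval (![Polynomial.X, Polynomial.C b] : Fin 2 → Polynomial ℂ)) := by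
      apply MvPolynomial.algHom_ext
      intro i
      fin_cases i
      · simp
      · simp only [Fin.mk_one, Fin.isValue, AlgHom.coe_comp, Function.comp_apply, aeval_X,
          Matrix.cons_val_one, Matrix.cons_val_fin_one, Polynomial.aeval_C, Ideal.Quotient.mkₐ_eq_mk]
        rw [← sub_eq_zero, ← map_sub, Ideal.Quotient.eq_zero_iff_mem]
        exact Ideal.mem_span_singleton_self _
    exact congrArg (fun φ => φ f) h2
  have h3 := h1 g
  rw [h, map_zero, map_zero, Ideal.Quotient.eq_zero_iff_mem, Ideal.mem_span_singleton] at h3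
  exact h3

theorem natDegree_line (g : Pol) (b : ℂ) :
    (aeval (![Polynomial.X, Polynomial.C b] : Fin 2 → Polynomial ℂ) g).natDegree ≤
      g.totalDegree := by
  rw [aeval_def, eval₂_eq']
  refine Polynomial.natDegree_sum_le_of_forall_le _ _ fun e he => ?_
  rw [Fin.prod_univ_two]
  simp only [Fin.isValue, Matrix.cons_val_zero, Matrix.cons_val_one, Matrix.cons_val_fin_one,
    Polynomial.algebraMap_eq]
  rw [← Polynomial.C_pow]
  refine (Polynomial.natDegree_C_mul_le _ _).trans ?_
  rw [mul_comm]
  refine (Polynomial.natDegree_C_mul_le _ _).trans ?_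
  rw [Polynomial.natDegree_X_pow]
  refine le_trans ?_ (le_totalDegree he)
  rw [Finsupp.sum_fintype _ _ (fun _ => rfl), Fin.sum_univ_two]
  exact Nat.le_add_right _ _

theorem mlt_line_le (p : Fin 2 → ℂ) (b : ℂ) :
    mlt p (X 1 - C b) ≤ if p 1 = b then 1 else 0 := by
  have h0 : (X 1 - C b : Pol) ≠ 0 := by
    intro h
    have := congrArg (MvPolynomial.eval (fun _ => b + 1)) h
    simp at this
  split_ifs with h
  · by_contra h1
    push Not at h1
    have h2 := (le_mlt_iff (p := p) h0 2).1 h1 (Finsupp.single 1 1) (by simp)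
    have h3 : tay p (X 1 - C b) = X 1 := by
      simp [tay, h]
    rw [h3, coeff_X, if_pos rfl] at h2
    exact one_ne_zero h2
  · by_contra h1
    push Not at h1
    have h2 := (mlt_pos_iff (p := p) h0).1 h1
    simp only [map_sub, eval_X, eval_C] at h2
    exact h (sub_eq_zero.1 h2)

theorem sum_line_le {g : Pol} (hg : g ≠ 0) (A : Finset ℂ) (b : ℂ)
    (hb : ¬ (X 1 - C b : Pol) ∣ g) :
    ∑ a ∈ A, mlt ![a, b] g ≤ g.totalDegree := by
  have h0 : aeval (![Polynomial.X, Polynomial.C b] : Fin 2 → Polynomial ℂ) g ≠ 0 :=
    fun h => hb (dvd_of_line h)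
  refine le_trans ?_ (natDegree_line g b)
  have h1 : ∏ a ∈ A, (Polynomial.X - Polynomial.C a) ^ mlt ![a, b] g ∣
      aeval (![Polynomial.X, Polynomial.C b] : Fin 2 → Polynomial ℂ) g := by
    refine Finset.prod_dvd_of_coprime ?_ fun a _ => ?_
    · intro a _ a' _ haa
      exact (Polynomial.pairwise_coprime_X_sub_C Function.injective_id haa).pow
    · have := X_sub_C_pow_dvd_of_mlt hg Polynomial.X (Polynomial.C b) a
      rw [Polynomial.eval_X, Polynomial.eval_C] at this
      exact this
  have h2 := Polynomial.natDegree_le_of_dvd h1 h0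
  rw [Polynomial.natDegree_prod_of_monic _ _ fun a _ => (Polynomial.monic_X_sub_C a).pow _] at h2
  simpa using h2

/-- **Grid lemma.** The sum of the multiplicities at the points of a grid with at most `k` rows and
`k` columns is at most `k` times the degree. -/
theorem grid_sets (A B : Finset ℂ) {k : ℕ} (hA : A.card ≤ k) (hB : B.card ≤ k) :
    ∀ (n : ℕ) {g : Pol}, g ≠ 0 → g.totalDegree = n →
      ∑ b ∈ B, ∑ a ∈ A, mlt ![a, b] g ≤ k * g.totalDegree := by
  intro n
  induction n using Nat.strong_induction_on with
  | _ n ih =>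
    intro g hg hn
    by_cases h : ∃ b ∈ B, (X 1 - C b : Pol) ∣ g
    · obtain ⟨b, hb, g', rfl⟩ := h
      have hl : (X 1 - C b : Pol) ≠ 0 := left_ne_zero_of_mul hg
      have hg' : g' ≠ 0 := right_ne_zero_of_mul hg
      have hd : (X 1 - C b : Pol).totalDegree = 1 := by
        apply le_antisymm
        · refine (totalDegree_sub _ _).trans ?_
          simp
        · by_contra hc
          push Not at hc
          have h1 : (X 1 - C b : Pol).totalDegree = 0 := by omega
          rw [totalDegree_eq_zero_iff_eq_C] at h1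
          have h2 := congrArg (MvPolynomial.eval (fun _ => b + 1)) h1
          have h3 := congrArg (MvPolynomial.eval (fun _ => b)) h1
          simp only [map_sub, eval_X, eval_C] at h2 h3
          rw [← h2] at h3
          simp at h3
      have hdeg : ((X 1 - C b) * g').totalDegree = 1 + g'.totalDegree := by
        rw [totalDegree_mul_of_isDomain hl hg', hd]
      have h1 := ih g'.totalDegree (by omega) hg' rfl
      rw [hdeg]
      calc ∑ b' ∈ B, ∑ a ∈ A, mlt ![a, b'] ((X 1 - C b) * g')
          = ∑ b' ∈ B, ∑ a ∈ A, mlt ![a, b'] (X 1 - C b) +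
            ∑ b' ∈ B, ∑ a ∈ A, mlt ![a, b'] g' := by
            rw [← Finset.sum_add_distrib]
            refine Finset.sum_congr rfl fun b' _ => ?_
            rw [← Finset.sum_add_distrib]
            exact Finset.sum_congr rfl fun a _ => mlt_mul hl hg'
        _ ≤ k + k * g'.totalDegree := by
            refine add_le_add ?_ h1
            refine le_trans (Finset.sum_le_sum fun b' _ => Finset.sum_le_sum fun a _ =>
              mlt_line_le ![a, b'] b) ?_
            simp only [Fin.isValue, Matrix.cons_val_one, Matrix.cons_val_fin_one, Finset.sum_const,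
              smul_eq_mul]
            rw [← Finset.mul_sum]
            simp only [Finset.sum_ite_eq', hb, if_true, mul_one]
            exact hA
        _ = k * (1 + g'.totalDegree) := by ring
    · push Not at h
      calc ∑ b ∈ B, ∑ a ∈ A, mlt ![a, b] g ≤ ∑ _b ∈ B, g.totalDegree :=
            Finset.sum_le_sum fun b hb => sum_line_le hg A b (h b hb)
        _ ≤ k * g.totalDegree := by
            rw [Finset.sum_const, smul_eq_mul]
            exact Nat.mul_le_mul_right _ hB


theorem grid (k : ℕ) {h : Pol} (hh : h ≠ 0) :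
    ∑ x : Fin k × Fin k, mlt ![(x.1 : ℕ), (x.2 : ℕ)] h ≤ k * h.totalDegree := by
  have hinj : Set.InjOn (fun n : ℕ => (n : ℂ)) (Finset.range k : Set ℕ) :=
    fun a _ b _ hab => Nat.cast_injective hab
  have h1 := grid_sets ((Finset.range k).image (fun n : ℕ => (n : ℂ)))
    ((Finset.range k).image (fun n : ℕ => (n : ℂ))) (k := k)
    (Finset.card_image_le.trans (Finset.card_range k).le)
    (Finset.card_image_le.trans (Finset.card_range k).le) _ hh rfl
  rw [Finset.sum_image hinj] at h1
  refine le_trans (le_of_eq ?_) h1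
  rw [Fintype.sum_prod_type, Finset.sum_comm, Finset.sum_range]
  refine Finset.sum_congr rfl fun b _ => ?_
  rw [Finset.sum_image hinj, Finset.sum_range]

end Pool.Agent.Lib.MP_ed661f_ag.R
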