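import Pool.Agent.Lib.MP_ed661f_ag.R.Surf
import Pool.Agent.Lib.MP_ed661f_ag.R.Bez

/-!
T13: the upper bound for Seshadri constants, by counting.
-/

open MvPolynomial

namespace Pool.Agent.Lib.MP_ed661f_ag.R

open Pool.Agent.Lib.MP_ed661f_ag.E

private theorem degL_mul (a b : ℕ) (c : Fin 5 → ℕ) (x x' : Fin 5 → Pt) {F G : Pol}
    (hF : F ≠ 0) (hG : G ≠ 0) :
    degL a b c x x' (F * G) = degL a b c x x' F + degL a b c x x' G := by
  unfold degL
  rw [degreeOf_mul_eq hF hG, degreeOf_mul_eq hF hG]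
  have h : ∑ j, (c j : ℝ) * ((mlt (x j) (F * G) : ℝ) + mlt (x' j) (F * G)) =
      ∑ j, (c j : ℝ) * ((mlt (x j) F : ℝ) + mlt (x' j) F) +
        ∑ j, (c j : ℝ) * ((mlt (x j) G : ℝ) + mlt (x' j) G) := by
    rw [← Finset.sum_add_distrib]
    refine Finset.sum_congr rfl fun j _ => ?_
    rw [mlt_mul hF hG, mlt_mul hF hG]
    push_cast
    ring
  rw [h]
  push_cast
  ring

private theorem mlt_sum_mul {n : ℕ} (y : Fin n → Pt) {F G : Pol} (hF : F ≠ 0) (hG : G ≠ 0) :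
    ∑ i, (mlt (y i) (F * G) : ℝ) = ∑ i, (mlt (y i) F : ℝ) + ∑ i, (mlt (y i) G : ℝ) := by
  rw [← Finset.sum_add_distrib]
  refine Finset.sum_congr rfl fun j _ => ?_
  rw [mlt_mul hF hG]
  push_cast
  ring

private theorem degL_unit (a b : ℕ) (c : Fin 5 → ℕ) (x x' : Fin 5 → Pt) {F : Pol}
    (hF : IsUnit F) : degL a b c x x' F = 0 := by
  unfold degL
  obtain ⟨r, hr, rfl⟩ := MvPolynomial.isUnit_iff_eq_C_of_isReduced.1 hF
  simp only [degreeOf_C, mlt_unit hF]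
  simp

/-- if `degL F ≥ R ∑ mult` for all irreducible `F` then for all `F ≠ 0` -/
theorem of_irreducible {a b : ℕ} {c : Fin 5 → ℕ} {x x' : Fin 5 → Pt} {n : ℕ} {y : Fin n → Pt}
    {R : ℝ} (h : ∀ F : Pol, Irreducible F → R * ∑ i, (mlt (y i) F : ℝ) ≤ degL a b c x x' F)
    {F : Pol} (hF : F ≠ 0) : R * ∑ i, (mlt (y i) F : ℝ) ≤ degL a b c x x' F := by
  induction F using WfDvdMonoid.induction_on_irreducible with
  | zero => exact absurd rfl hF
  | unit u hu =>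
    rw [degL_unit a b c x x' hu]
    simp [mlt_unit hu]
  | mul G P hG hP ih =>
    rw [degL_mul a b c x x' hP.ne_zero hG, mlt_sum_mul y hP.ne_zero hG, mul_add]
    exact add_le_add (h P hP) (ih hG)

/-- the curve given by counting -/
private theorem exists_curve {a b : ℕ} {c : Fin 5 → ℕ} {x x' : Fin 5 → Pt} {n : ℕ}
    {y : Fin n → Pt} (hinj : Function.Injective (Sum.elim x (Sum.elim x' y)))
    (hab : a + b = ∑ j, c j) (m ν : ℕ)
    (hcount : (n : ℝ) * (ν * (ν + 1)) <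
      (m : ℝ) ^ 2 * (2 * ((a : ℝ) * b - ∑ j, (c j : ℝ) ^ 2)) + 2) :
    ∃ F : Pol, F ≠ 0 ∧
      degL a b c x x' F ≤ m * (2 * ((a : ℝ) * b - ∑ j, (c j : ℝ) ^ 2)) ∧
      (n : ℝ) * ν ≤ ∑ i, (mlt (y i) F : ℝ) := by
  classical
  set z : Fin 5 ⊕ (Fin 5 ⊕ Fin n) → Pt := Sum.elim x (Sum.elim x' y) with hz
  set w : Fin 5 ⊕ (Fin 5 ⊕ Fin n) → ℕ :=
    Sum.elim (fun j => m * c j) (Sum.elim (fun j => m * c j) (fun _ => ν)) with hw
  set k : Pt → ℕ := Function.extend z w 0 with hk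
  have hkz : ∀ i, k (z i) = w i := fun i => hinj.extend_apply w 0 i
  have hsum : ∑ p ∈ Finset.univ.image z, k p * (k p + 1) = ∑ i, w i * (w i + 1) := by
    rw [Finset.sum_image (fun i _ j _ hij => hinj hij)]
    exact Finset.sum_congr rfl fun i _ => by rw [hkz]
  have hlt : ∑ p ∈ Finset.univ.image z, k p * (k p + 1) < 2 * ((m * a + 1) * (m * b + 1)) := by
    rw [hsum]
    have hreal : ((∑ i, w i * (w i + 1) : ℕ) : ℝ) < ((2 * ((m * a + 1) * (m * b + 1)) : ℕ) : ℝ) := by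
      simp only [hw, Fintype.sum_sum_type, Sum.elim_inl, Sum.elim_inr, Finset.sum_const,
        Finset.card_univ, Fintype.card_fin, smul_eq_mul]
      push_cast
      have h1 : ∑ j, (m : ℝ) * c j * (m * c j + 1) =
          (m : ℝ) ^ 2 * ∑ j, (c j : ℝ) ^ 2 + m * ∑ j, (c j : ℝ) := by
        rw [Finset.mul_sum, Finset.mul_sum, ← Finset.sum_add_distrib]
        exact Finset.sum_congr rfl fun j _ => by ring
      rw [h1]
      have h2 : ∑ j, (c j : ℝ) = a + b := by exact_mod_cast hab.symm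
      rw [h2]
      have h3 : 2 * (((m : ℝ) * a + 1) * (m * b + 1)) =
          (m : ℝ) ^ 2 * (2 * (a * b)) + 2 * (m * (a + b)) + 2 := by ring
      have h4 : (m : ℝ) ^ 2 * (2 * ((a : ℝ) * b - ∑ j, (c j : ℝ) ^ 2)) =
          (m : ℝ) ^ 2 * (2 * (a * b)) - 2 * ((m : ℝ) ^ 2 * ∑ j, (c j : ℝ) ^ 2) := by ring
      rw [h3]
      rw [h4] at hcount
      linarith
    exact_mod_cast hreal
  obtain ⟨F, hF0, hFa, hFb, hFm⟩ := exists_count (Finset.univ.image z) k hlt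
  have hm : ∀ i, w i ≤ mlt (z i) F := by
    intro i
    rw [← hkz i]
    exact hFm _ (Finset.mem_image_of_mem z (Finset.mem_univ i))
  refine ⟨F, hF0, ?_, ?_⟩
  · unfold degL
    have h1 : (F.degreeOf 1 : ℝ) ≤ m * b := by exact_mod_cast hFb
    have h2 : (F.degreeOf 0 : ℝ) ≤ m * a := by exact_mod_cast hFa
    have h3 : ∑ j, (c j : ℝ) * (m * c j + m * c j) ≤
        ∑ j, (c j : ℝ) * ((mlt (x j) F : ℝ) + mlt (x' j) F) := by
      refine Finset.sum_le_sum fun j _ => ?_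
      have h4 : ((m * c j : ℕ) : ℝ) ≤ mlt (x j) F := by exact_mod_cast hm (Sum.inl j)
      have h5 : ((m * c j : ℕ) : ℝ) ≤ mlt (x' j) F := by exact_mod_cast hm (Sum.inr (Sum.inl j))
      push_cast at h4 h5
      exact mul_le_mul_of_nonneg_left (add_le_add h4 h5) (Nat.cast_nonneg _)
    have h6 : ∑ j, (c j : ℝ) * (m * c j + m * c j) = 2 * m * ∑ j, (c j : ℝ) ^ 2 := by
      rw [Finset.mul_sum]
      exact Finset.sum_congr rfl fun j _ => by ring
    rw [h6] at h3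
    have h7 : (a : ℝ) * F.degreeOf 1 ≤ a * (m * b) :=
      mul_le_mul_of_nonneg_left h1 (Nat.cast_nonneg _)
    have h8 : (b : ℝ) * F.degreeOf 0 ≤ b * (m * a) :=
      mul_le_mul_of_nonneg_left h2 (Nat.cast_nonneg _)
    have h9 : (m : ℝ) * (2 * ((a : ℝ) * b - ∑ j, (c j : ℝ) ^ 2)) =
        a * (m * b) + b * (m * a) - 2 * m * ∑ j, (c j : ℝ) ^ 2 := by ring
    rw [h9]
    linarith
  · have h1 : ∑ i : Fin n, (ν : ℝ) ≤ ∑ i, (mlt (y i) F : ℝ) := by
      refine Finset.sum_le_sum fun i _ => ?_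
      exact_mod_cast hm (Sum.inr (Sum.inr i))
    simpa using h1

/-- `R ≤ sqrt (L² / n)` if `L · C ≥ R ∑ mult` for all curves -/
theorem upper {a b : ℕ} {c : Fin 5 → ℕ} {x x' : Fin 5 → Pt} {n : ℕ} {y : Fin n → Pt}
    (hn : 1 ≤ n) (hinj : Function.Injective (Sum.elim x (Sum.elim x' y)))
    (hab : a + b = ∑ j, c j) (hD : ∑ j, c j ^ 2 < a * b) {R : ℝ} (hR : 0 ≤ R)
    (h : ∀ F : Pol, Irreducible F → R * ∑ i, (mlt (y i) F : ℝ) ≤ degL a b c x x' F) :
    n * R ^ 2 ≤ 2 * ((a : ℝ) * b - ∑ j, (c j : ℝ) ^ 2) := by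
  by_contra hcon
  push Not at hcon
  set D : ℝ := 2 * ((a : ℝ) * b - ∑ j, (c j : ℝ) ^ 2) with hDdef
  have hDpos : 0 < D := by
    have : ((∑ j, c j ^ 2 : ℕ) : ℝ) < ((a * b : ℕ) : ℝ) := by exact_mod_cast hD
    push_cast at this
    rw [hDdef]
    linarith
  have hn0 : (0 : ℝ) < n := by exact_mod_cast hn
  have hRpos : 0 < R := by
    rcases hR.eq_or_lt with h0 | h0
    · rw [← h0] at hcon
      simp at hcon
      linarith
    · exact h0
  set σ : ℝ := D / (n * R) with hσ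
  have hσpos : 0 < σ := by positivity
  have hσD : σ * (n * R) = D := by
    rw [hσ]
    field_simp
  have hσR : σ < R := by
    rw [hσ, div_lt_iff₀ (by positivity)]
    nlinarith
  have hgap : 0 < D - n * σ ^ 2 := by
    have : n * σ ^ 2 < D := by
      calc n * σ ^ 2 = (n * σ) * σ := by ring
        _ < (n * σ) * R := by
          exact mul_lt_mul_of_pos_left hσR (by positivity)
        _ = D := by rw [← hσD]; ring
    linarith
  obtain ⟨m, hm⟩ := exists_nat_gt ((n * (3 * σ + 2)) / (D - n * σ ^ 2) + 1)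
  have hm1 : (1 : ℝ) < m := by
    have : 0 ≤ (n * (3 * σ + 2)) / (D - n * σ ^ 2) := by positivity
    linarith
  have hmg : n * (3 * σ + 2) < m * (D - n * σ ^ 2) := by
    rw [← div_lt_iff₀ hgap]
    linarith
  set ν : ℕ := ⌊(m : ℝ) * σ⌋₊ + 1 with hν
  have hν1 : (m : ℝ) * σ < ν := by
    rw [hν]
    push_cast
    exact Nat.lt_floor_add_one _
  have hν2 : (ν : ℝ) ≤ m * σ + 1 := by
    rw [hν]
    push_cast
    have := Nat.floor_le (a := (m : ℝ) * σ) (by positivity)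
    linarith
  have hcount : (n : ℝ) * (ν * (ν + 1)) < (m : ℝ) ^ 2 * D + 2 := by
    have hν0 : (0 : ℝ) ≤ ν := Nat.cast_nonneg _
    have h1 : (ν : ℝ) * (ν + 1) ≤ (m * σ + 1) * (m * σ + 2) := by
      apply mul_le_mul hν2 (by linarith) (by linarith) (by positivity)
    have h2 : (n : ℝ) * (ν * (ν + 1)) ≤ n * ((m * σ + 1) * (m * σ + 2)) :=
      mul_le_mul_of_nonneg_left h1 hn0.le
    have h3 : n * ((m * σ + 1) * (m * σ + 2)) = (m : ℝ) ^ 2 * (n * σ ^ 2) + n * (3 * m * σ + 2) := by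
      ring
    have h4 : n * (3 * m * σ + 2) ≤ (m : ℝ) * (n * (3 * σ + 2)) := by
      nlinarith
    have h5 : (m : ℝ) * (n * (3 * σ + 2)) < (m : ℝ) * (m * (D - n * σ ^ 2)) :=
      mul_lt_mul_of_pos_left hmg (by linarith)
    nlinarith
  obtain ⟨F, hF0, hF1, hF2⟩ := exists_curve hinj hab m ν hcount
  have h1 := of_irreducible h hF0
  have h2 : R * (n * ν) ≤ m * D := (mul_le_mul_of_nonneg_left hF2 hR).trans (h1.trans hF1)
  rw [← hσD] at h2
  have h3 : (m : ℝ) * (σ * (n * R)) < R * (n * ν) := by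
    have : (n * R) * (m * σ) < (n * R) * ν := mul_lt_mul_of_pos_left hν1 (by positivity)
    nlinarith
  linarith

/-- the Seshadri constant from the two inequalities -/
theorem seshadri_eq {a b : ℕ} {c : Fin 5 → ℕ} {x x' : Fin 5 → Pt} {n : ℕ} {y : Fin n → Pt}
    (hn : 1 ≤ n) (hinj : Function.Injective (Sum.elim x (Sum.elim x' y)))
    (hab : a + b = ∑ j, c j) (hD : ∑ j, c j ^ 2 < a * b)
    (h : ∀ F : Pol, F ≠ 0 → Real.sqrt (2 * ((a : ℝ) * b - ∑ j, (c j : ℝ) ^ 2) / n) *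
      ∑ i, (mlt (y i) F : ℝ) ≤ degL a b c x x' F) :
    seshadri a b c x x' y = Real.sqrt (2 * ((a : ℝ) * b - ∑ j, (c j : ℝ) ^ 2) / n) := by
  set D : ℝ := 2 * ((a : ℝ) * b - ∑ j, (c j : ℝ) ^ 2) with hDdef
  set s : ℝ := Real.sqrt (D / n) with hs
  have hn0 : (0 : ℝ) < n := by exact_mod_cast hn
  have hDpos : 0 < D := by
    have : ((∑ j, c j ^ 2 : ℕ) : ℝ) < ((a * b : ℕ) : ℝ) := by exact_mod_cast hD
    push_cast at this
    rw [hDdef]
    linarith
  have hs0 : 0 ≤ s := Real.sqrt_nonneg _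
  have hs2 : n * s ^ 2 = D := by
    rw [hs, Real.sq_sqrt (by positivity)]
    field_simp
  set T : Set ℝ := {r | ∃ F : Pol, Irreducible F ∧ (∃ i, eval (y i) F = 0) ∧
    r = degL a b c x x' F / ∑ i, (mlt (y i) F : ℝ)} with hT
  have hpos : ∀ F : Pol, F ≠ 0 → (∃ i, eval (y i) F = 0) → 0 < ∑ i, (mlt (y i) F : ℝ) := by
    rintro F hF ⟨i, hi⟩
    have h1 : 1 ≤ mlt (y i) F := (mlt_pos_iff hF).2 hi
    refine Finset.sum_pos' (fun j _ => Nat.cast_nonneg _) ⟨i, Finset.mem_univ _, ?_⟩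
    exact_mod_cast h1
  have hlow : ∀ r ∈ T, s ≤ r := by
    rintro r ⟨F, hF, hi, rfl⟩
    rw [le_div_iff₀ (hpos F hF.ne_zero hi)]
    exact h F hF.ne_zero
  have hbdd : BddBelow T := ⟨s, hlow⟩
  have key : ∀ R : ℝ, 0 ≤ R → (∀ r ∈ T, R ≤ r) → n * R ^ 2 ≤ D := by
    intro R hR hRT
    refine upper hn hinj hab hD hR fun F hF => ?_
    by_cases hi : ∃ i, eval (y i) F = 0
    · have := hRT _ ⟨F, hF, hi, rfl⟩
      rwa [le_div_iff₀ (hpos F hF.ne_zero hi)] at this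
    · have h0 : ∑ i, (mlt (y i) F : ℝ) = 0 := by
        refine Finset.sum_eq_zero fun i _ => ?_
        have : ¬ (1 ≤ mlt (y i) F) := fun h1 => hi ⟨i, (mlt_pos_iff hF.ne_zero).1 h1⟩
        have h2 : mlt (y i) F = 0 := by omega
        rw [h2]
        simp
      have h1 := h F hF.ne_zero
      rw [h0, mul_zero] at h1 ⊢
      exact h1
  have hne : T.Nonempty := by
    by_contra hemp
    rw [Set.not_nonempty_iff_eq_empty] at hemp
    have h1 := key (D + 1) (by linarith) (by rw [hemp]; intro r hr; exact absurd hr (Set.notMem_empty r))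
    have hn1 : (1 : ℝ) ≤ n := by exact_mod_cast hn
    nlinarith
  have hlow' : s ≤ sInf T := le_csInf hne hlow
  have hup : n * (sInf T) ^ 2 ≤ D := key _ (hs0.trans hlow') fun r hr => csInf_le hbdd hr
  have hle : sInf T ≤ s := by
    have h1 : (sInf T) ^ 2 ≤ s ^ 2 := by
      rw [← hs2] at hup
      exact le_of_mul_le_mul_left hup hn0
    exact abs_le_of_sq_le_sq' h1 hs0 |>.2
  exact le_antisymm hle hlow'

end Pool.Agent.Lib.MP_ed661f_ag.R
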