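import Pool.Agent.Lib.MP_ed661f_ag.R.Gen
import Pool.Agent.Lib.MP_ed661f_ag.R.Upper

/-!
T14: ampleness and the main theorem.
-/

open MvPolynomial

namespace Pool.Agent.Lib.MP_ed661f_ag.R

open Pool.Agent.Lib.MP_ed661f_ag.E

theorem Generic.injective {ι : Type} {z : ι → Pt} (hz : Generic z) : Function.Injective z := by
  intro i j h
  have h1 := AlgebraicIndependent.injective hz
  have h2 : (fun q : ι × Fin 2 => z q.1 q.2) (i, 0) = (fun q : ι × Fin 2 => z q.1 q.2) (j, 0) := by
    simp only [h]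
  exact congrArg Prod.fst (h1 h2)

theorem degL_eq (a b : ℕ) (c : Fin 5 → ℕ) (x x' : Fin 5 → Pt) (F : Pol) :
    degL a b c x x' F = a * F.degreeOf 1 + b * F.degreeOf 0 -
      ∑ j, (c j : ℝ) * ((mlt (x j) F : ℝ) + mlt (x' j) F) := rfl

/-- exchanging the first of the points `y` with one of the points `x` -/
theorem ample_aux {n : ℕ} {x x' : Fin 5 → Pt} {y : Fin (n + 1) → Pt}
    (hz : Generic (Sum.elim x (Sum.elim x' y))) {F : Pol} (hF : F ≠ 0) (j : Fin 5) :
    (Real.sqrt 2 - 1) * mlt (x j) F ≤ degL 2 3 (fun _ => 1) x x' F := by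
  classical
  -- the tuple with `x j` and `y 0` exchanged
  let f : Fin 5 ⊕ (Fin 5 ⊕ Fin 1) → Fin 5 ⊕ (Fin 5 ⊕ Fin (n + 1)) :=
    Sum.elim (fun i => if i = j then Sum.inr (Sum.inr 0) else Sum.inl i)
      (Sum.elim (fun i => Sum.inr (Sum.inl i)) (fun _ => Sum.inl j))
  have hf : Function.Injective f := by
    rintro (i | i | i) (k | k | k) h <;> simp only [f, Sum.elim_inl, Sum.elim_inr] at h
    · split_ifs at h with h1 h2 h2
      · rw [h1, h2]
      · exact congrArg Sum.inl (Sum.inl_injective h)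
    · split_ifs at h
      exact absurd h (by simp)
    · split_ifs at h with h1
      exact absurd (Sum.inl_injective h) h1
    · split_ifs at h
      exact absurd h (by simp)
    · exact congrArg Sum.inr (congrArg Sum.inl (Sum.inl_injective (Sum.inr_injective h)))
    · exact absurd h (by simp)
    · split_ifs at h with h1
      exact absurd (Sum.inl_injective h.symm) h1
    · exact absurd h (by simp)
    · rw [Subsingleton.elim i k]
  have h1 := hz.comp f hf
  have h2 : Sum.elim x (Sum.elim x' y) ∘ f =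
      Sum.elim (Function.update x j (y 0)) (Sum.elim x' (fun _ => x j)) := by
    funext i
    rcases i with i | i | i
    · simp only [f, Function.comp_apply, Sum.elim_inl, Function.update_apply]
      split_ifs <;> rfl
    · rfl
    · rfl
  rw [h2] at h1
  have h3 := nef_generic h1 2 3 (fun _ => 1) (Real.sqrt 2) (by norm_num) (by norm_num)
    (fun _ => by norm_num) (Real.sqrt_nonneg 2) (by simp; norm_num) (by
      rw [Real.sq_sqrt (by norm_num)]
      simp
      norm_num) hF
  rw [degL_eq]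
  have h4 : ∑ i, (1 : ℝ) * ((mlt (Function.update x j (y 0) i) F : ℝ) + mlt (x' i) F) =
      ∑ i, (1 : ℝ) * ((mlt (x i) F : ℝ) + mlt (x' i) F) - mlt (x j) F + mlt (y 0) F := by
    have h5 : ∀ g : Pt → ℝ, ∑ i, g (Function.update x j (y 0) i) =
        ∑ i, g (x i) - g (x j) + g (y 0) := by
      intro g
      have e1 := Finset.add_sum_erase Finset.univ (fun i => g (Function.update x j (y 0) i))
        (Finset.mem_univ j)
      have e2 := Finset.add_sum_erase Finset.univ (fun i => g (x i)) (Finset.mem_univ j)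
      have e3 : ∑ i ∈ Finset.univ.erase j, g (Function.update x j (y 0) i) =
          ∑ i ∈ Finset.univ.erase j, g (x i) := by
        refine Finset.sum_congr rfl fun i hi => ?_
        rw [Function.update_of_ne (Finset.ne_of_mem_erase hi)]
      simp only [Function.update_self] at e1
      linarith
    have h6 := h5 (fun p => (mlt p F : ℝ))
    simp only [one_mul, Finset.sum_add_distrib]
    linarith
  rw [h4] at h3
  simp only [Finset.univ_unique, Finset.sum_singleton] at h3
  push_cast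
  have h7 : (0 : ℝ) ≤ mlt (y 0) F := by positivity
  linarith

theorem generic_swap {n : ℕ} {x x' : Fin 5 → Pt} {y : Fin n → Pt}
    (hz : Generic (Sum.elim x (Sum.elim x' y))) : Generic (Sum.elim x' (Sum.elim x y)) := by
  let f : Fin 5 ⊕ (Fin 5 ⊕ Fin n) → Fin 5 ⊕ (Fin 5 ⊕ Fin n) :=
    Sum.elim (fun i => Sum.inr (Sum.inl i)) (Sum.elim Sum.inl (fun i => Sum.inr (Sum.inr i)))
  have hf : Function.Injective f := by
    rintro (i | i | i) (k | k | k) h <;> simp [f] at h <;> simp [h]
  have h1 := hz.comp f hf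
  have h2 : Sum.elim x (Sum.elim x' y) ∘ f = Sum.elim x' (Sum.elim x y) := by
    funext i
    rcases i with i | i | i <;> rfl
  rwa [h2] at h1

/-- the class `(2,3;1^10)` is positive on every curve -/
theorem ample_one {n : ℕ} (hn : 1 ≤ n) {x x' : Fin 5 → Pt} {y : Fin n → Pt}
    (hz : Generic (Sum.elim x (Sum.elim x' y))) {F : Pol} (hF : Irreducible F) :
    0 < degL 2 3 (fun _ => 1) x x' F := by
  obtain ⟨n, rfl⟩ : ∃ m, n = m + 1 := ⟨n - 1, by omega⟩
  have hs : 1 < Real.sqrt 2 := by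
    rw [Real.lt_sqrt (by norm_num)]
    norm_num
  have h1 : ∀ j, (Real.sqrt 2 - 1) * mlt (x j) F ≤ degL 2 3 (fun _ => 1) x x' F :=
    ample_aux hz hF.ne_zero
  have h2 : ∀ j, (Real.sqrt 2 - 1) * mlt (x' j) F ≤ degL 2 3 (fun _ => 1) x x' F := by
    intro j
    have h3 := ample_aux (generic_swap hz) hF.ne_zero j
    have h4 : degL 2 3 (fun _ => 1) x' x F = degL 2 3 (fun _ => 1) x x' F := by
      rw [degL_eq, degL_eq]
      congr 1
      refine Finset.sum_congr rfl fun i _ => ?_
      ring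
    rwa [h4] at h3
  by_contra hcon
  have h0 : ∀ j, mlt (x j) F = 0 := by
    intro j
    by_contra hne
    have : (1 : ℝ) ≤ mlt (x j) F := by exact_mod_cast Nat.one_le_iff_ne_zero.2 hne
    have := h1 j
    nlinarith
  have h0' : ∀ j, mlt (x' j) F = 0 := by
    intro j
    by_contra hne
    have : (1 : ℝ) ≤ mlt (x' j) F := by exact_mod_cast Nat.one_le_iff_ne_zero.2 hne
    have := h2 j
    nlinarith
  rw [degL_eq] at hcon
  simp only [h0, h0'] at hcon
  have hnc := not_const_of_irreducible hF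
  have h3 : 1 ≤ F.degreeOf 0 + F.degreeOf 1 := by omega
  have h4 : (1 : ℝ) ≤ F.degreeOf 0 + F.degreeOf 1 := by exact_mod_cast h3
  have h5 : (0 : ℝ) ≤ F.degreeOf 0 := by positivity
  have h6 : (0 : ℝ) ≤ F.degreeOf 1 := by positivity
  apply hcon
  push_cast
  simp only [add_zero, mul_zero, Finset.sum_const_zero, sub_zero]
  linarith

theorem ample {a b : ℕ} {c : Fin 5 → ℕ} (hab : a + b = ∑ j, c j) (hD : ∑ j, c j ^ 2 < a * b)
    {n : ℕ} (hn : 1 ≤ n) {x x' : Fin 5 → Pt} {y : Fin n → Pt}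
    (hc : ∀ j, 1 ≤ c j) (hz : Generic (Sum.elim x (Sum.elim x' y))) {F : Pol}
    (hF : Irreducible F) : 0 < degL a b c x x' F := by
  -- subtract a small multiple of the class `(2,3;1^10)`
  have hsum : 5 ≤ a + b := by
    rw [hab]
    calc 5 = ∑ _j : Fin 5, 1 := by simp
      _ ≤ ∑ j, c j := Finset.sum_le_sum fun j _ => hc j
  have habp : 0 < a * b := lt_of_le_of_lt (Nat.zero_le _) hD
  have ha : 1 ≤ a := Nat.pos_of_mul_pos_right habp |> fun h => by
    rcases Nat.eq_zero_or_pos a with h0 | h0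
    · simp [h0] at habp
    · exact h0
  have hb : 1 ≤ b := by
    rcases Nat.eq_zero_or_pos b with h0 | h0
    · simp [h0] at habp
    · exact h0
  have hD' : ∑ j, c j ^ 2 + 1 ≤ a * b := hD
  have hDr : ∑ j, (c j : ℝ) ^ 2 + 1 ≤ (a : ℝ) * b := by exact_mod_cast hD'
  have har : (1 : ℝ) ≤ a := by exact_mod_cast ha
  have hbr : (1 : ℝ) ≤ b := by exact_mod_cast hb
  have habr : (a : ℝ) + b = ∑ j, (c j : ℝ) := by exact_mod_cast hab
  set δ : ℝ := 1 / (3 * ((a : ℝ) + b)) with hδ
  have hpos : 0 < 3 * ((a : ℝ) + b) := by linarith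
  have hδ0 : 0 < δ := by positivity
  have hδ1 : δ * (3 * ((a : ℝ) + b)) = 1 := by
    rw [hδ]
    field_simp
  have hδ2 : δ ≤ 1 / 3 := by
    rw [hδ]
    apply one_div_le_one_div_of_le (by norm_num)
    have : (5 : ℝ) ≤ a + b := by exact_mod_cast hsum
    linarith
  have h1 := nef_generic hz ((a : ℝ) - 2 * δ) ((b : ℝ) - 3 * δ) (fun j => (c j : ℝ) - δ) 0
    (by linarith) (by linarith)
    (fun j => by
      have : (1 : ℝ) ≤ c j := by exact_mod_cast hc j
      linarith) le_rfl (by
      simp only [Finset.sum_sub_distrib, ← habr, Finset.sum_const, Finset.card_univ,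
        Fintype.card_fin]
      ring) (by
      have e1 : ∑ j, ((c j : ℝ) - δ) ^ 2 = ∑ j, (c j : ℝ) ^ 2 - 2 * δ * ∑ j, (c j : ℝ) + 5 * δ ^ 2 := by
        simp only [Fin.sum_univ_five]
        ring
      rw [e1, ← habr]
      nlinarith) hF.ne_zero
  have h2 := ample_one hn hz hF
  rw [degL_eq] at h2 ⊢
  have e2 : ∑ j, ((c j : ℝ) - δ) * ((mlt (x j) F : ℝ) + mlt (x' j) F) =
      ∑ j, (c j : ℝ) * ((mlt (x j) F : ℝ) + mlt (x' j) F) -
      δ * ∑ j, ((1 : ℕ) : ℝ) * ((mlt (x j) F : ℝ) + mlt (x' j) F) := by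
    rw [Finset.mul_sum, ← Finset.sum_sub_distrib]
    refine Finset.sum_congr rfl fun j _ => ?_
    push_cast
    ring
  rw [e2] at h1
  push_cast at h1 h2
  simp only [zero_mul, add_zero] at h1
  nlinarith [mul_pos hδ0 h2]

theorem main {a b : ℕ} {c : Fin 5 → ℕ} (hc : ∀ j, 1 ≤ c j) (hab : a + b = ∑ j, c j)
    (hD : ∑ j, c j ^ 2 < a * b) {n : ℕ} (hn : 1 ≤ n) {x x' : Fin 5 → Pt} {y : Fin n → Pt}
    (hz : Generic (Sum.elim x (Sum.elim x' y))) :
    (∀ F : Pol, Irreducible F → 0 < degL a b c x x' F) ∧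
      seshadri a b c x x' y = Real.sqrt (2 * ((a : ℝ) * b - ∑ j, (c j : ℝ) ^ 2) / n) := by
  refine ⟨fun F hF => ample hab hD hn hc hz hF, ?_⟩
  have hDr : ∑ j, (c j : ℝ) ^ 2 < (a : ℝ) * b := by exact_mod_cast hD
  have hnr : (0 : ℝ) < n := by exact_mod_cast hn
  refine seshadri_eq hn hz.injective hab hD fun F hF => ?_
  have h1 := nef_generic hz a b (fun j => (c j : ℝ))
    (Real.sqrt (2 * ((a : ℝ) * b - ∑ j, (c j : ℝ) ^ 2) / n)) (by positivity) (by positivity)
    (fun j => by positivity) (Real.sqrt_nonneg _) (by exact_mod_cast hab) (by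
      rw [Real.sq_sqrt (by
        apply div_nonneg _ hnr.le
        linarith)]
      rw [mul_div_cancel₀ _ hnr.ne']) hF
  rw [degL_eq]
  linarith

end Pool.Agent.Lib.MP_ed661f_ag.R
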