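import Pool.Agent.Lib.MP_ed661f_ag.R.Trans
import Pool.Agent.Lib.MP_ed661f_ag.R.Grid

/-!
T11: specialisation of generic points to the special configuration, `k i ^ 2` points going to the
`i`-th fixed point.
-/

set_option autoImplicit false

open MvPolynomial

namespace Pool.Agent.Lib.MP_ed661f_ag.R

open Pool.Agent.Lib.MP_ed661f_ag.E Pool.Agent.Lib.MP_6b2d39_ag

/-! ### polynomials with given coefficients -/

/-- the polynomial of `Box A B` with coefficients `c` -/
noncomputable def ofC {A B : ℕ} (c : Fin (A + 1) × Fin (B + 1) → ℂ) : Pol :=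
  ∑ j, monomial (Finsupp.single 0 (j.1 : ℕ) + Finsupp.single 1 (j.2 : ℕ)) (c j)

theorem expo_inj {a b a' b' : ℕ} (h : (Finsupp.single 0 a + Finsupp.single 1 b : Fin 2 →₀ ℕ) =
    Finsupp.single 0 a' + Finsupp.single 1 b') : a = a' ∧ b = b' := by
  have h0 := DFunLike.congr_fun h 0
  have h1 := DFunLike.congr_fun h 1
  simp at h0 h1
  exact ⟨h0, h1⟩

theorem coeff_ofC {A B : ℕ} (c : Fin (A + 1) × Fin (B + 1) → ℂ)
    (j : Fin (A + 1) × Fin (B + 1)) :
    coeff (Finsupp.single 0 (j.1 : ℕ) + Finsupp.single 1 (j.2 : ℕ)) (ofC c) = c j := by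
  unfold ofC
  rw [coeff_sum, Finset.sum_eq_single j]
  · rw [coeff_monomial, if_pos rfl]
  · intro i _ hij
    rw [coeff_monomial, if_neg]
    intro h
    obtain ⟨h1, h2⟩ := expo_inj h
    exact hij (Prod.ext (Fin.ext h1) (Fin.ext h2))
  · intro h
    exact absurd (Finset.mem_univ j) h

theorem ofC_mem {A B : ℕ} (c : Fin (A + 1) × Fin (B + 1) → ℂ) : ofC c ∈ Box A B := by
  unfold ofC
  refine Submodule.sum_mem _ fun j _ => ?_
  unfold Box
  rw [mem_restrictSupport_iff]
  intro e he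
  have h1 := support_monomial_subset (Finset.mem_coe.1 he)
  rw [Finset.mem_singleton] at h1
  rw [h1]
  have h2 := j.1.2
  have h3 := j.2.2
  constructor
  · simp only [Fin.isValue, Finsupp.coe_add, Pi.add_apply, Finsupp.single_eq_same, ne_eq,
      not_false_eq_true, Finsupp.single_eq_of_ne, zero_ne_one]
    omega
  · simp only [Fin.isValue, Finsupp.coe_add, Pi.add_apply, Finsupp.single_eq_same, ne_eq,
      one_ne_zero, not_false_eq_true, Finsupp.single_eq_of_ne]
    omega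

theorem coeff_tay_ofC {A B : ℕ} (c : Fin (A + 1) × Fin (B + 1) → ℂ) (p : Pt) (a b : ℕ) :
    coeff (Finsupp.single 0 a + Finsupp.single 1 b) (tay p (ofC c)) =
      ∑ j : Fin (A + 1) × Fin (B + 1), Transfer.entry (p 0) (p 1) a b j.1 j.2 * c j := by
  rw [coeff_tay (ofC_mem c)]
  exact Finset.sum_congr rfl fun j _ => by rw [coeff_ofC]

theorem expo_eq (e : Fin 2 →₀ ℕ) : e = Finsupp.single 0 (e 0) + Finsupp.single 1 (e 1) := by
  ext i
  fin_cases i <;> simp

theorem le_mlt_ofC {A B : ℕ} {c : Fin (A + 1) × Fin (B + 1) → ℂ} (hc : ofC c ≠ 0) {p : Pt} {m : ℕ}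
    (h : ∀ a b, a + b < m →
      ∑ j : Fin (A + 1) × Fin (B + 1), Transfer.entry (p 0) (p 1) a b j.1 j.2 * c j = 0) :
    m ≤ mlt p (ofC c) := by
  rw [le_mlt_iff hc]
  intro e he
  rw [Bz.degree_two'] at he
  rw [expo_eq e, coeff_tay_ofC]
  exact h _ _ he

/-! ### the substitution `s = t z` -/

theorem one_var {R : Type*} [CommRing R] (x y t : R) (A a s : ℕ) (hs : s ≤ A) :
    ∑ i : Fin (A + 1), (x ^ ((i : ℕ) - a) * (((i : ℕ).choose a : ℕ) : R)) * (t ^ (i : ℕ) *
      (y ^ (s - (i : ℕ)) * ((s.choose (i : ℕ) : ℕ) : R))) =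
      t ^ a * ((y + t * x) ^ (s - a) * ((s.choose a : ℕ) : R)) := by
  have h1 : ((((Polynomial.X : Polynomial R) + Polynomial.C y) ^ s).comp
      (Polynomial.C t * (Polynomial.X + Polynomial.C x))).coeff a =
      ∑ i : Fin (A + 1), (x ^ ((i : ℕ) - a) * (((i : ℕ).choose a : ℕ) : R)) * (t ^ (i : ℕ) *
      (y ^ (s - (i : ℕ)) * ((s.choose (i : ℕ) : ℕ) : R))) := by
    have h2 : (((Polynomial.X : Polynomial R) + Polynomial.C y) ^ s).natDegree < A + 1 := by
      have h3 : ((Polynomial.X : Polynomial R) + Polynomial.C y).natDegree ≤ 1 := by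
        rw [Polynomial.natDegree_add_C]
        exact Polynomial.natDegree_X_le
      have h4 := Polynomial.natDegree_pow_le_of_le s h3
      omega
    rw [Polynomial.comp, Polynomial.eval₂_eq_sum_range' Polynomial.C h2,
      Polynomial.finsetSum_coeff, Finset.sum_range]
    refine Finset.sum_congr rfl fun i _ => ?_
    rw [Polynomial.coeff_X_add_C_pow, mul_pow, ← Polynomial.C_pow, Polynomial.coeff_C_mul,
      Polynomial.coeff_C_mul, Polynomial.coeff_X_add_C_pow]
    ring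
  have h3 : ((((Polynomial.X : Polynomial R) + Polynomial.C y) ^ s).comp
      (Polynomial.C t * (Polynomial.X + Polynomial.C x))) =
      ((Polynomial.X + Polynomial.C (y + t * x)) ^ s).comp (Polynomial.C t * Polynomial.X) := by
    simp only [Polynomial.pow_comp, Polynomial.add_comp, Polynomial.X_comp, Polynomial.C_comp]
    congr 1
    rw [Polynomial.C_add, Polynomial.C_mul]
    ring
  rw [← h1, h3, Polynomial.comp_C_mul_X_coeff, Polynomial.coeff_X_add_C_pow]
  ring

theorem two_var {R : Type*} [CommRing R] (x0 x1 y0 y1 t : R) (A B a b s u : ℕ) (hs : s ≤ A)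
    (hu : u ≤ B) :
    ∑ i : Fin (A + 1) × Fin (B + 1), Transfer.entry x0 x1 a b i.1 i.2 *
      (t ^ ((i.1 : ℕ) + (i.2 : ℕ)) * Transfer.entry y0 y1 i.1 i.2 s u) =
      t ^ (a + b) * Transfer.entry (y0 + t * x0) (y1 + t * x1) a b s u := by
  have h0 := one_var x0 y0 t A a s hs
  have h1 := one_var x1 y1 t B b u hu
  unfold Transfer.entry
  rw [pow_add, mul_mul_mul_comm, ← h0, ← h1, Finset.sum_mul_sum, Fintype.sum_prod_type]
  refine Finset.sum_congr rfl fun i _ => Finset.sum_congr rfl fun j _ => ?_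
  rw [pow_add]
  ring

/-- the Taylor coefficients at `y` -/
noncomputable def tc {A B : ℕ} (c : Fin (A + 1) × Fin (B + 1) → Polynomial ℂ) (y : Pt)
    (i : Fin (A + 1) × Fin (B + 1)) : Polynomial ℂ :=
  ∑ j : Fin (A + 1) × Fin (B + 1),
    Transfer.entry (Polynomial.C (y 0)) (Polynomial.C (y 1)) i.1 i.2 j.1 j.2 * c j

theorem shift {A B : ℕ} (c : Fin (A + 1) × Fin (B + 1) → Polynomial ℂ) (y x : Pt) (a b : ℕ) :
    ∑ i : Fin (A + 1) × Fin (B + 1),
      Transfer.entry (Polynomial.C (x 0)) (Polynomial.C (x 1)) a b i.1 i.2 *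
        (Polynomial.X ^ ((i.1 : ℕ) + (i.2 : ℕ)) * tc c y i) =
      Polynomial.X ^ (a + b) * ∑ j : Fin (A + 1) × Fin (B + 1),
        Transfer.entry (Polynomial.C (y 0) + Polynomial.X * Polynomial.C (x 0))
          (Polynomial.C (y 1) + Polynomial.X * Polynomial.C (x 1)) a b j.1 j.2 * c j := by
  unfold tc
  rw [Finset.mul_sum]
  simp_rw [Finset.mul_sum]
  rw [Finset.sum_comm]
  refine Finset.sum_congr rfl fun j _ => ?_
  have h := two_var (Polynomial.C (x 0)) (Polynomial.C (x 1)) (Polynomial.C (y 0))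
    (Polynomial.C (y 1)) (Polynomial.X) A B a b j.1 j.2 (by omega) (by omega)
  rw [← mul_assoc, ← h, Finset.sum_mul]
  exact Finset.sum_congr rfl fun i _ => by ring

theorem entry_C (x : Pt) (a b s u : ℕ) :
    Transfer.entry (Polynomial.C (x 0)) (Polynomial.C (x 1)) a b s u =
      Polynomial.C (Transfer.entry (x 0) (x 1) a b s u) :=
  (Transfer.map_entry Polynomial.C (x 0) (x 1) a b s u).symm

/-- the multiplicities of the points of a grid which collapses to `y` -/
theorem collapse {A B : ℕ} (c : Fin (A + 1) × Fin (B + 1) → Polynomial ℂ)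
    (hG : ofC (fun j => (c j).eval 0) ≠ 0) (y : Pt) (k : ℕ) (m : Fin k × Fin k → ℕ)
    (h : ∀ x a b, a + b < m x → ∑ j : Fin (A + 1) × Fin (B + 1),
      Transfer.entry (Polynomial.C (y 0) + Polynomial.X * Polynomial.C ((x.1 : ℕ) : ℂ))
        (Polynomial.C (y 1) + Polynomial.X * Polynomial.C ((x.2 : ℕ) : ℂ)) a b j.1 j.2 * c j
        = 0) :
    ∑ x, m x ≤ k * mlt y (ofC fun j => (c j).eval 0) := by
  obtain ⟨M, hM⟩ : ∃ M, M = mlt y (ofC fun j => (c j).eval 0) := ⟨_, rfl⟩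
  rw [← hM]
  -- the Taylor coefficients at `t = 0`
  have h0 : ∀ a b : ℕ, coeff (Finsupp.single 0 a + Finsupp.single 1 b)
      (tay y (ofC fun j => (c j).eval 0)) =
      (∑ j : Fin (A + 1) × Fin (B + 1),
        Transfer.entry (Polynomial.C (y 0)) (Polynomial.C (y 1)) a b j.1 j.2 * c j).coeff 0 := by
    intro a b
    rw [coeff_tay_ofC, Polynomial.finsetSum_coeff]
    refine Finset.sum_congr rfl fun j _ => ?_
    rw [entry_C, Polynomial.coeff_C_mul, Polynomial.coeff_zero_eq_eval_zero]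
  -- a Taylor coefficient of order `M` which does not vanish
  obtain ⟨e, he, he0⟩ : ∃ e : Fin 2 →₀ ℕ, e 0 + e 1 = M ∧
      coeff e (tay y (ofC fun j => (c j).eval 0)) ≠ 0 := by
    have h1 : ¬ (M + 1 ≤ mlt y (ofC fun j => (c j).eval 0)) := by omega
    rw [le_mlt_iff hG] at h1
    push Not at h1
    obtain ⟨e, he, he0⟩ := h1
    refine ⟨e, ?_, he0⟩
    rw [Bz.degree_two'] at he
    by_contra hne
    exact he0 ((le_mlt_iff (p := y) hG M).1 hM.le e (by rw [Bz.degree_two']; omega))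
  have hbox : e 0 ≤ A ∧ e 1 ≤ B := by
    rw [expo_eq e, coeff_tay_ofC] at he0
    obtain ⟨j, -, hj⟩ := Finset.exists_ne_zero_of_sum_ne_zero he0
    have hj1 := left_ne_zero_of_mul hj
    unfold Transfer.entry at hj1
    have h2 := right_ne_zero_of_mul (left_ne_zero_of_mul hj1)
    have h3 := right_ne_zero_of_mul (right_ne_zero_of_mul hj1)
    rw [Nat.cast_ne_zero] at h2 h3
    have h4 : e 0 ≤ (j.1 : ℕ) := by
      by_contra hc
      exact h2 (Nat.choose_eq_zero_of_lt (not_le.1 hc))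
    have h5 : e 1 ≤ (j.2 : ℕ) := by
      by_contra hc
      exact h3 (Nat.choose_eq_zero_of_lt (not_le.1 hc))
    have h6 := j.1.2
    have h7 := j.2.2
    omega
  -- the polynomial in `z`
  obtain ⟨hc, hhc⟩ : ∃ hc : Fin (A + 1) × Fin (B + 1) → ℂ,
      hc = fun i => (Polynomial.X ^ ((i.1 : ℕ) + (i.2 : ℕ)) * tc c y i).coeff M := ⟨_, rfl⟩
  have hne : ofC hc ≠ 0 := by
    intro hz
    have h1 := coeff_ofC hc (⟨e 0, by omega⟩, ⟨e 1, by omega⟩)
    rw [hz, coeff_zero, hhc] at h1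
    simp only at h1
    rw [he, Polynomial.coeff_X_pow_mul', if_pos le_rfl, Nat.sub_self] at h1
    apply he0
    rw [expo_eq e, h0]
    exact h1.symm
  have hdeg : (ofC hc).totalDegree ≤ M := by
    unfold ofC
    refine totalDegree_finsetSum_le fun j _ => ?_
    by_cases hj : hc j = 0
    · rw [hj, monomial_zero, totalDegree_zero]
      exact Nat.zero_le _
    · refine (totalDegree_monomial_le _ _).trans ?_
      rw [hhc] at hj
      simp only at hj
      rw [Polynomial.coeff_X_pow_mul'] at hj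
      have h1 : (j.1 : ℕ) + (j.2 : ℕ) ≤ M := by
        by_contra hcon
        exact hj (if_neg hcon)
      rw [Finsupp.sum_fintype _ _ (fun _ => rfl), Fin.sum_univ_two]
      simpa using h1
  have hm : ∀ x : Fin k × Fin k, m x ≤ mlt ![((x.1 : ℕ) : ℂ), ((x.2 : ℕ) : ℂ)] (ofC hc) := by
    intro x
    refine le_mlt_ofC hne fun a b hab => ?_
    have h1 := shift c y ![((x.1 : ℕ) : ℂ), ((x.2 : ℕ) : ℂ)] a b
    have h2 := h x a b hab
    simp only [Fin.isValue, Matrix.cons_val_zero, Matrix.cons_val_one,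
      Matrix.cons_val_fin_one] at h1 ⊢
    rw [h2, mul_zero] at h1
    have h3 := congrArg (fun p => Polynomial.coeff p M) h1
    simp only [Polynomial.finsetSum_coeff, Polynomial.coeff_zero] at h3
    rw [← h3]
    refine Finset.sum_congr rfl fun i _ => ?_
    have h4 := entry_C ![((x.1 : ℕ) : ℂ), ((x.2 : ℕ) : ℂ)] a b i.1 i.2
    simp only [Fin.isValue, Matrix.cons_val_zero, Matrix.cons_val_one,
      Matrix.cons_val_fin_one] at h4
    rw [h4, Polynomial.coeff_C_mul, hhc]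
  calc ∑ x, m x ≤ ∑ x : Fin k × Fin k, mlt ![((x.1 : ℕ) : ℂ), ((x.2 : ℕ) : ℂ)] (ofC hc) :=
        Finset.sum_le_sum fun x _ => hm x
    _ ≤ k * (ofC hc).totalDegree := grid k hne
    _ ≤ k * M := Nat.mul_le_mul_left _ hdeg

/-! ### the theorem -/

/-- indices of the points: five, five, and `k i ^ 2` for `i = 0, .., 3` -/
abbrev Ind (k : Fin 4 → ℕ) : Type := Fin 5 ⊕ Fin 5 ⊕ (i : Fin 4) × (Fin (k i) × Fin (k i))

/-- the positions of the points over `ℂ[t]` -/
noncomputable def wpt (k : Fin 4 → ℕ) : Ind k → Fin 2 → Polynomial ℂ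
  | Sum.inl j => fun l => Polynomial.C (P0 j l)
  | Sum.inr (Sum.inl j) => fun l => Polynomial.C (P1 j l)
  | Sum.inr (Sum.inr ⟨i, x⟩) =>
      ![Polynomial.C (Y0 i 0) + Polynomial.X * Polynomial.C ((x.1 : ℕ) : ℂ),
        Polynomial.C (Y0 i 1) + Polynomial.X * Polynomial.C ((x.2 : ℕ) : ℂ)]

theorem eval_zero_cond {A B : ℕ} (c : Fin (A + 1) × Fin (B + 1) → Polynomial ℂ) (p : Pt) (a b : ℕ)
    (h : ∑ j : Fin (A + 1) × Fin (B + 1),
      Transfer.entry (Polynomial.C (p 0)) (Polynomial.C (p 1)) a b j.1 j.2 * c j = 0) :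
    ∑ j : Fin (A + 1) × Fin (B + 1), Transfer.entry (p 0) (p 1) a b j.1 j.2 * (c j).eval 0 = 0 := by
  have h1 := congrArg (Polynomial.eval 0) h
  rw [Polynomial.eval_finsetSum, Polynomial.eval_zero] at h1
  refine Eq.trans ?_ h1
  refine Finset.sum_congr rfl fun j _ => ?_
  rw [entry_C, Polynomial.eval_mul, Polynomial.eval_C]

theorem specialise (k : Fin 4 → ℕ) {z : Ind k → Pt} (hz : Generic z) {F : Pol} (hF : F ≠ 0) :
    ∃ G : Pol, G ≠ 0 ∧ (∀ i, G.degreeOf i ≤ F.degreeOf i) ∧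
      (∀ j, mlt (z (Sum.inl j)) F ≤ mlt (P0 j) G) ∧
      (∀ j, mlt (z (Sum.inr (Sum.inl j))) F ≤ mlt (P1 j) G) ∧
      ∀ i, ∑ x : Fin (k i) × Fin (k i), mlt (z (Sum.inr (Sum.inr ⟨i, x⟩))) F ≤
        k i * mlt (Y0 i) G := by
  have hbox : F ∈ Box (F.degreeOf 0) (F.degreeOf 1) := mem_Box.2 ⟨le_rfl, le_rfl⟩
  obtain ⟨c, ⟨j0, hj0⟩, hc⟩ := transfer_t hz hbox hF (fun i => mlt (z i) F) (fun _ => le_rfl)
    (wpt k)
  have hG : ofC (fun j => (c j).eval 0) ≠ 0 := by
    intro h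
    have := coeff_ofC (fun j => (c j).eval 0) j0
    rw [h, coeff_zero] at this
    exact hj0 this.symm
  refine ⟨ofC fun j => (c j).eval 0, hG, ?_, ?_, ?_, ?_⟩
  · have h1 := mem_Box.1 (ofC_mem fun j => (c j).eval 0)
    intro i
    fin_cases i
    · exact h1.1
    · exact h1.2
  · intro j
    refine le_mlt_ofC hG fun a b hab => eval_zero_cond c _ a b ?_
    exact hc (Sum.inl j) a b hab
  · intro j
    refine le_mlt_ofC hG fun a b hab => eval_zero_cond c _ a b ?_
    exact hc (Sum.inr (Sum.inl j)) a b hab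
  · intro i
    refine collapse c hG (Y0 i) (k i) _ fun x a b hab => ?_
    exact hc (Sum.inr (Sum.inr ⟨i, x⟩)) a b hab

end Pool.Agent.Lib.MP_ed661f_ag.R
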