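import Mathlib

/-!
The statement: the surface `X`, the blow-up of `ℙ¹ × ℙ¹` in ten points `x j`, `x' j`
(`j = 0, .., 4`) of the chart `ℂ²` of `ℙ¹ × ℙ¹`, its irreducible curves, the line bundle
`L = O(a,b) - ∑ c_j (E_j + E'_j)`, intersection numbers, and Seshadri constants at points of the
chart `ℂ²`.
-/

open MvPolynomial

namespace Pool.Agent.Lib.MP_ed661f_ag.R

/-- The multiplicity at `p` of the affine curve `F = 0`: the order of the Taylor expansion of `F`
at `p`. -/
noncomputable def multAt (p : Fin 2 → ℂ) (F : MvPolynomial (Fin 2) ℂ) : ℕ :=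
  (((aeval (fun i => X i + C (p i)) F : MvPolynomial (Fin 2) ℂ) :
    MvPowerSeries (Fin 2) ℂ).order).toNat

/-- The irreducible curves on the blow-up of `ℙ¹ × ℙ¹` in ten points of `ℂ²`: the exceptional
curves `E_j` over `x j` and `E'_j` over `x' j`, the fibres `u = ∞` and `v = ∞`, and the strict
transforms of the closures of the affine curves `F(u,v) = 0`, `F` irreducible. -/
inductive Curve
  | exc (j : Fin 5)
  | exc' (j : Fin 5)
  | fibreU
  | fibreV
  | aff (F : MvPolynomial (Fin 2) ℂ) (hF : Irreducible F)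

/-- The intersection number `L · C`, `L = O(a,b) - ∑ c_j (E_j + E'_j)`: it is `c_j` for `E_j` and
`E'_j`, `b` for `u = ∞`, `a` for `v = ∞`, and `a deg_v F + b deg_u F - ∑ c_j (mult_{x j} F +
mult_{x' j} F)` for the curve `F = 0`, which has bidegree `(deg_u F, deg_v F)`. -/
noncomputable def inter (a b : ℕ) (c : Fin 5 → ℕ) (x x' : Fin 5 → Fin 2 → ℂ) (D : Curve) : ℝ :=
  Curve.rec (motive := fun _ => ℝ) (fun j => (c j : ℝ)) (fun j => (c j : ℝ)) (b : ℝ) (a : ℝ)
    (fun F _ => a * F.degreeOf 1 + b * F.degreeOf 0 -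
      ∑ j, c j * ((multAt (x j) F : ℝ) + multAt (x' j) F)) D

/-- The self-intersection number of `L`. -/
def selfInter (a b : ℕ) (c : Fin 5 → ℕ) : ℤ := 2 * a * b - 2 * ∑ j, (c j : ℤ) ^ 2

/-- The multiplicity of a curve at a point of the chart `ℂ²` different from the `x j`, `x' j`. -/
noncomputable def Curve.mult (p : Fin 2 → ℂ) (D : Curve) : ℕ :=
  Curve.rec (motive := fun _ => ℕ) (fun _ => 0) (fun _ => 0) 0 0 (fun F _ => multAt p F) D

/-- The Seshadri constant of `L` at the points `y 1, .., y n`: the infimum of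
`L · C / ∑ mult_{y i} C` over the irreducible curves through at least one of the points. -/
noncomputable def seshadriX (a b : ℕ) (c : Fin 5 → ℕ) (x x' : Fin 5 → Fin 2 → ℂ) {n : ℕ}
    (y : Fin n → Fin 2 → ℂ) : ℝ :=
  sInf {r | ∃ D : Curve, 0 < ∑ i, D.mult (y i) ∧
    r = inter a b c x x' D / (∑ i, D.mult (y i) : ℕ)}

/-- Very general points of `ℂ²`: all coordinates together are algebraically independent over `ℚ`
(such tuples form the complement of countably many proper closed subsets). -/
def VeryGeneral {ι : Type} (z : ι → Fin 2 → ℂ) : Prop :=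
  AlgebraicIndependent ℚ (fun q : ι × Fin 2 => z q.1 q.2)

end Pool.Agent.Lib.MP_ed661f_ag.R
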