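import Pool.Agent.Lib.MP_ed661f_ag.R.Defs
import Pool.Agent.Lib.MP_6b2d39_ag.Transfer

/-!
T10: from generic points to arbitrary points over any field of characteristic zero (minors;
compare `E.Generic`), and clearing denominators over `ℂ[t]`.
-/

open MvPolynomial

namespace Pool.Agent.Lib.MP_ed661f_ag.R

open Pool.Agent.Lib.MP_ed661f_ag.E Pool.Agent.Lib.MP_6b2d39_ag

/-- points whose coordinates are algebraically independent over `ℚ` -/
def Generic {ι : Type} (z : ι → Pt) : Prop :=
  AlgebraicIndependent ℚ (fun q : ι × Fin 2 => z q.1 q.2)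

private theorem exp_iff (n : Fin 2 →₀ ℕ) (a b : ℕ) :
    n = Finsupp.single 0 a + Finsupp.single 1 b ↔ n 0 = a ∧ n 1 = b := by
  constructor
  · rintro rfl
    simp
  · rintro ⟨h0, h1⟩
    ext i
    fin_cases i
    · simpa using h0
    · simpa using h1

private theorem zero_pow_choose (s a : ℕ) :
    ((0 : ℂ) ^ (s - a) * (s.choose a : ℂ)) = if s = a then 1 else 0 := by
  rcases lt_trichotomy s a with h | h | h
  · rw [Nat.choose_eq_zero_of_lt h, if_neg h.ne, Nat.cast_zero, mul_zero]
  · subst h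
    simp
  · rw [if_neg h.ne', zero_pow (by omega), zero_mul]

private theorem coeff_Th00 (g : Pol) (a b : ℕ) :
    ((Transfer.Th (0 : ℂ) 0 g).coeff a).coeff b =
      coeff (Finsupp.single 0 a + Finsupp.single 1 b) g := by
  induction g using MvPolynomial.induction_on' with
  | monomial n c =>
    rw [Transfer.coeff_Th_monomial, Transfer.entry, zero_pow_choose, zero_pow_choose,
      coeff_monomial]
    simp only [exp_iff]
    by_cases h0 : n 0 = a <;> by_cases h1 : n 1 = b <;> simp [h0, h1]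
  | add p q hp hq =>
    rw [map_add, Polynomial.coeff_add, Polynomial.coeff_add, hp, hq, coeff_add]

private theorem Th_tay (p : Pt) (f : Pol) :
    Transfer.Th (0 : ℂ) 0 (tay p f) = Transfer.Th (p 0) (p 1) f := by
  have h : (Transfer.Th (0 : ℂ) 0).comp
      (aeval (fun i => X i + C (p i)) : Pol →ₐ[ℂ] Pol).toRingHom = Transfer.Th (p 0) (p 1) := by
    apply MvPolynomial.ringHom_ext
    · intro r
      simp [Transfer.Th]
    · intro i
      fin_cases i <;> simp [Transfer.Th]
  exact congrArg (fun φ => φ f) h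

private noncomputable abbrev xp {A B : ℕ} (i : Fin (A + 1) × Fin (B + 1)) : Fin 2 →₀ ℕ :=
  Finsupp.single 0 (i.1 : ℕ) + Finsupp.single 1 (i.2 : ℕ)

private theorem eq_sum_box {A B : ℕ} {F : Pol} (hF : F ∈ Box A B) :
    F = ∑ i : Fin (A + 1) × Fin (B + 1), monomial (xp i) (coeff (xp i) F) := by
  ext n
  rw [coeff_sum]
  simp only [coeff_monomial]
  by_cases hn : n 0 ≤ A ∧ n 1 ≤ B
  · let i : Fin (A + 1) × Fin (B + 1) := (⟨n 0, by omega⟩, ⟨n 1, by omega⟩)
    have hi : xp i = n := ((exp_iff n (n 0) (n 1)).2 ⟨rfl, rfl⟩).symm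
    rw [Finset.sum_eq_single i]
    · rw [if_pos hi, hi]
    · intro j _ hj
      rw [if_neg]
      intro h
      have h2 := (exp_iff n _ _).1 h.symm
      exact hj (Prod.ext (Fin.ext h2.1.symm) (Fin.ext h2.2.symm))
    · simp
  · have h0 : coeff n F = 0 := by
      by_contra h
      apply hn
      unfold Box at hF
      rw [mem_restrictSupport_iff] at hF
      exact hF (mem_support_iff.2 h)
    rw [h0]
    symm
    refine Finset.sum_eq_zero fun j _ => ?_
    split_ifs with h
    · have h2 := (exp_iff n _ _).1 h.symm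
      have h3 := j.1.2
      have h4 := j.2.2
      exact absurd ⟨by omega, by omega⟩ hn
    · rfl

/-- Taylor coefficients of a polynomial of `Box A B` -/
theorem coeff_tay {A B : ℕ} {F : Pol} (hF : F ∈ Box A B) (p : Pt) (a b : ℕ) :
    coeff (Finsupp.single 0 a + Finsupp.single 1 b) (tay p F) =
      ∑ i : Fin (A + 1) × Fin (B + 1), Transfer.entry (p 0) (p 1) a b i.1 i.2 *
        coeff (Finsupp.single 0 (i.1 : ℕ) + Finsupp.single 1 (i.2 : ℕ)) F := by
  rw [← coeff_Th00, Th_tay]
  conv_lhs => rw [eq_sum_box hF]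
  rw [map_sum, Polynomial.finsetSum_coeff, Polynomial.finsetSum_coeff]
  refine Finset.sum_congr rfl fun i _ => ?_
  rw [Transfer.coeff_Th_monomial]
  simp [xp]

/-- the conditions -/
private abbrev Jx {ι : Type} (m : ι → ℕ) : Type := {t : ι × ℕ × ℕ // t.2.1 + t.2.2 < m t.1}

/-- the rows of the matrix of conditions -/
private def row {R : Type*} [CommRing R] {ι : Type} {m : ι → ℕ} {A B : ℕ} (x y : ι → R)
    (j : Jx m) (i : Fin (A + 1) × Fin (B + 1)) : R :=
  Transfer.entry (x j.1.1) (y j.1.1) j.1.2.1 j.1.2.2 i.1 i.2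

private theorem map_minor {R R' : Type*} [CommRing R] [CommRing R'] {ι : Type} {m : ι → ℕ}
    {A B : ℕ} (φ : R →+* R') (x y : ι → R) (a : Fin (A + 1) × Fin (B + 1) → Jx m) :
    φ (Matrix.of fun i i' => row x y (a i) i').det =
      (Matrix.of fun i i' => row (fun v => φ (x v)) (fun v => φ (y v)) (a i) i').det := by
  rw [RingHom.map_det]
  congr 1
  ext i i'
  simp [row, Transfer.map_entry]

theorem transfer {ι : Type} [Fintype ι] [DecidableEq ι] {z : ι → Pt} (hz : Generic z) {A B : ℕ}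
    {F : Pol} (hF : F ∈ Box A B) (hF0 : F ≠ 0) (m : ι → ℕ) (hm : ∀ i, m i ≤ mlt (z i) F)
    (K : Type) [Field K] [Algebra ℚ K] (w : ι → Fin 2 → K) :
    ∃ c : Fin (A + 1) × Fin (B + 1) → K, c ≠ 0 ∧ ∀ i a b, a + b < m i →
      ∑ j : Fin (A + 1) × Fin (B + 1), Transfer.entry (w i 0) (w i 1) a b j.1 j.2 * c j = 0 := by
  by_contra hcon
  have h1 : ∀ c : Fin (A + 1) × Fin (B + 1) → K,
      (∀ j : Jx m, ∑ i, row (fun v => w v 0) (fun v => w v 1) j i * c i = 0) → c = 0 := by
    intro c hc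
    by_contra hc0
    exact hcon ⟨c, hc0, fun i a b hab => hc ⟨(i, a, b), hab⟩⟩
  obtain ⟨a, ha⟩ := Transfer.exists_minor (K := K) (I := Fin (A + 1) × Fin (B + 1)) (J := Jx m)
    (row (fun v => w v 0) (fun v => w v 1)) h1
  -- the universal minor
  let Xu : ι → MvPolynomial (ι × Fin 2) ℚ := fun v => X (v, 0)
  let Yu : ι → MvPolynomial (ι × Fin 2) ℚ := fun v => X (v, 1)
  have hD : (Matrix.of fun i i' => row Xu Yu (a i) i').det ≠ 0 := by
    intro h0
    apply ha
    have h2 := map_minor (aeval (fun q : ι × Fin 2 => w q.1 q.2) :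
      MvPolynomial (ι × Fin 2) ℚ →ₐ[ℚ] K).toRingHom Xu Yu a
    rw [h0, map_zero] at h2
    rw [h2]
    congr 1
    ext i i'
    simp [Xu, Yu]
  have hz0 : aeval (fun q : ι × Fin 2 => z q.1 q.2)
      (Matrix.of fun i i' => row Xu Yu (a i) i').det ≠ 0 := by
    intro h0
    exact hD ((injective_iff_map_eq_zero _).1 hz _ h0)
  have h3 := map_minor (aeval (fun q : ι × Fin 2 => z q.1 q.2) :
      MvPolynomial (ι × Fin 2) ℚ →ₐ[ℚ] ℂ).toRingHom Xu Yu a
  have h4 : (Matrix.of fun i i' => row (A := A) (B := B) (fun v => z v 0) (fun v => z v 1)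
      (a i) i').det ≠ 0 := by
    intro h0
    apply hz0
    refine h3.trans ?_
    rw [← h0]
    congr 1
    ext i i'
    simp [Xu, Yu]
  have h5 := Transfer.eq_zero_of_minor _ a h4 (fun i => coeff (xp i) F) (by
    rintro ⟨⟨v, s, t⟩, hst⟩
    have h6 := (le_mlt_iff (p := z v) hF0 (m v)).1 (hm v)
      (Finsupp.single 0 s + Finsupp.single 1 t) (by
        rw [Finsupp.degree_eq_sum, Fin.sum_univ_two]
        simpa using hst)
    rw [coeff_tay hF] at h6
    exact h6)
  apply hF0
  rw [eq_sum_box hF]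
  refine Finset.sum_eq_zero fun i _ => ?_
  rw [show coeff (xp i) F = 0 from congrFun h5 i, map_zero]

/-- the same over `ℂ[t]`, with a solution which does not vanish at `t = 0` -/
theorem transfer_t {ι : Type} [Fintype ι] [DecidableEq ι] {z : ι → Pt} (hz : Generic z)
    {A B : ℕ} {F : Pol} (hF : F ∈ Box A B) (hF0 : F ≠ 0) (m : ι → ℕ)
    (hm : ∀ i, m i ≤ mlt (z i) F) (w : ι → Fin 2 → Polynomial ℂ) :
    ∃ c : Fin (A + 1) × Fin (B + 1) → Polynomial ℂ, (∃ j, (c j).eval 0 ≠ 0) ∧
      ∀ i a b, a + b < m i →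
        ∑ j : Fin (A + 1) × Fin (B + 1), Transfer.entry (w i 0) (w i 1) a b j.1 j.2 * c j = 0 := by
  obtain ⟨c, hc0, hc⟩ := transfer hz hF hF0 m hm (FractionRing (Polynomial ℂ))
    (fun i k => algebraMap (Polynomial ℂ) _ (w i k))
  obtain ⟨q, hq⟩ := IsLocalization.exist_integer_multiples_of_finite
    (nonZeroDivisors (Polynomial ℂ)) c
  choose d hd using hq
  have hd' : ∀ j, algebraMap (Polynomial ℂ) (FractionRing (Polynomial ℂ)) (d j) =
      algebraMap (Polynomial ℂ) (FractionRing (Polynomial ℂ)) q * c j := by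
    intro j
    rw [hd j, Algebra.smul_def]
  have hinj : Function.Injective (algebraMap (Polynomial ℂ) (FractionRing (Polynomial ℂ))) :=
    IsFractionRing.injective _ _
  have hq0 : algebraMap (Polynomial ℂ) (FractionRing (Polynomial ℂ)) q ≠ 0 := by
    rw [Ne, map_eq_zero_iff _ hinj]
    exact nonZeroDivisors.ne_zero q.2
  have hdeq : ∀ i a b, a + b < m i →
      ∑ j : Fin (A + 1) × Fin (B + 1), Transfer.entry (w i 0) (w i 1) a b j.1 j.2 * d j = 0 := by
    intro i a b hab
    apply hinj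
    rw [map_sum, map_zero]
    have h1 := congrArg (fun u => algebraMap (Polynomial ℂ) (FractionRing (Polynomial ℂ)) q * u)
      (hc i a b hab)
    simp only [mul_zero] at h1
    rw [← h1, Finset.mul_sum]
    refine Finset.sum_congr rfl fun j _ => ?_
    rw [map_mul, hd', Transfer.map_entry]
    ring
  have hdne : ∃ j, d j ≠ 0 := by
    obtain ⟨j, hj⟩ := Function.ne_iff.1 hc0
    refine ⟨j, fun h => ?_⟩
    have h1 := hd' j
    rw [h, map_zero] at h1
    exact mul_ne_zero hq0 hj h1.symm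
  -- divide by the power of `t`
  classical
  obtain ⟨j0, hj0⟩ := hdne
  obtain ⟨j1, hj1, hmin⟩ := Finset.exists_min_image
    (Finset.univ.filter (fun j => d j ≠ 0)) (fun j => (d j).natTrailingDegree)
    ⟨j0, Finset.mem_filter.2 ⟨Finset.mem_univ _, hj0⟩⟩
  rw [Finset.mem_filter] at hj1
  have hdiv : ∀ j, ∃ e : Polynomial ℂ, d j = Polynomial.X ^ (d j1).natTrailingDegree * e := by
    intro j
    by_cases h : d j = 0
    · exact ⟨0, by rw [h, mul_zero]⟩
    · have h1 := hmin j (Finset.mem_filter.2 ⟨Finset.mem_univ _, h⟩)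
      have h2 : Polynomial.X ^ (d j1).natTrailingDegree ∣ d j := by
        rw [Polynomial.X_pow_dvd_iff]
        intro k hk
        exact Polynomial.coeff_eq_zero_of_lt_natTrailingDegree (by omega)
      exact h2
  choose e he using hdiv
  refine ⟨e, ⟨j1, ?_⟩, fun i a b hab => ?_⟩
  · intro h
    have h1 : (e j1).coeff 0 = 0 := by rw [Polynomial.coeff_zero_eq_eval_zero, h]
    have h2 : (d j1).coeff (d j1).natTrailingDegree = 0 := by
      have h3 := Polynomial.coeff_X_pow_mul (e j1) (d j1).natTrailingDegree 0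
      rw [zero_add, ← he j1, h1] at h3
      exact h3
    exact hj1.2 (Polynomial.trailingCoeff_eq_zero.1 h2)
  · have h1 := hdeq i a b hab
    have h2 : (Polynomial.X : Polynomial ℂ) ^ (d j1).natTrailingDegree *
        ∑ j : Fin (A + 1) × Fin (B + 1), Transfer.entry (w i 0) (w i 1) a b j.1 j.2 * e j = 0 := by
      rw [← h1, Finset.mul_sum]
      refine Finset.sum_congr rfl fun j _ => ?_
      conv_rhs => rw [he j]
      ring
    rcases mul_eq_zero.1 h2 with h3 | h3
    · exact absurd h3 (pow_ne_zero _ Polynomial.X_ne_zero)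
    · exact h3

end Pool.Agent.Lib.MP_ed661f_ag.R
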